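import Pool.Agent.Helper405.KoebeA

set_option autoImplicit false
open Complex Set Filter Metric Topology

namespace Pool.Agent.Helper405.Conv
open Pool.Agent.Helper405.Riemann

/-- locally bounded version -/
theorem tlu_of_pointwise' {ι : Type*} {l : Filter ι} [l.NeBot] {U : Set ℂ}
    {F : ι → ℂ → ℂ} {f : ℂ → ℂ}
    (hd : ∀ i, DifferentiableOn ℂ (F i) U)
    (hb : ∀ x ∈ U, ∃ R > 0, ∃ M, ball x R ⊆ U ∧ ∀ i, ∀ z ∈ ball x R, ‖F i z‖ ≤ M)
    (hp : ∀ z ∈ U, Tendsto (fun i => F i z) l (𝓝 (f z))) :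
    TendstoLocallyUniformlyOn F f l U := by
  intro u hu x hx
  obtain ⟨R, hR, M, hRU, hM⟩ := hb x hx
  have h := tlu_of_pointwise (l := l) (isOpen_ball (x := x) (ε := R)) (fun i => (hd i).mono hRU) hM
    (fun z hz => hp z (hRU hz))
  obtain ⟨t, ht, h2⟩ := h u hu x (mem_ball_self hR)
  refine ⟨t, ?_, h2⟩
  rw [nhdsWithin_eq_nhds.2 (ball_mem_nhds x hR)] at ht
  exact mem_nhdsWithin_of_mem_nhds ht

theorem deriv_ne_zero_of_injOn {U : Set ℂ} (hU : IsOpen U) {f : ℂ → ℂ}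
    (hf : DifferentiableOn ℂ f U) (hi : InjOn f U) {z : ℂ} (hz : z ∈ U) : deriv f z ≠ 0 := by
  intro h0
  obtain ⟨R, hR, hRU⟩ := Metric.isOpen_iff.1 hU z hz
  set ρ : ℝ := R / 4 with hρ
  have hρ0 : 0 < ρ := by positivity
  have hcb : closedBall z (2 * ρ) ⊆ U := (closedBall_subset_ball (by linarith)).trans hRU
  have hf' : DifferentiableOn ℂ (deriv f) U := hf.deriv hU
  obtain ⟨M, hM⟩ := (isCompact_closedBall z (2 * ρ)).exists_bound_of_continuousOn
    (hf'.continuousOn.mono hcb)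
  set h : ℕ → ℂ := fun n => ((ρ / (n + 1) : ℝ) : ℂ) with hh
  have hn : ∀ n, ‖h n‖ ≤ ρ ∧ h n ≠ 0 := by
    intro n
    have h1 : (0 : ℝ) < ρ / (n + 1) := by positivity
    constructor
    · simp only [hh]
      rw [Complex.norm_real, Real.norm_of_nonneg h1.le, div_le_iff₀ (by positivity)]
      have : (0 : ℝ) ≤ n := Nat.cast_nonneg n
      nlinarith
    · simp only [hh]
      exact_mod_cast h1.ne'
  have hmem : ∀ n, ∀ w ∈ ball z ρ, w + h n ∈ closedBall z (2 * ρ) := by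
    intro n w hw
    rw [mem_closedBall, dist_eq_norm]
    rw [mem_ball, dist_eq_norm] at hw
    have := (hn n).1
    calc ‖w + h n - z‖ = ‖(w - z) + h n‖ := by ring_nf
      _ ≤ ‖w - z‖ + ‖h n‖ := norm_add_le _ _
      _ ≤ 2 * ρ := by linarith
  have hsub : ball z ρ ⊆ closedBall z (2 * ρ) :=
    ball_subset_closedBall.trans (closedBall_subset_closedBall (by linarith))
  set F : ℕ → ℂ → ℂ := fun n w => (f (w + h n) - f w) / h n with hF
  have hFd : ∀ n, DifferentiableOn ℂ (F n) (ball z ρ) := by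
    intro n w hw
    have h1 : DifferentiableAt ℂ f (w + h n) := hf.differentiableAt (hU.mem_nhds (hcb (hmem n w hw)))
    have h2 : DifferentiableAt ℂ f w := hf.differentiableAt (hU.mem_nhds (hcb (hsub hw)))
    have h3 : DifferentiableAt ℂ (fun w => f (w + h n)) w :=
      DifferentiableAt.comp w h1 (differentiableAt_id.add_const _)
    exact ((h3.sub h2).div_const _).differentiableWithinAt
  have hFb : ∀ n, ∀ w ∈ ball z ρ, ‖F n w‖ ≤ M := by
    intro n w hw
    have hconv : Convex ℝ (closedBall z (2 * ρ)) := convex_closedBall _ _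
    have := hconv.norm_image_sub_le_of_norm_deriv_le (𝕜 := ℂ) (f := f) (C := M) (x := w) (y := w + h n)
      (fun x hx => hf.differentiableAt (hU.mem_nhds (hcb hx))) (fun x hx => hM x hx)
      (hsub hw) (hmem n w hw)
    simp only [hF]
    rw [norm_div, div_le_iff₀ (norm_pos_iff.2 (hn n).2)]
    simpa using this
  have hh0 : Tendsto h atTop (𝓝[≠] 0) := by
    rw [tendsto_nhdsWithin_iff]
    constructor
    · have h1 : Tendsto (fun n : ℕ => ρ * (1 / ((n : ℝ) + 1))) atTop (𝓝 (ρ * 0)) :=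
        tendsto_one_div_add_atTop_nhds_zero_nat.const_mul ρ
      have h2 : Tendsto (fun n : ℕ => ((ρ * (1 / ((n : ℝ) + 1)) : ℝ) : ℂ)) atTop (𝓝 ((ρ * 0 : ℝ) : ℂ)) :=
        (Complex.continuous_ofReal.tendsto _).comp h1
      simp only [mul_zero, Complex.ofReal_zero] at h2
      refine h2.congr ?_
      intro n
      simp only [hh]
      congr 1
      ring
    · exact Eventually.of_forall fun n => (hn n).2
  have hFp : ∀ w ∈ ball z ρ, Tendsto (fun n => F n w) atTop (𝓝 (deriv f w)) := by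
    intro w hw
    have h1 : HasDerivAt f (deriv f w) w := (hf.differentiableAt (hU.mem_nhds (hcb (hsub hw)))).hasDerivAt
    rw [hasDerivAt_iff_tendsto_slope_zero] at h1
    have h2 := h1.comp hh0
    refine h2.congr ?_
    intro n
    simp only [Function.comp, hF, smul_eq_mul]
    rw [div_eq_inv_mul]
  have htl := tlu_of_pointwise (l := atTop) isOpen_ball hFd hFb hFp
  have hFne : ∀ n, ∀ w ∈ ball z ρ, F n w ≠ 0 := by
    intro n w hw h1
    simp only [hF, div_eq_zero_iff, (hn n).2, or_false] at h1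
    have h2 := hi (hcb (hmem n w hw)) (hcb (hsub hw)) (by linear_combination h1)
    apply (hn n).2
    linear_combination h2
  have hev := hurwitz (l := atTop) isOpen_ball hFd htl hFne (mem_ball_self hρ0) h0
  -- f locally constant
  rw [Metric.eventually_nhds_iff_ball] at hev
  obtain ⟨ε, hε, hev⟩ := hev
  set δ := min ε ρ with hδ
  have hδ0 : 0 < δ := lt_min hε hρ0
  have hbU : ball z δ ⊆ U := (ball_subset_ball (min_le_right _ _)).trans (hsub.trans hcb)
  have hconst : ∀ w ∈ ball z δ, f w = f z := by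
    intro w hw
    have hconv : Convex ℝ (ball z δ) := convex_ball _ _
    have := hconv.norm_image_sub_le_of_norm_deriv_le (𝕜 := ℂ) (f := f) (C := 0) (x := z) (y := w)
      (fun x hx => hf.differentiableAt (hU.mem_nhds (hbU hx)))
      (fun x hx => by rw [hev x (ball_subset_ball (min_le_left _ _) hx)]; simp)
      (mem_ball_self hδ0) hw
    rw [zero_mul] at this
    have := norm_le_zero_iff.1 this
    linear_combination this
  have hw : z + ((δ / 2 : ℝ) : ℂ) ∈ ball z δ := by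
    rw [mem_ball, dist_eq_norm, add_sub_cancel_left, Complex.norm_real, Real.norm_of_nonneg (by positivity)]
    linarith
  have h1 := hi (hbU hw) (hbU (mem_ball_self hδ0)) (hconst _ hw)
  have h2 : ((δ / 2 : ℝ) : ℂ) = 0 := by linear_combination h1
  rw [Complex.ofReal_eq_zero] at h2
  linarith

/-- inverse of an injective holomorphic map -/
theorem inv_facts {U : Set ℂ} (hU : IsOpen U) {f : ℂ → ℂ}
    (hf : DifferentiableOn ℂ f U) (hi : InjOn f U) :
    IsOpen (f '' U) ∧ ∃ g : ℂ → ℂ, DifferentiableOn ℂ g (f '' U) ∧ (∀ z ∈ U, g (f z) = z) ∧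
      (∀ z ∈ U, HasDerivAt g (deriv f z)⁻¹ (f z)) := by
  have hs : ∀ z ∈ U, HasStrictDerivAt f (deriv f z) z := fun z hz =>
    (hf.analyticAt (hU.mem_nhds hz)).hasStrictDerivAt
  have hleft : ∀ z ∈ U, Function.invFunOn f U (f z) = z := fun z hz => hi.leftInvOn_invFunOn hz
  have hder : ∀ z ∈ U, HasDerivAt (Function.invFunOn f U) (deriv f z)⁻¹ (f z) := by
    intro z hz
    apply HasStrictDerivAt.hasDerivAt
    apply (hs z hz).to_local_left_inverse (deriv_ne_zero_of_injOn hU hf hi hz)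
    filter_upwards [hU.mem_nhds hz] with x hx
    exact hleft x hx
  refine ⟨?_, Function.invFunOn f U, ?_, hleft, hder⟩
  · rw [isOpen_iff_mem_nhds]
    rintro _ ⟨z, hz, rfl⟩
    rw [← (hs z hz).map_nhds_eq (deriv_ne_zero_of_injOn hU hf hi hz)]
    exact Filter.image_mem_map (hU.mem_nhds hz)
  · rintro _ ⟨z, hz, rfl⟩
    exact (hder z hz).differentiableAt.differentiableWithinAt

/-- The class `S^c` of normalized convex univalent functions. -/
def Sc (f : ℂ → ℂ) : Prop :=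
  DifferentiableOn ℂ f (ball 0 1) ∧ InjOn f (ball 0 1) ∧ Convex ℝ (f '' ball 0 1) ∧
    f 0 = 0 ∧ deriv f 0 = 1

theorem Sc.growth {f : ℂ → ℂ} (hf : Sc f) {z : ℂ} (hz : z ∈ ball (0 : ℂ) 1) :
    ‖f z‖ ≤ 4 * ‖z‖ / (1 - ‖z‖) := by
  obtain ⟨h1, h2, h3, h4, h5⟩ := hf
  obtain ⟨ho, g, hg1, hg2, hg3⟩ := inv_facts isOpen_ball h1 h2
  have h0 : (0 : ℂ) ∈ ball (0 : ℂ) 1 := by simp
  -- a point outside
  obtain ⟨p, hp, hpn⟩ : ∃ p : ℂ, ‖p‖ < 2 ∧ p ∉ f '' ball 0 1 := by
    by_contra hcon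
    push Not at hcon
    have hsub : ball (0 : ℂ) 2 ⊆ f '' ball 0 1 := fun p hp => hcon p (by simpa using hp)
    have hmaps : MapsTo g (ball 0 2) (closedBall (g 0) 1) := by
      intro w hw
      obtain ⟨x, hx, rfl⟩ := hsub hw
      rw [hg2 x hx]
      have : g 0 = 0 := by rw [← h4, hg2 0 h0, h4]
      rw [this]
      exact ball_subset_closedBall hx
    have hle := Complex.norm_deriv_le_div_of_mapsTo_ball (hg1.mono hsub) hmaps (by norm_num)
    have hd := hg3 0 h0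
    rw [h4, h5] at hd
    rw [hd.deriv] at hle
    norm_num at hle
  obtain ⟨ℓ, hℓ⟩ := RCLike.geometric_hahn_banach_open_point (𝕜 := ℂ) h3 ho hpn
  have hℓ' : ∀ w : ℂ, ℓ w = w * ℓ 1 := by
    intro w
    have := ℓ.map_smul w 1
    simpa using this
  have hℓ0 : ℓ 1 ≠ 0 := by
    intro h
    have := hℓ (f 0) ⟨0, h0, rfl⟩
    rw [hℓ', hℓ' p, h] at this
    simp at this
  have hn0 : 0 < ‖ℓ 1‖ := norm_pos_iff.2 hℓ0
  have hmap : MapsTo (fun z => f z * ℓ 1) (ball 0 1) {w | w.re ≤ 2 * ‖ℓ 1‖} := by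
    intro x hx
    have := hℓ (f x) ⟨x, hx, rfl⟩
    rw [hℓ', hℓ' p] at this
    have h6 : (p * ℓ 1).re ≤ ‖p‖ * ‖ℓ 1‖ := by
      rw [← norm_mul]; exact Complex.re_le_norm _
    have h7 : ‖p‖ * ‖ℓ 1‖ ≤ 2 * ‖ℓ 1‖ := by gcongr
    simp only [mem_ofPred_eq]
    exact (lt_of_lt_of_le this (h6.trans h7)).le
  have hbc := Complex.borelCaratheodory_zero (M := 2 * ‖ℓ 1‖) (by positivity)
    (h1.mul_const (ℓ 1)) hmap one_pos hz (by simp [h4])
  rw [norm_mul] at hbc
  have hzl : ‖z‖ < 1 := by simpa using hz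
  have h8 : 2 * (2 * ‖ℓ 1‖) * ‖z‖ / (1 - ‖z‖) = (4 * ‖z‖ / (1 - ‖z‖)) * ‖ℓ 1‖ := by ring
  rw [h8] at hbc
  exact le_of_mul_le_mul_right hbc hn0

/-- Study: level sets are convex -/
theorem Sc.study {f : ℂ → ℂ} (hf : Sc f) {z₁ z₂ : ℂ} 
    (h2z : z₂ ∈ ball (0 : ℂ) 1) (hle : ‖z₁‖ ≤ ‖z₂‖) {s t : ℝ} (hs : 0 ≤ s) (ht : 0 ≤ t) (hst : s + t = 1) :
    ∃ ζ, ‖ζ‖ ≤ ‖z₂‖ ∧ f ζ = s * f z₁ + t * f z₂ := by
  obtain ⟨h1, h2, h3, h4, h5⟩ := hf
  obtain ⟨ho, g, hg1, hg2, hg3⟩ := inv_facts isOpen_ball h1 h2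
  have h0 : (0 : ℂ) ∈ ball (0 : ℂ) 1 := by simp
  by_cases hz20 : z₂ = 0
  · have hz10 : z₁ = 0 := by
      rw [hz20, norm_zero] at hle
      exact norm_le_zero_iff.1 hle
    refine ⟨0, by simp, ?_⟩
    rw [hz10, hz20, h4]; simp
  have hc : ‖z₁ / z₂‖ ≤ 1 := by
    rw [norm_div]; exact div_le_one_of_le₀ hle (norm_nonneg _)
  have hmem : ∀ x ∈ ball (0 : ℂ) 1, x * (z₁ / z₂) ∈ ball (0 : ℂ) 1 := by
    intro x hx
    rw [mem_ball_zero_iff] at hx ⊢
    rw [norm_mul]
    nlinarith [norm_nonneg x, norm_nonneg (z₁ / z₂)]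
  set q : ℂ → ℂ := fun x => s * f (x * (z₁ / z₂)) + t * f x with hq
  have hqm : ∀ x ∈ ball (0 : ℂ) 1, q x ∈ f '' ball 0 1 := by
    intro x hx
    have := h3 ⟨_, hmem x hx, rfl⟩ ⟨x, hx, rfl⟩ hs ht hst
    simpa [hq, Complex.real_smul] using this
  have hqd : DifferentiableOn ℂ q (ball 0 1) := by
    have e1 : DifferentiableOn ℂ (fun x => f (x * (z₁ / z₂))) (ball 0 1) :=
      h1.comp (differentiableOn_id.mul_const _) (fun x hx => hmem x hx)
    exact (e1.const_mul _).add (h1.const_mul _)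
  set ω : ℂ → ℂ := fun x => g (q x) with hω
  have hωd : DifferentiableOn ℂ ω (ball 0 1) := hg1.comp hqd (fun x hx => hqm x hx)
  have hωm : MapsTo ω (ball 0 1) (ball 0 1) := by
    intro x hx
    obtain ⟨y, hy, hyq⟩ := hqm x hx
    simp only [hω]
    rw [← hyq, hg2 y hy]
    exact hy
  have hω0 : ω 0 = 0 := by
    simp only [hω, hq, zero_mul, h4, mul_zero, add_zero]
    have := hg2 0 h0
    rwa [h4] at this
  have hsch := Complex.norm_le_norm_of_mapsTo_ball hωd (hωm.mono_right ball_subset_closedBall) hω0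
    (by simpa using h2z)
  refine ⟨ω z₂, hsch, ?_⟩
  obtain ⟨y, hy, hyq⟩ := hqm z₂ h2z
  have e2 : ω z₂ = y := by
    simp only [hω]
    rw [← hyq, hg2 y hy]
  rw [e2, hyq]
  simp only [hq]
  rw [mul_div_cancel₀ z₁ hz20]

end Pool.Agent.Helper405.Conv
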