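import Mathlib
import Pool.Agent.Helper405.ConvA

set_option autoImplicit false
open Complex MeasureTheory Set Filter Topology Metric

/-!
Weighted area theorem: for `h` injective holomorphic on the punctured unit disc with a pole at `0`,
`V` entire, `V (h z) * z ^ m = P z = ∑ a_j z ^ j`, one has `∑ (j - m) |a_j|² r ^ (2j) ≤ 0` for `0 < r < 1`.
-/

namespace Pool.Agent.Helper405.Area
open Pool.Agent.Helper405.Conv


theorem det_mul (c : ℂ) : ((ContinuousLinearMap.toSpanSingleton ℂ c).restrictScalars ℝ).det = ‖c‖ ^ 2 := by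
  have : (((ContinuousLinearMap.toSpanSingleton ℂ c).restrictScalars ℝ : ℂ →L[ℝ] ℂ) : ℂ →ₗ[ℝ] ℂ) = ((LinearMap.toSpanSingleton ℂ ℂ c).restrictScalars ℝ) := by
    ext <;> simp
  rw [ContinuousLinearMap.det, this, LinearMap.det_restrictScalars]
  simp [Algebra.norm_complex_apply, Complex.normSq_eq_norm_sq]



/-- gradient as complex number -/
noncomputable def gr (Φ : ℂ → ℝ) (w : ℂ) : ℂ := (fderiv ℝ Φ w 1 : ℝ) + (fderiv ℝ Φ w I : ℝ) * I

theorem fderiv_eq_gr {Φ : ℂ → ℝ} (w v : ℂ) : fderiv ℝ Φ w v = ((starRingEnd ℂ) (gr Φ w) * v).re := by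
  have hv : v = v.re • (1 : ℂ) + v.im • I := by
    simp
  conv_lhs => rw [hv, map_add, map_smul, map_smul]
  simp [gr]
  ring

theorem gr_comp {Φ : ℂ → ℝ} {h : ℂ → ℂ} {z h' : ℂ} (hh : HasDerivAt h h' z)
    (hΦ : DifferentiableAt ℝ Φ (h z)) : gr (fun z => Φ (h z)) z = gr Φ (h z) * (starRingEnd ℂ) h' := by
  have h1 : ∀ v, fderiv ℝ (fun z => Φ (h z)) z v = fderiv ℝ Φ (h z) (h' * v) := by
    intro v
    have h2 : HasFDerivAt (fun z => Φ (h z)) ((fderiv ℝ Φ (h z)).comp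
        ((ContinuousLinearMap.toSpanSingleton ℂ h').restrictScalars ℝ)) z :=
      hΦ.hasFDerivAt.comp z (hh.hasFDerivAt.restrictScalars ℝ)
    rw [h2.fderiv]
    simp [mul_comm]
  unfold gr
  rw [h1, h1, fderiv_eq_gr, fderiv_eq_gr]
  unfold gr
  apply Complex.ext <;> simp

theorem gr_zero {Φ : ℂ → ℝ} {c : ℝ} {w : ℂ} (h : ∀ᶠ z in 𝓝 w, Φ z = c) : gr Φ w = 0 := by
  have : Φ =ᶠ[𝓝 w] fun _ => c := h
  unfold gr
  rw [this.fderiv_eq]
  simp

theorem parts {Φ : ℂ → ℝ} (hΦ : ContDiff ℝ 1 Φ) (hs : HasCompactSupport Φ) {V : ℂ → ℂ}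
    (hV : Differentiable ℂ V) :
    ∫ w, ((Φ w * (2 * ‖deriv V w‖ ^ 2) : ℝ) : ℂ) = - ∫ w, gr Φ w * ((starRingEnd ℂ) (V w) * deriv V w) := by
  have hVc : ContDiff ℝ 2 V := (hV.contDiff (n := 2)).restrict_scalars ℝ
  have hV' : Differentiable ℂ (deriv V) := fun w => (hV.analyticAt w).deriv.differentiableAt
  have hVc' : ContDiff ℝ 2 (deriv V) := (hV'.contDiff (n := 2)).restrict_scalars ℝ
  set G : ℂ → ℂ := fun w => (starRingEnd ℂ) (V w) * deriv V w with hG
  have hGc : ContDiff ℝ 2 G := (Complex.conjCLE.contDiff.comp hVc).mul hVc'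
  have hGd : Differentiable ℝ G := hGc.differentiable (by norm_num)
  have hΦd : Differentiable ℝ Φ := hΦ.differentiable (by norm_num)
  have hcont : ∀ v, Continuous (fun w => fderiv ℝ G w v) := fun v =>
    (hGc.continuous_fderiv (by norm_num)).clm_apply continuous_const
  have hcontΦ : ∀ v, Continuous (fun w => fderiv ℝ Φ w v) := fun v =>
    (hΦ.continuous_fderiv (by norm_num)).clm_apply continuous_const
  have hsΦ : ∀ v, HasCompactSupport (fun w => fderiv ℝ Φ w v) := fun v => hs.fderiv_apply (𝕜 := ℝ) v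
  have key : ∀ v, ∫ w, Φ w • fderiv ℝ G w v = - ∫ w, fderiv ℝ Φ w v • G w := by
    intro v
    apply integral_smul_fderiv_eq_neg_fderiv_smul_of_integrable
    · exact ((hcontΦ v).smul hGc.continuous).integrable_of_hasCompactSupport ((hsΦ v).smul_right)
    · exact (hΦ.continuous.smul (hcont v)).integrable_of_hasCompactSupport (hs.smul_right)
    · exact (hΦ.continuous.smul hGc.continuous).integrable_of_hasCompactSupport (hs.smul_right)
    · exact fun x _ => hΦd x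
    · exact fun x _ => hGd x
  have hder : ∀ w v, fderiv ℝ G w v = (starRingEnd ℂ) (deriv V w * v) * deriv V w + (starRingEnd ℂ) (V w) * (deriv (deriv V) w * v) := by
    intro w v
    have e1 : HasFDerivAt (fun w => (starRingEnd ℂ) (V w)) (((Complex.conjCLE : ℂ ≃L[ℝ] ℂ) : ℂ →L[ℝ] ℂ).comp ((ContinuousLinearMap.toSpanSingleton ℂ (deriv V w)).restrictScalars ℝ)) w :=
      (Complex.conjCLE.hasFDerivAt).comp w ((hV w).hasDerivAt.hasFDerivAt.restrictScalars ℝ)
    have e2 : HasFDerivAt (deriv V) ((ContinuousLinearMap.toSpanSingleton ℂ (deriv (deriv V) w)).restrictScalars ℝ) w :=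
      ((hV' w).hasDerivAt.hasFDerivAt.restrictScalars ℝ)
    have e3 := e1.mul e2
    have e4 : fderiv ℝ G w = _ := e3.fderiv
    rw [e4]
    simp
    ring
  have e1 := key 1
  have e2 := key I
  have i1 : Integrable (fun w => Φ w • fderiv ℝ G w 1) :=
    (hΦ.continuous.smul (hcont 1)).integrable_of_hasCompactSupport (hs.smul_right)
  have i2 : Integrable (fun w => Φ w • fderiv ℝ G w I) :=
    (hΦ.continuous.smul (hcont I)).integrable_of_hasCompactSupport (hs.smul_right)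
  have j1 : Integrable (fun w => fderiv ℝ Φ w 1 • G w) :=
    ((hcontΦ 1).smul hGc.continuous).integrable_of_hasCompactSupport ((hsΦ 1).smul_right)
  have j2 : Integrable (fun w => fderiv ℝ Φ w I • G w) :=
    ((hcontΦ I).smul hGc.continuous).integrable_of_hasCompactSupport ((hsΦ I).smul_right)
  have e3 : ∫ w, ((Φ w * (2 * ‖deriv V w‖ ^ 2) : ℝ) : ℂ) = (∫ w, Φ w • fderiv ℝ G w 1) + (∫ w, Φ w • fderiv ℝ G w I) * I := by
    rw [← integral_mul_const, ← integral_add i1 (i2.mul_const I)]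
    congr 1
    ext w
    rw [hder, hder]
    have : (starRingEnd ℂ) (deriv V w) * deriv V w = ((‖deriv V w‖ ^ 2 : ℝ) : ℂ) := by
      rw [← Complex.normSq_eq_norm_sq, Complex.normSq_eq_conj_mul_self]
    simp only [map_mul, conj_I, mul_one, real_smul, map_one, ofReal_mul, ← this, ofReal_ofNat]
    linear_combination ((Φ w : ℂ) * ((starRingEnd ℂ) (deriv V w)) * deriv V w - Φ w * (starRingEnd ℂ) (V w) * deriv (deriv V) w) * I_mul_I
  have e4 : ∫ w, gr Φ w * G w = (∫ w, fderiv ℝ Φ w 1 • G w) + (∫ w, fderiv ℝ Φ w I • G w) * I := by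
    rw [← integral_mul_const, ← integral_add j1 (j2.mul_const I)]
    congr 1
    ext w
    simp [gr]
    ring
  rw [e3, e4, e1, e2]
  ring



theorem orth (r : ℝ) (j l : ℕ) :
    ∫ θ in (0:ℝ)..(2 * Real.pi), (starRingEnd ℂ) (circleMap 0 r θ ^ l) * circleMap 0 r θ ^ j
      = if l = j then ((2 * Real.pi * r ^ (2 * j) : ℝ) : ℂ) else 0 := by
  have h1 : ∀ θ : ℝ, (starRingEnd ℂ) (circleMap 0 r θ ^ l) * circleMap 0 r θ ^ j
      = (r : ℂ) ^ (l + j) * exp ((((j : ℂ) - l) * I) * θ) := by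
    intro θ
    simp only [circleMap, zero_add, map_pow, map_mul, conj_ofReal, ← exp_conj, conj_I, mul_pow, ← exp_nat_mul]
    rw [pow_add, mul_mul_mul_comm, ← exp_add]
    congr 2
    simp only [map_natCast]
    ring
  simp only [h1]
  rw [intervalIntegral.integral_const_mul]
  split_ifs with h
  · subst h
    simp
    ring
  · have hne : (((j : ℂ) - l) * I) ≠ 0 := by
      apply mul_ne_zero _ I_ne_zero
      rw [sub_ne_zero]
      exact_mod_cast fun h' : j = l => h h'.symm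
    rw [integral_exp_mul_complex hne]
    have : exp (((j : ℂ) - l) * I * ((2 * Real.pi : ℝ) : ℂ)) = 1 := by
      rw [exp_eq_one_iff]
      refine ⟨(j : ℤ) - l, ?_⟩
      push_cast
      ring
    rw [this]
    simp

theorem parseval {P Q : ℂ → ℂ} {a b : ℕ → ℂ} {r : ℝ} (hr : 0 ≤ r)
    (ha : Summable fun j => ‖a j‖ * r ^ j) (hb : Summable fun j => ‖b j‖ * r ^ j)
    (hP : ∀ z, ‖z‖ = r → HasSum (fun j => a j * z ^ j) (P z))
    (hQ : ∀ z, ‖z‖ = r → HasSum (fun j => b j * z ^ j) (Q z)) :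
    HasSum (fun j => (starRingEnd ℂ) (a j) * b j * ((r ^ (2 * j) : ℝ) : ℂ))
      ((2 * Real.pi : ℂ)⁻¹ * ∫ θ in (0:ℝ)..(2 * Real.pi), (starRingEnd ℂ) (P (circleMap 0 r θ)) * Q (circleMap 0 r θ)) := by
  have hc : ∀ θ, ‖circleMap 0 r θ‖ = r := fun θ => by simp [abs_of_nonneg hr]
  have hcc : Continuous (circleMap 0 r) := continuous_circleMap 0 r
  have hPs : ∀ z, ‖z‖ = r → HasSum (fun j => (starRingEnd ℂ) (a j * z ^ j)) ((starRingEnd ℂ) (P z)) := fun z hz => by
    have := (hP z hz).mapL (Complex.conjCLE : ℂ →L[ℝ] ℂ)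
    simpa using this
  -- continuity of P on circle
  have hPc : Continuous fun θ => (starRingEnd ℂ) (P (circleMap 0 r θ)) := by
    have h2 : (fun θ => (starRingEnd ℂ) (P (circleMap 0 r θ))) = fun θ => ∑' j, (starRingEnd ℂ) (a j * circleMap 0 r θ ^ j) := by
      ext θ
      exact (hPs _ (hc θ)).tsum_eq.symm
    rw [h2]
    apply continuous_tsum (fun j => ?_) ha (fun j θ => ?_)
    · exact Complex.continuous_conj.comp (continuous_const.mul (hcc.pow j))
    · rw [RCLike.norm_conj, norm_mul, norm_pow, hc]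
  have hstep : ∀ j : ℕ, ∫ θ in (0:ℝ)..(2 * Real.pi), (starRingEnd ℂ) (P (circleMap 0 r θ)) * circleMap 0 r θ ^ j
      = (starRingEnd ℂ) (a j) * ((2 * Real.pi * r ^ (2 * j) : ℝ) : ℂ) := by
    intro j
    have h3 : HasSum (fun l => ∫ θ in (0:ℝ)..(2 * Real.pi), (starRingEnd ℂ) (a l * circleMap 0 r θ ^ l) * circleMap 0 r θ ^ j)
        (∫ θ in (0:ℝ)..(2 * Real.pi), (starRingEnd ℂ) (P (circleMap 0 r θ)) * circleMap 0 r θ ^ j) := by
      apply intervalIntegral.hasSum_integral_of_dominated_convergence (fun l _ => ‖a l‖ * r ^ l * r ^ j)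
      · intro l
        exact (Continuous.aestronglyMeasurable (by fun_prop))
      · intro l
        refine Eventually.of_forall fun θ _ => ?_
        rw [norm_mul, RCLike.norm_conj, norm_mul, norm_pow, norm_pow, hc]
      · exact Eventually.of_forall fun θ _ => ha.mul_right _
      · exact intervalIntegrable_const
      · refine Eventually.of_forall fun θ _ => ?_
        exact (hPs _ (hc θ)).mul_right _
    have h4 : (fun l => ∫ θ in (0:ℝ)..(2 * Real.pi), (starRingEnd ℂ) (a l * circleMap 0 r θ ^ l) * circleMap 0 r θ ^ j)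
        = fun l => if l = j then (starRingEnd ℂ) (a j) * ((2 * Real.pi * r ^ (2 * j) : ℝ) : ℂ) else 0 := by
      funext l
      have e : ∀ θ : ℝ, (starRingEnd ℂ) (a l * circleMap 0 r θ ^ l) * circleMap 0 r θ ^ j
        = (starRingEnd ℂ) (a l) * ((starRingEnd ℂ) (circleMap 0 r θ ^ l) * circleMap 0 r θ ^ j) := fun θ => by
        rw [map_mul, mul_assoc]
      simp only [e]
      rw [intervalIntegral.integral_const_mul, orth r j l]
      split_ifs with h
      · subst h; rfl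
      · simp
    rw [h4] at h3
    exact h3.unique (hasSum_ite_eq j _)
  have h5 : HasSum (fun j => ∫ θ in (0:ℝ)..(2 * Real.pi), (starRingEnd ℂ) (P (circleMap 0 r θ)) * (b j * circleMap 0 r θ ^ j))
      (∫ θ in (0:ℝ)..(2 * Real.pi), (starRingEnd ℂ) (P (circleMap 0 r θ)) * Q (circleMap 0 r θ)) := by
    obtain ⟨M, hM⟩ : ∃ M, ∀ θ, ‖(starRingEnd ℂ) (P (circleMap 0 r θ))‖ ≤ M := by
      refine ⟨∑' j, ‖a j‖ * r ^ j, fun θ => ?_⟩
      rw [← (hPs _ (hc θ)).tsum_eq]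
      refine tsum_of_norm_bounded ha.hasSum fun j => ?_
      rw [RCLike.norm_conj, norm_mul, norm_pow, hc]
    apply intervalIntegral.hasSum_integral_of_dominated_convergence (fun l _ => M * (‖b l‖ * r ^ l))
    · intro l
      exact (Continuous.aestronglyMeasurable (by fun_prop))
    · intro l
      refine Eventually.of_forall fun θ _ => ?_
      rw [norm_mul, norm_mul, norm_pow, hc]
      exact mul_le_mul_of_nonneg_right (hM θ) (by positivity)
    · exact Eventually.of_forall fun θ _ => hb.mul_left _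
    · exact intervalIntegrable_const
    · refine Eventually.of_forall fun θ _ => ?_
      exact (hQ _ (hc θ)).mul_left _
  have h6 := h5.mul_left (2 * Real.pi : ℂ)⁻¹
  have h7 : (fun j => (2 * Real.pi : ℂ)⁻¹ * ∫ θ in (0:ℝ)..(2 * Real.pi), (starRingEnd ℂ) (P (circleMap 0 r θ)) * (b j * circleMap 0 r θ ^ j))
      = fun j => (starRingEnd ℂ) (a j) * b j * ((r ^ (2 * j) : ℝ) : ℂ) := by
    funext j
    have : ∀ θ : ℝ, (starRingEnd ℂ) (P (circleMap 0 r θ)) * (b j * circleMap 0 r θ ^ j) = b j * ((starRingEnd ℂ) (P (circleMap 0 r θ)) * circleMap 0 r θ ^ j) := fun θ => by ring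
    simp only [this]
    rw [intervalIntegral.integral_const_mul, hstep]
    have hpi : (Real.pi : ℂ) ≠ 0 := by exact_mod_cast Real.pi_ne_zero
    push_cast
    field_simp
  rw [h7] at h6
  exact h6

/-- punctured unit disc -/
def Dp : Set ℂ := ball 0 1 \ {0}

theorem isOpen_Dp : IsOpen Dp := isOpen_ball.sdiff isClosed_singleton

theorem image_closed {h : ℂ → ℂ} (hd : DifferentiableOn ℂ h Dp)
    (hp : Tendsto h (𝓝[≠] 0) (Bornology.cobounded ℂ)) {b : ℝ} (hb : b < 1) :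
    IsClosed (h '' {z | z ≠ 0 ∧ ‖z‖ ^ 2 ≤ b}) := by
  have hsub : {z : ℂ | z ≠ 0 ∧ ‖z‖ ^ 2 ≤ b} ⊆ Dp := by
    rintro z ⟨h0, h1⟩
    refine ⟨?_, h0⟩
    rw [mem_ball_zero_iff]
    nlinarith [norm_nonneg z]
  rw [← isOpen_compl_iff, isOpen_iff_mem_nhds]
  intro w hw
  -- radius
  obtain ⟨δ, hδ, hδ1⟩ : ∃ δ > 0, ∀ z : ℂ, z ≠ 0 → ‖z‖ < δ → ‖w‖ + 1 < ‖h z‖ := by
    have h1 : ∀ᶠ z in 𝓝[≠] (0:ℂ), ‖w‖ + 1 < ‖h z‖ :=
      (tendsto_norm_cobounded_atTop.comp hp).eventually_gt_atTop _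
    rw [eventually_nhdsWithin_iff, Metric.eventually_nhds_iff] at h1
    obtain ⟨δ, hδ, h2⟩ := h1
    exact ⟨δ, hδ, fun z hz hz1 => h2 (by simpa using hz1) hz⟩
  have hcpt : IsCompact {z : ℂ | δ ≤ ‖z‖ ∧ ‖z‖ ^ 2 ≤ b} := by
    apply Metric.isCompact_of_isClosed_isBounded
    · exact (isClosed_le continuous_const continuous_norm).inter (isClosed_le (continuous_norm.pow 2) continuous_const)
    · refine (Metric.isBounded_ball (x := (0:ℂ)) (r := 1)).subset ?_
      rintro z ⟨h0, h1⟩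
      rw [mem_ball_zero_iff]
      nlinarith [norm_nonneg z]
  have hcl : IsClosed (h '' {z : ℂ | δ ≤ ‖z‖ ∧ ‖z‖ ^ 2 ≤ b}) := by
    apply IsCompact.isClosed
    apply hcpt.image_of_continuousOn
    apply hd.continuousOn.mono
    rintro z ⟨h0, h1⟩
    apply hsub
    refine ⟨?_, h1⟩
    rintro rfl
    simp at h0
    linarith
  have hwn : w ∉ h '' {z : ℂ | δ ≤ ‖z‖ ∧ ‖z‖ ^ 2 ≤ b} := by
    rintro ⟨z, ⟨h0, h1⟩, rfl⟩
    apply hw
    refine ⟨z, ⟨?_, h1⟩, rfl⟩
    rintro rfl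
    simp at h0
    linarith
  filter_upwards [hcl.isOpen_compl.mem_nhds hwn, ball_mem_nhds w one_pos] with v hv1 hv2
  rintro ⟨z, ⟨h0, h1⟩, rfl⟩
  apply hv1
  refine ⟨z, ⟨?_, h1⟩, rfl⟩
  by_contra hlt
  push Not at hlt
  have h3 := hδ1 z h0 hlt
  rw [mem_ball, dist_eq_norm] at hv2
  have := norm_sub_norm_le (h z) w
  linarith

theorem image_cofinal {h : ℂ → ℂ} (hd : DifferentiableOn ℂ h Dp)
    (hp : Tendsto h (𝓝[≠] 0) (Bornology.cobounded ℂ)) {a : ℝ} (ha : 0 < a) (ha1 : a < 1) :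
    ∃ M : ℝ, ∀ w : ℂ, M ≤ ‖w‖ → w ∈ h '' {z | z ≠ 0 ∧ ‖z‖ ^ 2 ≤ a} := by
  set m : ℂ → ℂ := fun z => if z = 0 then 0 else (h z)⁻¹ with hm
  have hm0 : m 0 = 0 := by simp [hm]
  obtain ⟨δ, hδ, hδ1⟩ : ∃ δ > 0, ∀ z : ℂ, z ≠ 0 → ‖z‖ < δ → 1 < ‖h z‖ := by
    have h1 : ∀ᶠ z in 𝓝[≠] (0:ℂ), 1 < ‖h z‖ :=
      (tendsto_norm_cobounded_atTop.comp hp).eventually_gt_atTop _
    rw [eventually_nhdsWithin_iff, Metric.eventually_nhds_iff] at h1
    obtain ⟨δ, hδ, h2⟩ := h1
    exact ⟨δ, hδ, fun z hz hz1 => h2 (by simpa using hz1) hz⟩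
  have hct : ContinuousAt m 0 := by
    rw [continuousAt_iff_punctured_nhds, hm0]
    have h1 : Tendsto (fun z => (h z)⁻¹) (𝓝[≠] 0) (𝓝 0) := tendsto_inv₀_cobounded.comp hp
    refine h1.congr' ?_
    filter_upwards [self_mem_nhdsWithin] with z hz
    simp only [hm]
    rw [if_neg (show z ≠ 0 from hz)]
  have hev : ∀ᶠ z in 𝓝[≠] (0:ℂ), DifferentiableAt ℂ m z := by
    have h1 : ball (0:ℂ) (min δ 1) ∈ 𝓝 (0:ℂ) := ball_mem_nhds _ (by positivity)
    filter_upwards [self_mem_nhdsWithin, mem_nhdsWithin_of_mem_nhds h1] with z hz hz1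
    rw [mem_ball_zero_iff, lt_min_iff] at hz1
    have hzD : z ∈ Dp := ⟨by simpa using hz1.2, hz⟩
    have h2 : DifferentiableAt ℂ (fun z => (h z)⁻¹) z :=
      ((hd z hzD).differentiableAt (isOpen_Dp.mem_nhds hzD)).inv (by
        intro h0
        have := hδ1 z hz hz1.1
        rw [h0] at this; simp at this; linarith)
    refine h2.congr_of_eventuallyEq ?_
    filter_upwards [isOpen_compl_singleton.mem_nhds hz] with y hy
    simp only [hm]
    rw [if_neg (show y ≠ 0 from hy)]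
  have han : AnalyticAt ℂ m 0 := Complex.analyticAt_of_differentiable_on_punctured_nhds_of_continuousAt hev hct
  have hnc : ¬ ∀ᶠ z in 𝓝 (0:ℂ), m z = m 0 := by
    intro hc
    rw [Metric.eventually_nhds_iff] at hc
    obtain ⟨η, hη, h2⟩ := hc
    set t : ℝ := min η δ / 2 with ht
    have ht0 : 0 < t := by positivity
    have h3 : ‖(t : ℂ)‖ = t := by rw [Complex.norm_real, Real.norm_of_nonneg ht0.le]
    have h4 := h2 (y := (t : ℂ)) (by rw [dist_zero_right, h3]; have := min_le_left η δ; linarith)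
    have hne : (t : ℂ) ≠ 0 := by exact_mod_cast ht0.ne'
    rw [hm0] at h4
    simp only [hm] at h4
    rw [if_neg hne, inv_eq_zero] at h4
    have := hδ1 t hne (by rw [h3]; have := min_le_right η δ; linarith)
    rw [h4] at this; simp at this; linarith
  have hopen := han.eventually_constant_or_nhds_le_map_nhds.resolve_left hnc
  rw [hm0] at hopen
  have hnb : {z : ℂ | ‖z‖ ^ 2 < a} ∈ 𝓝 (0:ℂ) := by
    apply (isOpen_lt (continuous_norm.pow 2) continuous_const).mem_nhds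
    simpa using ha
  have h5 := hopen (image_mem_map hnb)
  rw [Metric.mem_nhds_iff] at h5
  obtain ⟨η, hη, h6⟩ := h5
  refine ⟨2 / η, fun w hw => ?_⟩
  have hw0 : w ≠ 0 := by
    rintro rfl
    simp at hw
    have : 0 < 2 / η := by positivity
    linarith
  have h7 : w⁻¹ ∈ ball (0:ℂ) η := by
    rw [mem_ball_zero_iff, norm_inv]
    rw [inv_lt_comm₀ (norm_pos_iff.2 hw0) hη]
    calc η⁻¹ < 2 / η := by rw [← one_div]; gcongr; norm_num
      _ ≤ ‖w‖ := hw
  obtain ⟨z, hz, hz1⟩ := h6 h7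
  have hz0 : z ≠ 0 := by
    rintro rfl
    rw [hm0] at hz1
    exact hw0 (by simpa using hz1.symm)
  refine ⟨z, ⟨hz0, le_of_lt hz⟩, ?_⟩
  simp only [hm] at hz1
  rw [if_neg hz0] at hz1
  exact inv_injective hz1

theorem cutoff {h : ℂ → ℂ} (hd : DifferentiableOn ℂ h Dp) (hi : InjOn h Dp)
    (hp : Tendsto h (𝓝[≠] 0) (Bornology.cobounded ℂ)) {χ : ℝ → ℝ} (hχ : ContDiff ℝ 1 χ)
    {a b : ℝ} (ha : 0 < a) (hab : a < b) (hb : b < 1) (h0 : ∀ s ≤ a, χ s = 0)
    (h1 : ∀ s, b ≤ s → χ s = 1) (hχ0 : ∀ s, 0 ≤ χ s) :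
    ∃ Φ : ℂ → ℝ, ContDiff ℝ 1 Φ ∧ HasCompactSupport Φ ∧ (∀ z ∈ Dp, Φ (h z) = χ (‖z‖ ^ 2)) ∧
      (∀ w ∉ h '' Dp, ∀ᶠ v in 𝓝 w, Φ v = 1) ∧ (∀ w, 0 ≤ Φ w) := by
  classical
  obtain ⟨hO, g, hgd, hgl, -⟩ := inv_facts isOpen_Dp hd hi
  have hsub : ∀ c < (1:ℝ), {z : ℂ | z ≠ 0 ∧ ‖z‖ ^ 2 ≤ c} ⊆ Dp := by
    rintro c hc z ⟨h0, h1⟩
    refine ⟨?_, h0⟩
    rw [mem_ball_zero_iff]
    nlinarith [norm_nonneg z]
  set Φ : ℂ → ℝ := fun w => if w ∈ h '' Dp then χ (‖g w‖ ^ 2) else 1 with hΦ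
  have hΦ1 : ∀ z ∈ Dp, Φ (h z) = χ (‖z‖ ^ 2) := by
    intro z hz
    simp only [hΦ]
    rw [if_pos ⟨z, hz, rfl⟩, hgl z hz]
  have hΦ2 : ∀ w ∉ h '' Dp, ∀ᶠ v in 𝓝 w, Φ v = 1 := by
    intro w hw
    have h2 : w ∉ h '' {z | z ≠ 0 ∧ ‖z‖ ^ 2 ≤ b} := fun hc => hw (image_mono (hsub b hb) hc)
    filter_upwards [(image_closed hd hp hb).isOpen_compl.mem_nhds h2] with v hv
    by_cases hv2 : v ∈ h '' Dp
    · obtain ⟨z, hz, rfl⟩ := hv2
      rw [hΦ1 z hz]
      apply h1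
      by_contra hlt
      push Not at hlt
      exact hv ⟨z, ⟨hz.2, hlt.le⟩, rfl⟩
    · simp only [hΦ]
      rw [if_neg hv2]
  refine ⟨Φ, ?_, ?_, hΦ1, hΦ2, ?_⟩
  · rw [contDiff_iff_contDiffAt]
    intro w
    by_cases hw : w ∈ h '' Dp
    · have hg : ContDiffAt ℝ 1 g w := ((hgd.analyticAt (hO.mem_nhds hw)).contDiffAt (n := 1)).restrict_scalars ℝ
      have h3 : ContDiffAt ℝ 1 (fun w => χ (‖g w‖ ^ 2)) w :=
        hχ.contDiffAt.comp w (hg.norm_sq ℝ)
      refine h3.congr_of_eventuallyEq ?_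
      filter_upwards [hO.mem_nhds hw] with v hv
      simp only [hΦ]
      rw [if_pos hv]
    · exact contDiffAt_const.congr_of_eventuallyEq (hΦ2 w hw)
  · obtain ⟨M, hM⟩ := image_cofinal hd hp ha (hab.trans hb)
    apply HasCompactSupport.intro (isCompact_closedBall (0:ℂ) M)
    intro w hw
    rw [mem_closedBall_zero_iff, not_le] at hw
    obtain ⟨z, ⟨hz0, hz1⟩, rfl⟩ := hM w hw.le
    rw [hΦ1 z (hsub a (hab.trans hb) ⟨hz0, hz1⟩)]
    exact h0 _ hz1
  · intro w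
    simp only [hΦ]
    split_ifs
    · exact hχ0 _
    · norm_num

theorem gr_radial {χ : ℝ → ℝ} (hχ : Differentiable ℝ χ) (z : ℂ) :
    gr (fun z => χ (‖z‖ ^ 2)) z = ((deriv χ (‖z‖ ^ 2) : ℝ) : ℂ) * (2 * z) := by
  have h1 : HasFDerivAt (fun z : ℂ => ‖z‖ ^ 2) (2 • (innerSL ℝ z)) z := (hasStrictFDerivAt_norm_sq z).hasFDerivAt
  have h2 : HasFDerivAt (fun z : ℂ => χ (‖z‖ ^ 2)) (deriv χ (‖z‖ ^ 2) • (2 • (innerSL ℝ z))) z :=
    (hχ _).hasDerivAt.comp_hasFDerivAt z h1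
  unfold gr
  rw [h2.fderiv]
  simp [Complex.inner]
  apply Complex.ext <;> simp

theorem area_int {h : ℂ → ℂ} (hd : DifferentiableOn ℂ h Dp) (hi : InjOn h Dp)
    (hp : Tendsto h (𝓝[≠] 0) (Bornology.cobounded ℂ)) {χ : ℝ → ℝ} (hχ : ContDiff ℝ 1 χ)
    {a b : ℝ} (ha : 0 < a) (hab : a < b) (hb : b < 1) (h0 : ∀ s ≤ a, χ s = 0)
    (h1 : ∀ s, b ≤ s → χ s = 1) (hχ0 : ∀ s, 0 ≤ χ s) {V : ℂ → ℂ} (hV : Differentiable ℂ V) :
    (∫ z : ℂ, ((deriv χ (‖z‖ ^ 2) : ℝ) : ℂ) * (z * ((starRingEnd ℂ) (V (h z)) * (deriv V (h z) * deriv h z)))).re ≤ 0 := by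
  obtain ⟨Φ, hΦc, hΦs, hΦ1, hΦ2, hΦ0⟩ := cutoff hd hi hp hχ ha hab hb h0 h1 hχ0
  have hO := (inv_facts isOpen_Dp hd hi).1
  have hχd : Differentiable ℝ χ := hχ.differentiable (by norm_num)
  have hP := parts hΦc hΦs hV
  have e1 : ∫ w, gr Φ w * ((starRingEnd ℂ) (V w) * deriv V w) = ∫ w in h '' Dp, gr Φ w * ((starRingEnd ℂ) (V w) * deriv V w) := by
    rw [← MeasureTheory.setIntegral_eq_integral_of_forall_compl_eq_zero]
    intro w hw
    rw [gr_zero (hΦ2 w hw), zero_mul]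
  have e2 : ∫ w in h '' Dp, gr Φ w * ((starRingEnd ℂ) (V w) * deriv V w)
      = ∫ z in Dp, |((ContinuousLinearMap.toSpanSingleton ℂ (deriv h z)).restrictScalars ℝ).det| • (gr Φ (h z) * ((starRingEnd ℂ) (V (h z)) * deriv V (h z))) := by
    apply integral_image_eq_integral_abs_det_fderiv_smul volume isOpen_Dp.measurableSet _ hi
    intro z hz
    exact (((hd z hz).differentiableAt (isOpen_Dp.mem_nhds hz)).hasDerivAt.hasFDerivAt.restrictScalars ℝ).hasFDerivWithinAt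
  have e3 : ∫ z in Dp, |((ContinuousLinearMap.toSpanSingleton ℂ (deriv h z)).restrictScalars ℝ).det| • (gr Φ (h z) * ((starRingEnd ℂ) (V (h z)) * deriv V (h z)))
      = ∫ z in Dp, 2 * (((deriv χ (‖z‖ ^ 2) : ℝ) : ℂ) * (z * ((starRingEnd ℂ) (V (h z)) * (deriv V (h z) * deriv h z)))) := by
    apply MeasureTheory.setIntegral_congr_fun isOpen_Dp.measurableSet
    intro z hz
    have hdz := ((hd z hz).differentiableAt (isOpen_Dp.mem_nhds hz)).hasDerivAt
    have h3 := gr_comp hdz (hΦc.differentiable (by norm_num) (h z))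
    have h4 : gr (fun z => Φ (h z)) z = gr (fun z => χ (‖z‖ ^ 2)) z := by
      have h5 : (fun z => Φ (h z)) =ᶠ[𝓝 z] fun z => χ (‖z‖ ^ 2) := by
        filter_upwards [isOpen_Dp.mem_nhds hz] with y hy
        exact hΦ1 y hy
      unfold gr
      rw [h5.fderiv_eq]
    rw [h4, gr_radial hχd] at h3
    simp only
    rw [det_mul, abs_of_nonneg (by positivity), real_smul]
    have h6 : ((‖deriv h z‖ ^ 2 : ℝ) : ℂ) = (starRingEnd ℂ) (deriv h z) * deriv h z := by
      rw [← Complex.normSq_eq_norm_sq, Complex.normSq_eq_conj_mul_self]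
    rw [h6]
    linear_combination (-(deriv h z) * ((starRingEnd ℂ) (V (h z)) * deriv V (h z))) * h3
  have e4 : ∫ z in Dp, 2 * (((deriv χ (‖z‖ ^ 2) : ℝ) : ℂ) * (z * ((starRingEnd ℂ) (V (h z)) * (deriv V (h z) * deriv h z))))
      = ∫ z : ℂ, 2 * (((deriv χ (‖z‖ ^ 2) : ℝ) : ℂ) * (z * ((starRingEnd ℂ) (V (h z)) * (deriv V (h z) * deriv h z)))) := by
    apply MeasureTheory.setIntegral_eq_integral_of_forall_compl_eq_zero
    intro z hz
    by_cases hz0 : z = 0
    · simp [hz0]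
    · have hz1 : 1 ≤ ‖z‖ := by
        by_contra hlt
        push Not at hlt
        exact hz ⟨by simpa using hlt, hz0⟩
      have h7 : deriv χ (‖z‖ ^ 2) = 0 := by
        have h8 : χ =ᶠ[𝓝 (‖z‖ ^ 2)] fun _ => 1 := by
          have h9 : b < ‖z‖ ^ 2 := by nlinarith
          filter_upwards [lt_mem_nhds h9] with s hs
          exact h1 s hs.le
        rw [h8.deriv_eq]
        simp
      rw [h7]
      simp
  rw [e1, e2, e3, e4, integral_const_mul] at hP
  have h9 := congrArg Complex.re hP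
  have h12 : (∫ w, ((Φ w * (2 * ‖deriv V w‖ ^ 2) : ℝ) : ℂ)) = ((∫ w, Φ w * (2 * ‖deriv V w‖ ^ 2) : ℝ) : ℂ) :=
    integral_complex_ofReal
  rw [h12, neg_re, ofReal_re] at h9
  have h10 : 0 ≤ ∫ w, Φ w * (2 * ‖deriv V w‖ ^ 2) := integral_nonneg fun w => by
    have := hΦ0 w
    positivity
  have h11 : (2 * ∫ z : ℂ, ((deriv χ (‖z‖ ^ 2) : ℝ) : ℂ) * (z * ((starRingEnd ℂ) (V (h z)) * (deriv V (h z) * deriv h z)))).re
    = 2 * (∫ z : ℂ, ((deriv χ (‖z‖ ^ 2) : ℝ) : ℂ) * (z * ((starRingEnd ℂ) (V (h z)) * (deriv V (h z) * deriv h z)))).re := by simp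
  rw [h11] at h9
  linarith


theorem polar_int {f : ℂ → ℂ} (hf : Continuous f) (hf0 : ∀ z, 1 ≤ ‖z‖ → f z = 0) :
    IntegrableOn (fun r : ℝ => (r : ℂ) * ∫ θ in (0:ℝ)..(2 * Real.pi), f (circleMap 0 r θ)) (Ioo 0 1) ∧
    ∫ z, f z = ∫ r in Ioo (0:ℝ) 1, (r : ℂ) * ∫ θ in (0:ℝ)..(2 * Real.pi), f (circleMap 0 r θ) := by
  set g : ℝ × ℝ → ℂ := fun p => p.1 • f (circleMap 0 p.1 p.2) with hg
  have hcm : Continuous fun p : ℝ × ℝ => circleMap 0 p.1 p.2 := by
    unfold circleMap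
    fun_prop
  have hgc : Continuous g := continuous_fst.smul (hf.comp hcm)
  have e1 : ∫ z, f z = ∫ p in polarCoord.target, g p := by
    rw [← Complex.integral_comp_polarCoord_symm]
    apply MeasureTheory.setIntegral_congr_fun polarCoord.open_target.measurableSet
    intro p _
    simp only [hg]
    congr 2
    rw [Complex.polarCoord_symm_apply, circleMap, zero_add, exp_mul_I, ofReal_cos, ofReal_sin]
  have e2 : ∫ p in polarCoord.target, g p = ∫ p in Ioo (0:ℝ) 1 ×ˢ Ioo (-Real.pi) Real.pi, g p := by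
    apply MeasureTheory.setIntegral_eq_of_subset_of_forall_sdiff_eq_zero polarCoord.open_target.measurableSet
    · rw [polarCoord_target]
      exact prod_mono Ioo_subset_Ioi_self Subset.rfl
    · rintro ⟨r, θ⟩ ⟨h1, h2⟩
      rw [polarCoord_target] at h1
      have hr : 1 ≤ r := by
        by_contra hlt
        push Not at hlt
        exact h2 ⟨⟨h1.1, hlt⟩, h1.2⟩
      simp only [hg]
      rw [hf0 _ (by simpa [abs_of_nonneg (zero_le_one.trans hr)] using hr), smul_zero]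
  have hint : IntegrableOn g (Ioo (0:ℝ) 1 ×ˢ Ioo (-Real.pi) Real.pi) (volume.prod volume) := by
    have h1 : IntegrableOn g (Icc (0:ℝ) 1 ×ˢ Icc (-Real.pi) Real.pi) (volume.prod volume) :=
      hgc.continuousOn.integrableOn_compact (isCompact_Icc.prod isCompact_Icc)
    exact h1.mono_set (prod_mono Ioo_subset_Icc_self Ioo_subset_Icc_self)
  have e3 : ∫ p in Ioo (0:ℝ) 1 ×ˢ Ioo (-Real.pi) Real.pi, g p = ∫ r in Ioo (0:ℝ) 1, ∫ θ in Ioo (-Real.pi) Real.pi, g (r, θ) :=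
    setIntegral_prod g hint
  have e4 : ∀ r : ℝ, ∫ θ in Ioo (-Real.pi) Real.pi, g (r, θ) = (r : ℂ) * ∫ θ in (0:ℝ)..(2 * Real.pi), f (circleMap 0 r θ) := by
    intro r
    have hper : Function.Periodic (fun θ => f (circleMap 0 r θ)) (2 * Real.pi) := (periodic_circleMap 0 r).comp f
    have h2 := hper.intervalIntegral_add_eq (-Real.pi) 0
    rw [zero_add, show -Real.pi + 2 * Real.pi = Real.pi by ring] at h2
    rw [← h2, intervalIntegral.integral_of_le (by linarith [Real.pi_pos]), integral_Ioc_eq_integral_Ioo, ← integral_const_mul]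
    simp only [hg, real_smul]
  simp only [e4] at e3
  refine ⟨?_, ?_⟩
  · rw [IntegrableOn, ← Measure.prod_restrict] at hint
    have h5 := hint.integral_prod_left
    simp only [e4] at h5
    exact h5
  · rw [e1, e2]
    exact e3

theorem summable_of_hasSum {P : ℂ → ℂ} {a : ℕ → ℂ} (ha : ∀ z ∈ ball (0:ℂ) 1, HasSum (fun j => a j * z ^ j) (P z))
    {r : ℝ} (hr0 : 0 ≤ r) (hr1 : r < 1) : Summable fun j => ‖a j‖ * r ^ j := by
  have h1 := (ha (r : ℂ) (by rw [mem_ball_zero_iff, Complex.norm_real, Real.norm_of_nonneg hr0]; exact hr1)).summable.norm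
  simpa [abs_of_nonneg hr0] using h1

theorem hasSum_Q {P : ℂ → ℂ} {a : ℕ → ℂ} (ha : ∀ z ∈ ball (0:ℂ) 1, HasSum (fun j => a j * z ^ j) (P z)) (m : ℕ) :
    ∀ z ∈ ball (0:ℂ) 1, HasSum (fun j : ℕ => (((j : ℂ) - m) * a j) * z ^ j) (z * deriv P z - m * P z) := by
  intro z hz
  rw [mem_ball_zero_iff] at hz
  obtain ⟨ρ, hρ1, hρ2⟩ := exists_between hz
  have hρ0 : 0 ≤ ρ := (norm_nonneg z).trans hρ1.le
  have h1 : HasSum (fun j => deriv (fun w => a j * w ^ j) z) (deriv (fun w => ∑' j, a j * w ^ j) z) := by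
    apply Complex.hasSum_deriv_of_summable_norm (u := fun j => ‖a j‖ * ρ ^ j) (U := ball 0 ρ)
      (summable_of_hasSum ha hρ0 hρ2) _ isOpen_ball _ (by rwa [mem_ball_zero_iff])
    · intro j
      fun_prop
    · intro j w hw
      rw [mem_ball_zero_iff] at hw
      rw [norm_mul, norm_pow]
      gcongr
  have h2 : deriv (fun w => ∑' j, a j * w ^ j) z = deriv P z := by
    apply Filter.EventuallyEq.deriv_eq
    filter_upwards [isOpen_ball.mem_nhds (show z ∈ ball (0:ℂ) 1 by rwa [mem_ball_zero_iff])] with w hw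
    exact (ha w hw).tsum_eq
  rw [h2] at h1
  have h3 := (h1.mul_left z).sub ((ha z (by rwa [mem_ball_zero_iff])).mul_left (m : ℂ))
  convert! h3 using 1
  funext j
  have : deriv (fun w => a j * w ^ j) z = a j * (j * z ^ (j - 1)) := by
    simp
  rw [this]
  rcases Nat.eq_zero_or_pos j with hj | hj
  · subst hj; simp
  · have : z ^ j = z * z ^ (j - 1) := by
      rw [← pow_succ', Nat.sub_add_cancel hj]
    rw [this]; ring

theorem area {h : ℂ → ℂ} (hd : DifferentiableOn ℂ h Dp) (hi : InjOn h Dp)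
    (hp : Tendsto h (𝓝[≠] 0) (Bornology.cobounded ℂ)) {V : ℂ → ℂ} (hV : Differentiable ℂ V)
    {P : ℂ → ℂ} (hP : DifferentiableOn ℂ P (ball 0 1)) {m : ℕ} (hF : ∀ z ∈ Dp, V (h z) * z ^ m = P z)
    {a : ℕ → ℂ} (ha : ∀ z ∈ ball (0:ℂ) 1, HasSum (fun j => a j * z ^ j) (P z)) {r : ℝ} (hr0 : 0 < r) (hr1 : r < 1) :
    ∑' j : ℕ, ((j : ℝ) - m) * ‖a j‖ ^ 2 * r ^ (2 * j) ≤ 0 := by
  set Q : ℂ → ℂ := fun z => z * deriv P z - m * P z with hQ
  have hQs := hasSum_Q ha m
  have hQz : ∀ z ∈ Dp, z * ((starRingEnd ℂ) (V (h z)) * (deriv V (h z) * deriv h z)) = (((‖z‖ ^ (2 * m) : ℝ) : ℂ))⁻¹ * ((starRingEnd ℂ) (P z) * Q z) := by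
    intro z hz
    have hz0 : z ≠ 0 := hz.2
    have hdz := ((hd z hz).differentiableAt (isOpen_Dp.mem_nhds hz)).hasDerivAt
    have h1 : HasDerivAt (fun z => V (h z) * z ^ m) (deriv V (h z) * deriv h z * z ^ m + V (h z) * (m * z ^ (m - 1))) z :=
      ((hV (h z)).hasDerivAt.comp z hdz).mul (hasDerivAt_pow m z)
    have h2 : deriv P z = deriv V (h z) * deriv h z * z ^ m + V (h z) * (m * z ^ (m - 1)) := by
      rw [← h1.deriv]
      apply Filter.EventuallyEq.deriv_eq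
      filter_upwards [isOpen_Dp.mem_nhds hz] with w hw
      exact (hF w hw).symm
    have h3 : Q z = z * (deriv V (h z) * deriv h z) * z ^ m := by
      simp only [hQ]
      rw [h2, ← hF z hz]
      rcases Nat.eq_zero_or_pos m with hm | hm
      · subst hm; simp
      · have : z ^ m = z * z ^ (m - 1) := by
          rw [← pow_succ', Nat.sub_add_cancel hm]
        rw [this]; ring
    have h4 : ((‖z‖ ^ (2 * m) : ℝ) : ℂ) = (starRingEnd ℂ) (z ^ m) * z ^ m := by
      rw [← Complex.normSq_eq_conj_mul_self, Complex.normSq_eq_norm_sq, norm_pow]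
      push_cast
      ring
    rw [h3, h4, ← hF z hz, map_mul]
    have h5 : z ^ m ≠ 0 := pow_ne_zero _ hz0
    have h6 : (starRingEnd ℂ) (z ^ m) ≠ 0 := (map_ne_zero _).2 h5
    field_simp
  -- the function B
  set S : ℝ → ℝ := fun s => ∑' j : ℕ, ((j : ℝ) - m) * ‖a j‖ ^ 2 * s ^ (2 * j) with hS
  have key : ∀ s : ℝ, 0 < s → s < 1 → (Summable fun j : ℕ => ((j : ℝ) - m) * ‖a j‖ ^ 2 * s ^ (2 * j)) ∧
      ∫ θ in (0:ℝ)..(2 * Real.pi), (starRingEnd ℂ) (P (circleMap 0 s θ)) * Q (circleMap 0 s θ)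
      = ((2 * Real.pi * S s : ℝ) : ℂ) := by
    intro s hs0 hs1
    have h1 := parseval hs0.le (summable_of_hasSum ha hs0.le hs1) (summable_of_hasSum hQs hs0.le hs1)
      (fun z hz => ha z (by rw [mem_ball_zero_iff, hz]; exact hs1))
      (fun z hz => hQs z (by rw [mem_ball_zero_iff, hz]; exact hs1))
    have h2 : (fun j : ℕ => (starRingEnd ℂ) (a j) * (((j : ℂ) - m) * a j) * ((s ^ (2 * j) : ℝ) : ℂ))
        = fun j : ℕ => ((((j : ℝ) - m) * ‖a j‖ ^ 2 * s ^ (2 * j) : ℝ) : ℂ) := by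
      funext j
      have h3 : ((‖a j‖ ^ 2 : ℝ) : ℂ) = (starRingEnd ℂ) (a j) * a j := by
        rw [← Complex.normSq_eq_norm_sq, Complex.normSq_eq_conj_mul_self]
      rw [ofReal_mul, ofReal_mul, h3]
      push_cast
      ring
    rw [h2] at h1
    set c : ℂ := (2 * Real.pi : ℂ)⁻¹ * ∫ θ in (0:ℝ)..(2 * Real.pi), (starRingEnd ℂ) (P (circleMap 0 s θ)) * Q (circleMap 0 s θ) with hc
    have hre := Complex.hasSum_re h1
    have him := Complex.hasSum_im h1
    simp only [ofReal_re, ofReal_im] at hre him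
    have him0 : c.im = 0 := him.unique hasSum_zero
    refine ⟨hre.summable, ?_⟩
    have h4 : c = ((S s : ℝ) : ℂ) := by
      apply Complex.ext
      · rw [ofReal_re, hS]
        exact hre.tsum_eq.symm
      · rw [him0, ofReal_im]
    have h5 : ∫ θ in (0:ℝ)..(2 * Real.pi), (starRingEnd ℂ) (P (circleMap 0 s θ)) * Q (circleMap 0 s θ) = (2 * Real.pi : ℂ) * c := by
      have hpi : (Real.pi : ℂ) ≠ 0 := by exact_mod_cast Real.pi_ne_zero
      rw [hc]
      field_simp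
    rw [h5, h4]
    push_cast
    ring
  have hmono : ∀ s : ℝ, r ≤ s → s < 1 → (r ^ (2 * m))⁻¹ * S r ≤ (s ^ (2 * m))⁻¹ * S s := by
    intro s hrs hs1
    have hs0 : 0 < s := hr0.trans_le hrs
    simp only [hS]
    rw [← tsum_mul_left, ← tsum_mul_left]
    apply Summable.tsum_le_tsum _ ((key r hr0 hr1).1.mul_left _) ((key s hs0 hs1).1.mul_left _)
    intro j
    have h1 : ∀ t : ℝ, 0 < t → (t ^ (2 * m))⁻¹ * (((j : ℝ) - m) * ‖a j‖ ^ 2 * t ^ (2 * j)) = ‖a j‖ ^ 2 * (((j : ℝ) - m) * (t ^ (2 * m))⁻¹ * t ^ (2 * j)) := by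
      intro t _; ring
    rw [h1 r hr0, h1 s hs0]
    apply mul_le_mul_of_nonneg_left _ (by positivity)
    rcases le_total m j with hmj | hmj
    · have e : ∀ t : ℝ, 0 < t → ((j : ℝ) - m) * (t ^ (2 * m))⁻¹ * t ^ (2 * j) = ((j : ℝ) - m) * t ^ (2 * (j - m)) := by
        intro t ht
        have : t ^ (2 * j) = t ^ (2 * m) * t ^ (2 * (j - m)) := by rw [← pow_add]; congr 1; omega
        rw [this]
        field_simp
      rw [e r hr0, e s hs0]
      have : (0:ℝ) ≤ (j : ℝ) - m := by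
        rw [sub_nonneg]; exact_mod_cast hmj
      gcongr
    · have e : ∀ t : ℝ, 0 < t → ((j : ℝ) - m) * (t ^ (2 * m))⁻¹ * t ^ (2 * j) = -(((m : ℝ) - j) * (t ^ (2 * (m - j)))⁻¹) := by
        intro t ht
        have : t ^ (2 * m) = t ^ (2 * j) * t ^ (2 * (m - j)) := by rw [← pow_add]; congr 1; omega
        rw [this]
        field_simp
        ring
      rw [e r hr0, e s hs0]
      have : (0:ℝ) ≤ (m : ℝ) - j := by
        rw [sub_nonneg]; exact_mod_cast hmj
      apply neg_le_neg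
      gcongr
  by_contra hcon
  push Not at hcon
  have hSr : 0 < S r := hcon
  set κ : ℝ := (r ^ (2 * m))⁻¹ * S r with hκ
  have hκ0 : 0 < κ := by positivity
  set A : ℝ := r ^ 2 with hA
  set Bb : ℝ := (1 + r ^ 2) / 2 with hB
  have hA0 : 0 < A := by positivity
  have hA1 : A < 1 := by simp only [hA]; nlinarith
  have hAB : A < Bb := by simp only [hB]; linarith
  have hB1 : Bb < 1 := by simp only [hB]; linarith
  set χ : ℝ → ℝ := fun s => Real.smoothTransition ((s - A) / (Bb - A)) with hχ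
  have hBA : 0 < Bb - A := by linarith
  have hχc : ContDiff ℝ 1 χ := by
    apply Real.smoothTransition.contDiff.comp
    fun_prop
  have hχ0 : ∀ s ≤ A, χ s = 0 := fun s hs => Real.smoothTransition.zero_of_nonpos (div_nonpos_of_nonpos_of_nonneg (by linarith) hBA.le)
  have hχ1 : ∀ s, Bb ≤ s → χ s = 1 := fun s hs => Real.smoothTransition.one_of_one_le ((one_le_div hBA).2 (by linarith))
  have hχn : ∀ s, 0 ≤ χ s := fun s => Real.smoothTransition.nonneg _
  have hχm : Monotone χ := by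
    intro s t hst
    apply Real.smoothTransition.monotone
    gcongr
  have hχd0 : ∀ s, 0 ≤ deriv χ s := fun s => hχm.deriv_nonneg
  have hχdA : ∀ s < A, deriv χ s = 0 := by
    intro s hs
    have : χ =ᶠ[𝓝 s] fun _ => 0 := by
      filter_upwards [gt_mem_nhds hs] with t ht
      exact hχ0 t ht.le
    rw [this.deriv_eq]; simp
  have hχdB : ∀ s, Bb < s → deriv χ s = 0 := by
    intro s hs
    have : χ =ᶠ[𝓝 s] fun _ => 1 := by
      filter_upwards [lt_mem_nhds hs] with t ht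
      exact hχ1 t ht.le
    rw [this.deriv_eq]; simp
  have hχdc : Continuous (deriv χ) := hχc.continuous_deriv (by norm_num)
  have hint := area_int hd hi hp hχc hA0 hAB hB1 hχ0 hχ1 hχn hV
  set f : ℂ → ℂ := fun z => ((deriv χ (‖z‖ ^ 2) : ℝ) : ℂ) * (z * ((starRingEnd ℂ) (V (h z)) * (deriv V (h z) * deriv h z))) with hf
  have hfD : ∀ z ∈ Dp, f z = ((deriv χ (‖z‖ ^ 2) : ℝ) : ℂ) * ((((‖z‖ ^ (2 * m) : ℝ) : ℂ))⁻¹ * ((starRingEnd ℂ) (P z) * Q z)) := by
    intro z hz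
    simp only [hf]
    rw [hQz z hz]
  have hf0 : ∀ z, 1 ≤ ‖z‖ → f z = 0 := by
    intro z hz
    simp only [hf]
    rw [hχdB _ (by nlinarith)]
    simp
  have hPd : ContinuousOn (deriv P) (ball 0 1) := (hP.deriv isOpen_ball).continuousOn
  have hfc : Continuous f := by
    rw [continuous_iff_continuousAt]
    intro z
    by_cases hz : z ∈ Dp
    · have hz0 : z ≠ 0 := hz.2
      have h1 : ContinuousAt (fun z => ((deriv χ (‖z‖ ^ 2) : ℝ) : ℂ) * ((((‖z‖ ^ (2 * m) : ℝ) : ℂ))⁻¹ * ((starRingEnd ℂ) (P z) * Q z))) z := by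
        have c1 : ContinuousAt P z := hP.continuousOn.continuousAt (isOpen_ball.mem_nhds hz.1)
        have c2 : ContinuousAt (deriv P) z := hPd.continuousAt (isOpen_ball.mem_nhds hz.1)
        have c3 : ContinuousAt Q z := (continuousAt_id.mul c2).sub (continuousAt_const.mul c1)
        have c4 : ContinuousAt (fun z : ℂ => ((‖z‖ ^ (2 * m) : ℝ) : ℂ)) z := by fun_prop
        have c5 : ContinuousAt (fun z : ℂ => ((deriv χ (‖z‖ ^ 2) : ℝ) : ℂ)) z := by
          apply Complex.continuous_ofReal.continuousAt.comp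
          exact hχdc.continuousAt.comp (continuous_norm.pow 2).continuousAt
        refine c5.mul ((c4.inv₀ ?_).mul ((Complex.continuous_conj.continuousAt.comp c1).mul c3))
        have : (0:ℝ) < ‖z‖ ^ (2 * m) := pow_pos (norm_pos_iff.2 hz0) _
        exact_mod_cast this.ne'
      refine h1.congr ?_
      filter_upwards [isOpen_Dp.mem_nhds hz] with w hw
      exact (hfD w hw).symm
    · have h1 : ∀ᶠ w in 𝓝 z, f w = 0 := by
        by_cases hz0 : z = 0
        · subst hz0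
          have : ∀ᶠ w in 𝓝 (0:ℂ), ‖w‖ ^ 2 < A := by
            apply (isOpen_lt (continuous_norm.pow 2) continuous_const).mem_nhds
            simpa using hA0
          filter_upwards [this] with w hw
          simp only [hf]
          rw [hχdA _ hw]
          simp
        · have hz1 : 1 ≤ ‖z‖ := by
            by_contra hlt
            push Not at hlt
            exact hz ⟨by simpa using hlt, hz0⟩
          have : ∀ᶠ w in 𝓝 z, Bb < ‖w‖ ^ 2 := by
            apply (isOpen_lt continuous_const (continuous_norm.pow 2)).mem_nhds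
            show Bb < ‖z‖ ^ 2
            nlinarith
          filter_upwards [this] with w hw
          simp only [hf]
          rw [hχdB _ hw]
          simp
      have h2 : f =ᶠ[𝓝 z] fun _ => 0 := h1
      exact continuousAt_const.congr h2.symm
  obtain ⟨hpi1, hpi2⟩ := polar_int hfc hf0
  have hinner : ∀ s ∈ Ioo (0:ℝ) 1, (s : ℂ) * ∫ θ in (0:ℝ)..(2 * Real.pi), f (circleMap 0 s θ)
      = ((s * deriv χ (s ^ 2) * (2 * Real.pi * ((s ^ (2 * m))⁻¹ * S s)) : ℝ) : ℂ) := by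
    intro s hs
    have h1 : ∀ θ : ℝ, f (circleMap 0 s θ) = (((deriv χ (s ^ 2) : ℝ) : ℂ) * (((s ^ (2 * m) : ℝ) : ℂ))⁻¹) * ((starRingEnd ℂ) (P (circleMap 0 s θ)) * Q (circleMap 0 s θ)) := by
      intro θ
      have hn : ‖circleMap 0 s θ‖ = s := by simp [abs_of_pos hs.1]
      rw [hfD, hn, mul_assoc]
      refine ⟨by rw [mem_ball_zero_iff, hn]; exact hs.2, ?_⟩
      intro h0
      rw [mem_singleton_iff] at h0
      rw [h0, norm_zero] at hn
      exact hs.1.ne hn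
    simp only [h1]
    rw [intervalIntegral.integral_const_mul, (key s hs.1 hs.2).2]
    push_cast
    ring
  have hreal : ∫ z, f z = ((∫ s in Ioo (0:ℝ) 1, s * deriv χ (s ^ 2) * (2 * Real.pi * ((s ^ (2 * m))⁻¹ * S s)) : ℝ) : ℂ) := by
    rw [hpi2, MeasureTheory.setIntegral_congr_fun measurableSet_Ioo hinner]
    exact integral_complex_ofReal
  have hintg : IntegrableOn (fun s => s * deriv χ (s ^ 2) * (2 * Real.pi * ((s ^ (2 * m))⁻¹ * S s))) (Ioo 0 1) := by
    have h1 : IntegrableOn (fun s => ((s * deriv χ (s ^ 2) * (2 * Real.pi * ((s ^ (2 * m))⁻¹ * S s)) : ℝ) : ℂ)) (Ioo 0 1) :=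
      hpi1.congr_fun hinner measurableSet_Ioo
    exact h1.re
  have hlow : ∫ s in Ioo (0:ℝ) 1, s * deriv χ (s ^ 2) * (2 * Real.pi * κ) ≤ ∫ s in Ioo (0:ℝ) 1, s * deriv χ (s ^ 2) * (2 * Real.pi * ((s ^ (2 * m))⁻¹ * S s)) := by
    apply MeasureTheory.setIntegral_mono_on _ hintg measurableSet_Ioo
    · intro s hs
      rcases lt_or_ge s r with hsr | hsr
      · rw [hχdA (s ^ 2) (by simp only [hA]; nlinarith [hs.1])]
        simp
      · have h1 := hmono s hsr hs.2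
        have h2 := hχd0 (s ^ 2)
        have h3 := hs.1
        have h4 := Real.pi_pos
        gcongr
    · have hc : Continuous fun s : ℝ => s * deriv χ (s ^ 2) * (2 * Real.pi * κ) := by fun_prop
      exact (hc.integrableOn_Icc (a := 0) (b := 1)).mono_set Ioo_subset_Icc_self
  have hval : ∫ s in Ioo (0:ℝ) 1, s * deriv χ (s ^ 2) * (2 * Real.pi * κ) = Real.pi * κ := by
    rw [← integral_Ioc_eq_integral_Ioo, ← intervalIntegral.integral_of_le zero_le_one]
    have h1 : ∀ s ∈ uIcc (0:ℝ) 1, HasDerivAt (fun s => Real.pi * κ * χ (s ^ 2)) (s * deriv χ (s ^ 2) * (2 * Real.pi * κ)) s := by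
      intro s _
      have h2 : HasDerivAt χ (deriv χ (s ^ 2)) (s ^ 2) := (hχc.differentiable (by norm_num) _).hasDerivAt
      have hp2 : HasDerivAt (fun s : ℝ => s ^ 2) (2 * s) s := by simpa using hasDerivAt_pow 2 s
      have h3 : HasDerivAt (fun s => χ (s ^ 2)) (deriv χ (s ^ 2) * (2 * s)) s := HasDerivAt.comp (h := fun s : ℝ => s ^ 2) s h2 hp2
      have h4 : HasDerivAt (fun s => Real.pi * κ * χ (s ^ 2)) (Real.pi * κ * (deriv χ (s ^ 2) * (2 * s))) s := h3.const_mul (Real.pi * κ)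
      have h5 : s * deriv χ (s ^ 2) * (2 * Real.pi * κ) = Real.pi * κ * (deriv χ (s ^ 2) * (2 * s)) := by ring
      rw [h5]
      exact h4
    rw [intervalIntegral.integral_eq_sub_of_hasDerivAt h1]
    · rw [hχ1 (1 ^ 2) (by simpa using hB1.le), hχ0 (0 ^ 2) (by simpa using hA0.le)]
      ring
    · have hc : Continuous fun s : ℝ => s * deriv χ (s ^ 2) * (2 * Real.pi * κ) := by fun_prop
      exact hc.intervalIntegrable _ _
  rw [hreal, ofReal_re] at hint
  have h9 := Real.pi_pos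
  have h10 : 0 < Real.pi * κ := by positivity
  linarith

end Pool.Agent.Helper405.Area
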