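import Pool.Agent.Helper405.ConvA

set_option autoImplicit false
open Complex Set Filter Metric Topology

namespace Pool.Agent.Helper405.Conv
open Pool.Agent.Helper405.Riemann

/-- covering property of locally uniform limits -/
theorem cover {l : Filter ℕ} [l.NeBot] {F : ℕ → ℂ → ℂ} {f : ℂ → ℂ}
    (hFd : ∀ n, DifferentiableOn ℂ (F n) (ball 0 1)) (hFi : ∀ n, InjOn (F n) (ball 0 1))
    (hi : InjOn f (ball 0 1)) (ht : TendstoLocallyUniformlyOn F f l (ball 0 1))
    {z₀ : ℂ} (hz₀ : z₀ ∈ ball (0 : ℂ) 1) :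
    ∃ δ > 0, ∀ᶠ n in l, ball (f z₀) δ ⊆ F n '' ball 0 1 := by
  have hfd : DifferentiableOn ℂ f (ball 0 1) := ht.differentiableOn (Eventually.of_forall hFd) isOpen_ball
  obtain ⟨R, hR, hRU⟩ := Metric.isOpen_iff.1 (isOpen_ball (x := (0 : ℂ)) (ε := 1)) z₀ hz₀
  set ρ : ℝ := R / 2 with hρ
  have hρ0 : 0 < ρ := by positivity
  have hcb : closedBall z₀ ρ ⊆ ball 0 1 := (closedBall_subset_ball (by linarith)).trans hRU
  have hne' : (sphere z₀ ρ).Nonempty := NormedSpace.sphere_nonempty.2 hρ0.le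
  have hcont : ContinuousOn (fun z => ‖f z - f z₀‖) (sphere z₀ ρ) :=
    ((hfd.continuousOn.mono (sphere_subset_closedBall.trans hcb)).sub continuousOn_const).norm
  obtain ⟨w, hw, hwmin⟩ := (isCompact_sphere z₀ ρ).exists_isMinOn hne' hcont
  have hε : 0 < ‖f w - f z₀‖ := by
    rw [norm_pos_iff, sub_ne_zero]
    intro h
    have := hi (hcb (sphere_subset_closedBall hw)) hz₀ h
    have hd : dist w z₀ = ρ := hw
    rw [this, dist_self] at hd
    linarith
  set ε := ‖f w - f z₀‖ with hεd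
  have hunif : TendstoUniformlyOn F f l (closedBall z₀ ρ) :=
    (tendstoLocallyUniformlyOn_iff_forall_isCompact isOpen_ball).1 ht _ hcb (isCompact_closedBall z₀ ρ)
  have hev := (Metric.tendstoUniformlyOn_iff.1 hunif) (ε / 8) (by positivity)
  refine ⟨ε / 8, by positivity, ?_⟩
  filter_upwards [hev] with n hn
  have h1 : ∀ z ∈ sphere z₀ ρ, ε / 2 ≤ ‖F n z - F n z₀‖ := by
    intro z hz
    have a1 := hn z (sphere_subset_closedBall hz)
    have a2 := hn z₀ (mem_closedBall_self hρ0.le)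
    have a3 : ε ≤ ‖f z - f z₀‖ := hwmin hz
    rw [dist_eq_norm] at a1 a2
    have a4 : f z - f z₀ = (f z - F n z) + (F n z - F n z₀) + (F n z₀ - f z₀) := by ring
    have a5 : ‖f z - f z₀‖ ≤ ‖f z - F n z‖ + ‖F n z - F n z₀‖ + ‖F n z₀ - f z₀‖ := by
      rw [a4]; exact norm_add₃_le
    rw [norm_sub_rev (F n z₀)] at a5
    linarith
  have h2 : DiffContOnCl ℂ (F n) (ball z₀ ρ) := by
    apply DifferentiableOn.diffContOnCl
    rw [closure_ball z₀ hρ0.ne']
    exact (hFd n).mono hcb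
  have h3 : ∃ᶠ z in 𝓝 z₀, F n z ≠ F n z₀ := by
    have h4 : ∀ᶠ z in 𝓝[≠] z₀, F n z ≠ F n z₀ := by
      rw [eventually_nhdsWithin_iff]
      filter_upwards [isOpen_ball.mem_nhds hz₀] with z hz hzz h
      exact hzz (hFi n hz hz₀ h)
    exact (h4.frequently).filter_mono nhdsWithin_le_nhds
  have h5 := h2.ball_subset_image_closedBall hρ0 h1 h3
  intro x hx
  have h6 : x ∈ ball (F n z₀) (ε / 2 / 2) := by
    rw [mem_ball] at hx ⊢
    have a2 := hn z₀ (mem_closedBall_self hρ0.le)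
    have := dist_triangle x (f z₀) (F n z₀)
    linarith
  obtain ⟨y, hy, hyx⟩ := h5 h6
  exact ⟨y, hcb hy, hyx⟩

theorem compactness {F : ℕ → ℂ → ℂ} (hF : ∀ n, Sc (F n)) :
    ∃ f, Sc f ∧ ∀ w ∈ f '' ball 0 1, ∃ δ > 0,
      ∀ᶠ n in (Filter.hyperfilter ℕ : Filter ℕ), ball w δ ⊆ F n '' ball 0 1 := by
  set l : Ultrafilter ℕ := Filter.hyperfilter ℕ with hl
  have h0 : (0 : ℂ) ∈ ball (0 : ℂ) 1 := by simp
  have hpt : ∀ z ∈ ball (0 : ℂ) 1, ∃ y : ℂ, Tendsto (fun n => F n z) l (𝓝 y) := by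
    intro z hz
    have hcomp : IsCompact (closedBall (0 : ℂ) (4 * ‖z‖ / (1 - ‖z‖))) := isCompact_closedBall _ _
    have hmem : (Ultrafilter.map (fun n => F n z) l : Filter ℂ) ≤
        𝓟 (closedBall (0 : ℂ) (4 * ‖z‖ / (1 - ‖z‖))) := by
      rw [le_principal_iff]
      show (fun n => F n z) ⁻¹' _ ∈ (l : Filter ℕ)
      apply Filter.univ_mem'
      intro n
      simpa using (hF n).growth hz
    obtain ⟨y, _, hy⟩ := hcomp.ultrafilter_le_nhds _ hmem
    exact ⟨y, hy⟩
  classical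
  choose! f hf using hpt
  have hd : ∀ n, DifferentiableOn ℂ (F n) (ball 0 1) := fun n => (hF n).1
  have hb : ∀ x ∈ ball (0 : ℂ) 1, ∃ R > 0, ∃ M, ball x R ⊆ ball 0 1 ∧
      ∀ i, ∀ z ∈ ball x R, ‖F i z‖ ≤ M := by
    intro x hx
    rw [mem_ball_zero_iff] at hx
    have hnorm : ∀ z ∈ ball x ((1 - ‖x‖) / 2), ‖z‖ < (1 + ‖x‖) / 2 := by
      intro z hz
      rw [mem_ball, dist_eq_norm] at hz
      have := norm_le_norm_add_norm_sub' z x
      linarith
    refine ⟨(1 - ‖x‖) / 2, by linarith, 4 * 1 / (1 - (1 + ‖x‖) / 2), ?_, ?_⟩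
    · intro z hz
      rw [mem_ball_zero_iff]
      have := hnorm z hz
      linarith
    · intro i z hz
      have h1 := hnorm z hz
      have h2 : z ∈ ball (0 : ℂ) 1 := by rw [mem_ball_zero_iff]; linarith
      refine ((hF i).growth h2).trans ?_
      have : 0 < 1 - (1 + ‖x‖) / 2 := by linarith
      gcongr
      linarith
  have htlu : TendstoLocallyUniformlyOn F f (l : Filter ℕ) (ball 0 1) := tlu_of_pointwise' hd hb hf
  have hfd : DifferentiableOn ℂ f (ball 0 1) :=
    htlu.differentiableOn (Eventually.of_forall hd) isOpen_ball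
  have hderlim : TendstoLocallyUniformlyOn (deriv ∘ F) (deriv f) (l : Filter ℕ) (ball 0 1) :=
    htlu.deriv (Eventually.of_forall hd) isOpen_ball
  have hfa : f 0 = 0 := by
    have h1 := hf 0 h0
    have h2 : Tendsto (fun n => F n 0) (l : Filter ℕ) (𝓝 0) := by
      have : (fun n => F n 0) = fun _ => (0 : ℂ) := by
        funext n; exact (hF n).2.2.2.1
      rw [this]; exact tendsto_const_nhds
    exact tendsto_nhds_unique h1 h2
  have hder1 : deriv f 0 = 1 := by
    have h1 : Tendsto (fun n => deriv (F n) 0) (l : Filter ℕ) (𝓝 (deriv f 0)) :=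
      hderlim.tendsto_at h0
    have h2 : Tendsto (fun n => deriv (F n) 0) (l : Filter ℕ) (𝓝 1) := by
      have : (fun n => deriv (F n) 0) = fun _ => (1 : ℂ) := by
        funext n; exact (hF n).2.2.2.2
      rw [this]; exact tendsto_const_nhds
    exact tendsto_nhds_unique h1 h2
  have hana : AnalyticOnNhd ℂ f (ball 0 1) := hfd.analyticOnNhd isOpen_ball
  have hUp : IsPreconnected (ball (0 : ℂ) 1) := (convex_ball _ _).isPreconnected
  have hinj : InjOn f (ball 0 1) := by
    intro z hz w hw hzw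
    by_contra hne
    have hV : IsOpen (ball (0 : ℂ) 1 \ {w}) := isOpen_ball.sdiff isClosed_singleton
    have hzV : z ∈ ball (0 : ℂ) 1 \ {w} := ⟨hz, hne⟩
    have htlu' : TendstoLocallyUniformlyOn (fun n x => F n x - F n w) (fun x => f x - f w)
        (l : Filter ℕ) (ball (0 : ℂ) 1 \ {w}) := by
      apply tlu_of_pointwise'
      · intro n
        exact ((hd n).mono sdiff_subset).sub_const _
      · intro x hx
        obtain ⟨R, hR, M, hRU, hM⟩ := hb x hx.1
        obtain ⟨R', hR', hRU'⟩ := Metric.isOpen_iff.1 hV x hx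
        refine ⟨min R R', lt_min hR hR', M + 4 * ‖w‖ / (1 - ‖w‖),
          (ball_subset_ball (min_le_right _ _)).trans hRU', ?_⟩
        intro i y hy
        have h1 := hM i y (ball_subset_ball (min_le_left _ _) hy)
        have h2 := (hF i).growth hw
        have h3 := norm_sub_le (F i y) (F i w)
        linarith
      · intro x hx
        exact (hf x hx.1).sub (hf w hw)
    have hev := hurwitz (l := (l : Filter ℕ)) hV (F := fun n x => F n x - F n w)
      (f := fun x => f x - f w)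
      (fun n => ((hd n).mono sdiff_subset).sub_const _) htlu'
      (fun n x hx h0 => hx.2 ((hF n).2.1 hx.1 hw (by linear_combination h0))) hzV
      (by simp [hzw])
    have hana'' : AnalyticOnNhd ℂ (fun x => f x - f w) (ball 0 1) := hana.sub analyticOnNhd_const
    have heq := hana''.eqOn_zero_of_preconnected_of_eventuallyEq_zero hUp hz hev
    have hc : f =ᶠ[𝓝 0] fun _ => f w := by
      filter_upwards [isOpen_ball.mem_nhds h0] with x hx
      have := heq hx
      simp only [Pi.zero_apply] at this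
      linear_combination this
    have h1 : deriv f 0 = 0 := by
      rw [hc.deriv_eq]; simp
    rw [hder1] at h1
    exact one_ne_zero h1
  have hconv : Convex ℝ (f '' ball 0 1) := by
    have key : ∀ z₁ ∈ ball (0 : ℂ) 1, ∀ z₂ ∈ ball (0 : ℂ) 1, ‖z₁‖ ≤ ‖z₂‖ → ∀ s t : ℝ, 0 ≤ s → 0 ≤ t →
        s + t = 1 → (s : ℂ) * f z₁ + t * f z₂ ∈ f '' ball 0 1 := by
      intro z₁ hz₁ z₂ hz₂ hle s t hs ht hst
      have hst' := fun n => (hF n).study hz₂ hle hs ht hst
      choose ζ hζ1 hζ2 using hst'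
      have hcomp : IsCompact (closedBall (0 : ℂ) ‖z₂‖) := isCompact_closedBall _ _
      have hmem : (Ultrafilter.map ζ l : Filter ℂ) ≤ 𝓟 (closedBall (0 : ℂ) ‖z₂‖) := by
        rw [le_principal_iff]
        show ζ ⁻¹' _ ∈ (l : Filter ℕ)
        apply Filter.univ_mem'
        intro n
        simpa using hζ1 n
      obtain ⟨y, hyc, hy⟩ := hcomp.ultrafilter_le_nhds _ hmem
      have hy' : Tendsto ζ (l : Filter ℕ) (𝓝 y) := hy
      have hz₂' : ‖z₂‖ < 1 := by simpa using hz₂
      have hsub : closedBall (0 : ℂ) ‖z₂‖ ⊆ ball 0 1 := closedBall_subset_ball hz₂'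
      have hyb : y ∈ ball (0 : ℂ) 1 := hsub hyc
      refine ⟨y, hyb, ?_⟩
      have hlimL : Tendsto (fun n => F n (ζ n)) (l : Filter ℕ) (𝓝 (f y)) := by
        have hunif : TendstoUniformlyOn F f (l : Filter ℕ) (closedBall (0 : ℂ) ‖z₂‖) :=
          (tendstoLocallyUniformlyOn_iff_forall_isCompact isOpen_ball).1 htlu _ hsub hcomp
        have hcf : ContinuousAt f y := (hfd.differentiableAt (isOpen_ball.mem_nhds hyb)).continuousAt
        have h1 : Tendsto (fun n => f (ζ n)) (l : Filter ℕ) (𝓝 (f y)) := hcf.tendsto.comp hy'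
        rw [Metric.tendsto_nhds] at h1 ⊢
        intro ε hε
        filter_upwards [h1 (ε / 2) (by positivity),
          (Metric.tendstoUniformlyOn_iff.1 hunif) (ε / 2) (by positivity)] with n a1 a2
        have a3 := a2 (ζ n) (by simpa using hζ1 n)
        rw [dist_comm] at a3
        calc dist (F n (ζ n)) (f y) ≤ dist (F n (ζ n)) (f (ζ n)) + dist (f (ζ n)) (f y) :=
              dist_triangle _ _ _
          _ < ε := by linarith
      have hlimR : Tendsto (fun n => F n (ζ n)) (l : Filter ℕ) (𝓝 (s * f z₁ + t * f z₂)) := by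
        have : (fun n => F n (ζ n)) = fun n => (s : ℂ) * F n z₁ + t * F n z₂ := by
          funext n; exact hζ2 n
        rw [this]
        exact ((hf z₁ hz₁).const_mul _).add ((hf z₂ hz₂).const_mul _)
      exact tendsto_nhds_unique hlimL hlimR
    rintro _ ⟨z₁, hz₁, rfl⟩ _ ⟨z₂, hz₂, rfl⟩ s t hs ht hst
    rw [Complex.real_smul, Complex.real_smul]
    rcases le_total ‖z₁‖ ‖z₂‖ with h | h
    · exact key z₁ hz₁ z₂ hz₂ h s t hs ht hst
    · rw [add_comm]
      exact key z₂ hz₂ z₁ hz₁ h t s ht hs (by linarith)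
  refine ⟨f, ⟨hfd, hinj, hconv, hfa, hder1⟩, ?_⟩
  rintro _ ⟨z, hz, rfl⟩
  exact cover hd (fun n => (hF n).2.1) hinj htlu hz

end Pool.Agent.Helper405.Conv
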