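import Pool.Agent.Helper405.ConvB

set_option autoImplicit false
open Complex Set Filter Metric Topology MeasureTheory Measure

namespace Pool.Agent.Helper405.Conv
open Pool.Agent.Helper405.Riemann

/-- linear measure of the part of the circle `|w| = r` omitted by `f` -/
noncomputable def L (f : ℂ → ℂ) (r : ℝ) : ENNReal :=
  μH[1] ((ball (0 : ℂ) 1 \ f '' ball 0 1) ∩ {w : ℂ | ‖w‖ = r})

/-- parametrization of the circle -/
noncomputable def E (r : ℝ) (φ : ℝ) : ℂ := (r : ℂ) * exp (φ * I)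

theorem E_hasDerivAt (r φ : ℝ) : HasDerivAt (E r) ((r : ℂ) * (exp (φ * I) * I)) φ := by
  have h1 : HasDerivAt (fun x : ℝ => (x : ℂ) * I) I φ := by
    have := (Complex.ofRealCLM.hasDerivAt (x := φ)).mul_const I
    simpa using this
  have h2 := h1.cexp.const_mul (r : ℂ)
  exact h2

theorem E_lip (r : NNReal) : LipschitzWith r (E r) := by
  apply lipschitzWith_of_nnnorm_deriv_le (𝕜 := ℝ)
  · intro x; exact (E_hasDerivAt r x).differentiableAt
  · intro x
    rw [(E_hasDerivAt r x).deriv]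
    rw [← NNReal.coe_le_coe, coe_nnnorm, norm_mul, norm_mul, Complex.norm_exp_ofReal_mul_I,
      Complex.norm_I]
    simp

theorem E_norm {r : ℝ} (hr : 0 ≤ r) (φ : ℝ) : ‖E r φ‖ = r := by
  rw [E, norm_mul, Complex.norm_exp_ofReal_mul_I, mul_one, Complex.norm_real, Real.norm_of_nonneg hr]

theorem arc_le {r : ℝ} (hr : 0 ≤ r) {a b : ℝ} :
    μH[1] (E r '' Icc a b) ≤ ENNReal.ofReal (r * (b - a)) := by
  lift r to NNReal using hr
  have h := ((E_lip r).lipschitzOnWith (s := Icc a b)).hausdorffMeasure_image_le (d := 1) zero_le_one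
  refine h.trans ?_
  rw [hausdorffMeasure_real, Real.volume_Icc, ENNReal.rpow_one, ENNReal.ofReal_mul r.coe_nonneg]
  simp

theorem circle_eq {r : ℝ} (hr : 0 ≤ r) : {w : ℂ | ‖w‖ = r} = E r '' Icc (-Real.pi) Real.pi := by
  ext w
  constructor
  · intro hw
    refine ⟨w.arg, ⟨(Complex.neg_pi_lt_arg w).le, Complex.arg_le_pi w⟩, ?_⟩
    have : ‖w‖ = r := hw
    rw [E, ← this]
    exact Complex.norm_mul_exp_arg_mul_I w
  · rintro ⟨φ, _, rfl⟩
    exact E_norm hr φ

theorem circle_lt_top {r : ℝ} (hr : 0 ≤ r) : μH[1] {w : ℂ | ‖w‖ = r} < ⊤ := by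
  rw [circle_eq hr]
  exact (arc_le hr).trans_lt ENNReal.ofReal_lt_top

theorem Sc_id : Sc (fun z => z) := by
  refine ⟨differentiableOn_id, injOn_id _, ?_, rfl, by simp⟩
  simpa using convex_ball (0 : ℂ) 1

theorem exists_extremal {r : ℝ} (hr0 : 0 ≤ r) :
    ∃ f, Sc f ∧ ∀ g, Sc g → L g r ≤ L f r := by
  set S : Set ENNReal := {x | ∃ g, Sc g ∧ L g r = x} with hS
  have hSne : S.Nonempty := ⟨_, _, Sc_id, rfl⟩
  obtain ⟨u, hu1, hu2, hu3⟩ := exists_seq_tendsto_sSup hSne (OrderTop.bddAbove S)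
  choose F hF hFu using hu3
  obtain ⟨f, hf, hcov⟩ := compactness hF
  refine ⟨f, hf, fun g hg => ?_⟩
  have hle : L g r ≤ sSup S := le_sSup ⟨g, hg, rfl⟩
  refine hle.trans ?_
  have hopen : IsOpen (f '' ball 0 1) := (inv_facts isOpen_ball hf.1 hf.2.1).1
  set C : Set ℂ := {w : ℂ | ‖w‖ = r} with hC
  have hCm : MeasurableSet C := (isClosed_eq continuous_norm continuous_const).measurableSet
  set μ : Measure ℂ := (μH[1] : Measure ℂ).restrict C with hμ
  have hfin : IsFiniteMeasure μ := ⟨by rw [hμ, Measure.restrict_apply_univ]; exact circle_lt_top hr0⟩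
  set V : Set ℂ := f '' ball 0 1 with hV
  have hVm : MeasurableSet V := hopen.measurableSet
  refine ENNReal.le_of_forall_pos_le_add ?_
  intro ε hε _
  obtain ⟨K, hKV, hKc, hKε⟩ := hVm.exists_isCompact_sdiff_lt (μ := μ) (measure_ne_top μ V)
    (ENNReal.coe_ne_zero.2 hε.ne')
  have hev : ∀ᶠ n in (Filter.hyperfilter ℕ : Filter ℕ), K ⊆ F n '' ball 0 1 := by
    refine hKc.induction_on (p := fun S => ∀ᶠ n in (Filter.hyperfilter ℕ : Filter ℕ), S ⊆ F n '' ball 0 1)
      ?_ ?_ ?_ ?_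
    · exact Eventually.of_forall fun n => empty_subset _
    · intro s t hst ht
      filter_upwards [ht] with n hn
      exact hst.trans hn
    · intro s t hs ht
      filter_upwards [hs, ht] with n h1 h2
      exact union_subset h1 h2
    · intro x hx
      obtain ⟨δ, hδ, h⟩ := hcov x (hKV hx)
      exact ⟨ball x δ, mem_nhdsWithin_of_mem_nhds (ball_mem_nhds x hδ), h⟩
  have hev2 : ∀ᶠ n in (Filter.hyperfilter ℕ : Filter ℕ), u n ≤ L f r + ε := by
    filter_upwards [hev] with n hn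
    rw [← hFu n]
    have hsub : (ball (0 : ℂ) 1 \ F n '' ball 0 1) ∩ C ⊆
        ((ball (0 : ℂ) 1 \ V) ∩ C) ∪ ((V \ K) ∩ C) := by
      rintro w ⟨⟨hw1, hw2⟩, hw3⟩
      by_cases hwV : w ∈ V
      · right
        exact ⟨⟨hwV, fun hk => hw2 (hn hk)⟩, hw3⟩
      · left
        exact ⟨⟨hw1, hwV⟩, hw3⟩
    calc L (F n) r ≤ μH[1] (((ball (0 : ℂ) 1 \ V) ∩ C) ∪ ((V \ K) ∩ C)) := measure_mono hsub
      _ ≤ μH[1] ((ball (0 : ℂ) 1 \ V) ∩ C) + μH[1] ((V \ K) ∩ C) := measure_union_le _ _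
      _ ≤ L f r + ε := by
          gcongr
          · exact le_rfl
          · have : μ (V \ K) = μH[1] ((V \ K) ∩ C) := by
              rw [hμ, Measure.restrict_apply' hCm]
            rw [← this]
            exact hKε.le
  have hle2 : (Filter.hyperfilter ℕ : Filter ℕ) ≤ atTop := by
    rw [← Nat.cofinite_eq_atTop]; exact Filter.hyperfilter_le_cofinite
  exact le_of_tendsto (hu2.mono_left hle2) hev2

end Pool.Agent.Helper405.Conv
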