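import Pool.Agent.Helper405.ConvC

set_option autoImplicit false
open Complex Set Filter Metric Topology MeasureTheory Measure

namespace Pool.Agent.Helper405.Conv
open Pool.Agent.Helper405.Riemann Pool.Agent.Helper405.Koebe

theorem Sc.zero_mem {f : ℂ → ℂ} (hf : Sc f) : (0 : ℂ) ∈ f '' ball 0 1 :=
  ⟨0, by simp, hf.2.2.2.1⟩

theorem Sc.half {f : ℂ → ℂ} (hf : Sc f) {u : ℂ} (hu : ‖u‖ = 1) {d : ℝ}
    (h : ∀ w ∈ f '' ball 0 1, (w * (starRingEnd ℂ) u).re < d) : 1 ≤ 2 * d := by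
  obtain ⟨h1, h2, h3, h4, h5⟩ := hf
  have hd : HasDerivAt f 1 0 := by
    rw [← h5]; exact (h1.differentiableAt (isOpen_ball.mem_nhds (by simp))).hasDerivAt
  have hq : HasDerivAt (fun z => (d : ℂ) - f z * (starRingEnd ℂ) u) (-(1 * (starRingEnd ℂ) u)) 0 :=
    (hd.mul_const _).const_sub _
  have h6 := schwarz_pick_half (q := fun z => (d : ℂ) - f z * (starRingEnd ℂ) u) (z := 0)
    ((h1.mul_const _).const_sub _)
    (by
      intro z hz
      have := h (f z) ⟨z, hz, rfl⟩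
      rw [Complex.sub_re, Complex.ofReal_re]
      linarith) (by simp)
  rw [hq.deriv, norm_neg, one_mul, RCLike.norm_conj, hu, h4] at h6
  simpa using h6

theorem Sc.sector {f : ℂ → ℂ} (hf : Sc f) {p : ℂ} (hp : p ≠ 0) {α : ℝ} (hα : 0 < α)
    (hα2 : α ≤ Real.pi / 2)
    (h : ∀ w ∈ f '' ball 0 1, 1 - w / p ≠ 0 ∧ |(1 - w / p).arg| < α) :
    Real.pi / (4 * α) ≤ ‖p‖ := by
  obtain ⟨h1, h2, h3, h4, h5⟩ := hf
  have hpi := Real.pi_pos
  have hd : HasDerivAt f 1 0 := by
    rw [← h5]; exact (h1.differentiableAt (isOpen_ball.mem_nhds (by simp))).hasDerivAt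
  set β : ℝ := Real.pi / (2 * α) with hβ
  have hβ0 : 0 < β := by positivity
  set q : ℂ → ℂ := fun z => (1 - f z / p) ^ (β : ℂ) with hq
  have hslit : ∀ z ∈ ball (0 : ℂ) 1, 1 - f z / p ∈ slitPlane := by
    intro z hz
    have := h (f z) ⟨z, hz, rfl⟩
    rw [Complex.mem_slitPlane_iff_arg]
    refine ⟨?_, this.1⟩
    intro hh
    rw [hh, abs_of_pos hpi] at this
    linarith [this.2]
  have hqd : DifferentiableOn ℂ q (ball 0 1) := by
    intro z hz
    have hgx : DifferentiableAt ℂ f z := h1.differentiableAt (isOpen_ball.mem_nhds hz)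
    exact ((hgx.div_const p).const_sub 1 |>.cpow_const (hslit z hz)).differentiableWithinAt
  have hqre : ∀ z ∈ ball (0 : ℂ) 1, 0 < (q z).re := by
    intro z hz
    have h6 := h (f z) ⟨z, hz, rfl⟩
    simp only [hq]
    rw [Complex.cpow_def_of_ne_zero h6.1, Complex.exp_re]
    apply mul_pos (Real.exp_pos _)
    apply Real.cos_pos_of_mem_Ioo
    rw [Complex.im_mul_ofReal, Complex.log_im]
    have h7 := abs_lt.1 h6.2
    have h8 : α * β = Real.pi / 2 := by rw [hβ]; field_simp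
    constructor
    · nlinarith
    · nlinarith
  have h9 : HasDerivAt (fun z => 1 - f z / p) (-(1 / p)) 0 := (hd.div_const p).const_sub 1
  have h10 : HasDerivAt q ((β : ℂ) * (1 - f 0 / p) ^ ((β : ℂ) - 1) * (-(1 / p))) 0 :=
    h9.cpow_const (hslit 0 (by simp))
  have h11 := schwarz_pick_half hqd hqre (z := 0) (by simp)
  rw [h10.deriv] at h11
  simp only [hq, h4, zero_div, sub_zero, Complex.one_cpow, mul_one, norm_mul, norm_neg, norm_div,
    norm_one, Complex.norm_real, Real.norm_of_nonneg hβ0.le, norm_zero, one_re] at h11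
  have hpn : 0 < ‖p‖ := norm_pos_iff.2 hp
  norm_num at h11
  rw [← div_eq_mul_inv, div_le_iff₀ hpn] at h11
  have h12 : Real.pi / (4 * α) = β / 2 := by rw [hβ]; field_simp; ring
  rw [h12]; linarith

theorem cap {φ β x : ℝ} (hφ1 : -Real.pi ≤ φ) (hφ2 : φ ≤ Real.pi) (hβ0 : 0 ≤ β) (hβ : β ≤ Real.pi / 2)
    (hx : 0 < x) (h : x ≤ Real.cos (φ - β)) : |φ - β| ≤ Real.arccos x := by
  have hpi := Real.pi_pos
  by_cases h1 : -Real.pi ≤ φ - β
  · have h2 : |φ - β| ≤ Real.pi := abs_le.2 ⟨h1, by linarith⟩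
    have h3 : Real.arccos (Real.cos |φ - β|) = |φ - β| := Real.arccos_cos (abs_nonneg _) h2
    rw [← h3, Real.cos_abs]
    exact Real.arccos_le_arccos h
  · exfalso
    push Not at h1
    have h2 : Real.cos (φ - β) = Real.cos (φ - β + 2 * Real.pi) := (Real.cos_add_two_pi _).symm
    have h3 : Real.cos (φ - β + 2 * Real.pi) ≤ 0 :=
      Real.cos_nonpos_of_pi_div_two_le_of_le (by linarith) (by linarith)
    linarith

/-- points with both support inequalities are in the sector -/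
theorem arg_lt {Z : ℂ} {β : ℝ} (hβ0 : 0 ≤ β) (hβ : β < Real.pi / 2)
    (h1 : 0 < (Z * exp (-(β * I))).re) (h2 : 0 < (Z * exp (β * I)).re) :
    Z ≠ 0 ∧ |Z.arg| < Real.pi / 2 - β := by
  have hpi := Real.pi_pos
  have hZ : Z ≠ 0 := by
    rintro rfl
    simp at h1
  have hn : 0 < ‖Z‖ := norm_pos_iff.2 hZ
  refine ⟨hZ, ?_⟩
  have e1 : ∀ γ : ℝ, (Z * exp (γ * I)).re = ‖Z‖ * Real.cos (Z.arg + γ) := by
    intro γ
    conv_lhs => rw [← Complex.norm_mul_exp_arg_mul_I Z]
    rw [mul_assoc, ← Complex.exp_add, ← add_mul, ← Complex.ofReal_add, Complex.re_ofReal_mul,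
      Complex.exp_ofReal_mul_I_re]
  have e2 : exp (-(β * I)) = exp (((-β : ℝ) : ℂ) * I) := by
    congr 1; push_cast; ring
  rw [e2, e1] at h1
  rw [e1] at h2
  have c1 : 0 < Real.cos (Z.arg + -β) := by
    by_contra hc; push Not at hc; nlinarith
  have c2 : 0 < Real.cos (Z.arg + β) := by
    by_contra hc; push Not at hc; nlinarith
  have a1 := Complex.neg_pi_lt_arg Z
  have a2 := Complex.arg_le_pi Z
  rw [abs_lt]
  constructor
  · by_contra hc
    push Not at hc
    have : Real.cos (Z.arg + -β) ≤ 0 := by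
      rw [← Real.cos_neg]
      exact Real.cos_nonpos_of_pi_div_two_le_of_le (by linarith) (by linarith)
    linarith
  · by_contra hc
    push Not at hc
    have : Real.cos (Z.arg + β) ≤ 0 :=
      Real.cos_nonpos_of_pi_div_two_le_of_le (by linarith) (by linarith)
    linarith

end Pool.Agent.Helper405.Conv
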