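import Pool.Agent.Helper405.ConvD

set_option autoImplicit false
open Complex Set Filter Metric Topology MeasureTheory Measure

namespace Pool.Agent.Helper405.Conv
open Pool.Agent.Helper405.Riemann Pool.Agent.Helper405.Koebe

/-- type (i): a half-plane -/
def IsHalfPlane (Ω : Set ℂ) : Prop :=
  ∃ (u : ℂ) (d : ℝ), ‖u‖ = 1 ∧ Ω = {w | (w * (starRingEnd ℂ) u).re < d}

/-- type (ii): a sector (vertex `p`, axis direction `exp (i θ₀)`, half opening angle `α`) whose
bisecting line passes through the origin -/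
def IsSymSector (Ω : Set ℂ) : Prop :=
  ∃ (p : ℂ) (θ₀ α : ℝ), 0 < α ∧ α ≤ Real.pi / 2 ∧ (∃ t : ℝ, p + t * exp (θ₀ * I) = 0) ∧
    Ω = {w | ∃ ρ θ : ℝ, 0 < ρ ∧ |θ - θ₀| < α ∧ w = p + ρ * exp (θ * I)}

/-- type (iii): an open convex set whose boundary contains an arc of the circle `|w| = r` and
consists of this arc and of parts of the two tangent lines at its endpoints -/
def IsArcTangent (r : ℝ) (Ω : Set ℂ) : Prop :=
  IsOpen Ω ∧ Convex ℝ Ω ∧ ∃ θ₀ lam : ℝ, 0 < lam ∧ lam ≤ Real.pi ∧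
    {w | ∃ φ : ℝ, |φ - θ₀| ≤ lam ∧ w = r * exp (φ * I)} ⊆ frontier Ω ∧
    frontier Ω ⊆ {w | ∃ φ : ℝ, |φ - θ₀| ≤ lam ∧ w = r * exp (φ * I)} ∪
      {w | (w * exp (-((θ₀ + lam : ℝ) * I))).re = r} ∪ {w | (w * exp (-((θ₀ - lam : ℝ) * I))).re = r}

/-- rotation estimate -/
theorem meas_le_of_rot {S : Set ℂ} {c : ℂ} (hc : ‖c‖ = 1) {r : ℝ} (hr : 0 ≤ r)
    {a b a' b' : ℝ} (h : ∀ w ∈ S, w * c ∈ E r '' Icc a b ∪ E r '' Icc a' b') :
    μH[1] S ≤ ENNReal.ofReal (r * (b - a)) + ENNReal.ofReal (r * (b' - a')) := by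
  have hiso : Isometry (fun w : ℂ => w * c) := by
    apply Isometry.of_dist_eq
    intro x y
    rw [dist_eq_norm, dist_eq_norm, ← sub_mul, norm_mul, hc, mul_one]
  rw [← hiso.hausdorffMeasure_image (Or.inl zero_le_one) S]
  calc μH[1] ((fun w : ℂ => w * c) '' S) ≤ μH[1] (E r '' Icc a b ∪ E r '' Icc a' b') := by
        apply measure_mono
        rintro _ ⟨w, hw, rfl⟩
        exact h w hw
    _ ≤ _ := (measure_union_le _ _).trans (add_le_add (arc_le hr) (arc_le hr))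

theorem meas_le_of_rot1 {S : Set ℂ} {c : ℂ} (hc : ‖c‖ = 1) {r : ℝ} (hr : 0 ≤ r)
    {a b : ℝ} (h : ∀ w ∈ S, w * c ∈ E r '' Icc a b) :
    μH[1] S ≤ ENNReal.ofReal (r * (b - a)) := by
  have := meas_le_of_rot (a' := 0) (b' := 0) hc hr (fun w hw => Or.inl (h w hw))
  simpa using this

/-- polar form of a point of the circle -/
theorem polar_mem {r : ℝ} {w c : ℂ} (hc : ‖c‖ = 1) (hw : ‖w‖ = r) :
    w * c = E r (w * c).arg := by
  have h1 : ‖w * c‖ = r := by rw [norm_mul, hc, mul_one, hw]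
  rw [E, ← h1]
  exact (Complex.norm_mul_exp_arg_mul_I (w * c)).symm

theorem E_re (r φ β : ℝ) : (E r φ * exp (-(β * I))).re = r * Real.cos (φ - β) := by
  rw [E, mul_assoc, ← Complex.exp_add, Complex.re_ofReal_mul]
  have : (φ : ℂ) * I + -(β * I) = ((φ - β : ℝ) : ℂ) * I := by push_cast; ring
  rw [this, Complex.exp_ofReal_mul_I_re]

theorem E_re' (r φ β : ℝ) : (E r φ * exp (β * I)).re = r * Real.cos (φ + β) := by
  have := E_re r φ (-β)
  rw [sub_neg_eq_add] at this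
  rw [← this]
  congr 3
  push_cast; ring

/-- (i) -/
theorem bound_half {f : ℂ → ℂ} (hf : Sc f) (h : IsHalfPlane (f '' ball 0 1)) :
    L f (3 / 4) ≤ ENNReal.ofReal (Real.pi / 2) := by
  obtain ⟨u, d, hu, hΩ⟩ := h
  have hd := hf.half hu (d := d) (by rw [hΩ]; intro w hw; exact hw)
  have hpi := Real.pi_pos
  have hcu : ‖(starRingEnd ℂ) u‖ = 1 := by rw [RCLike.norm_conj, hu]
  have key : L f (3 / 4) ≤ ENNReal.ofReal ((3 / 4) * (Real.pi / 3 - (-(Real.pi / 3)))) := by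
    apply meas_le_of_rot1 hcu (by norm_num)
    rintro w ⟨⟨_, hw2⟩, hw3⟩
    have hw3' : ‖w‖ = 3 / 4 := hw3
    have hp := polar_mem hcu hw3'
    set φ := (w * (starRingEnd ℂ) u).arg with hφ
    refine ⟨φ, ?_, hp.symm⟩
    rw [hΩ, mem_ofPred_eq, not_lt, hp] at hw2
    have e1 := E_re (3 / 4) φ 0
    rw [Complex.ofReal_zero, zero_mul, neg_zero, Complex.exp_zero, mul_one, sub_zero] at e1
    rw [e1] at hw2
    have h3 : 1 / 2 ≤ Real.cos (φ - 0) := by rw [sub_zero]; linarith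
    have h4 := cap (Complex.neg_pi_lt_arg _).le (Complex.arg_le_pi _) le_rfl (by positivity)
      (by norm_num : (0 : ℝ) < 1 / 2) h3
    have h5 : Real.arccos (1 / 2) = Real.pi / 3 := by
      rw [← Real.cos_pi_div_three]
      exact Real.arccos_cos (by positivity) (by linarith)
    rw [h5, sub_zero, abs_le] at h4
    exact h4
  refine key.trans (le_of_eq ?_)
  congr 1; ring

/-- trigonometric facts -/
theorem sin_ge {x : ℝ} (h0 : 0 ≤ x) (h1 : x ≤ Real.pi / 6) : 3 * x ≤ Real.pi * Real.sin x := by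
  have hpi := Real.pi_pos
  have hconc := strictConcaveOn_sin_Icc.concaveOn
  have hs : 0 ≤ 1 - x / (Real.pi / 6) := by rw [sub_nonneg, div_le_one (by positivity)]; exact h1
  have ht : 0 ≤ x / (Real.pi / 6) := by positivity
  have h2 := hconc.2 (⟨le_rfl, hpi.le⟩ : (0 : ℝ) ∈ Icc 0 Real.pi)
    (⟨by positivity, by linarith⟩ : Real.pi / 6 ∈ Icc 0 Real.pi) hs ht (by ring)
  simp only [smul_eq_mul, mul_zero, Real.sin_zero, zero_add, Real.sin_pi_div_six] at h2
  have h3 : x / (Real.pi / 6) * (Real.pi / 6) = x := by field_simp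
  rw [h3] at h2
  have h4 : x / (Real.pi / 6) * (1 / 2) = 3 * x / Real.pi := by field_simp; ring
  rw [h4, div_le_iff₀ hpi] at h2
  linarith

theorem sin_ge_strict {x : ℝ} (h0 : 0 < x) (h1 : x < Real.pi / 6) : 3 * x < Real.pi * Real.sin x := by
  have hpi := Real.pi_pos
  have hs : 0 < 1 - x / (Real.pi / 6) := by rw [sub_pos, div_lt_one (by positivity)]; exact h1
  have ht : 0 < x / (Real.pi / 6) := by positivity
  have h2 := strictConcaveOn_sin_Icc.2 (⟨le_rfl, hpi.le⟩ : (0 : ℝ) ∈ Icc 0 Real.pi)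
    (⟨by positivity, by linarith⟩ : Real.pi / 6 ∈ Icc 0 Real.pi) (by positivity) hs ht (by ring)
  simp only [smul_eq_mul, mul_zero, Real.sin_zero, zero_add, Real.sin_pi_div_six] at h2
  have h3 : x / (Real.pi / 6) * (Real.pi / 6) = x := by field_simp
  rw [h3] at h2
  have h4 : x / (Real.pi / 6) * (1 / 2) = 3 * x / Real.pi := by field_simp; ring
  rw [h4, div_lt_iff₀ hpi] at h2
  linarith

theorem sin_ge_third {x : ℝ} (h0 : 0 ≤ x) (h1 : x ≤ Real.pi / 3) :
    3 * (√3 / 2) * x ≤ Real.pi * Real.sin x := by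
  have hpi := Real.pi_pos
  have hconc := strictConcaveOn_sin_Icc.concaveOn
  have hs : 0 ≤ 1 - x / (Real.pi / 3) := by rw [sub_nonneg, div_le_one (by positivity)]; exact h1
  have ht : 0 ≤ x / (Real.pi / 3) := by positivity
  have h2 := hconc.2 (⟨le_rfl, hpi.le⟩ : (0 : ℝ) ∈ Icc 0 Real.pi)
    (⟨by positivity, by linarith⟩ : Real.pi / 3 ∈ Icc 0 Real.pi) hs ht (by ring)
  simp only [smul_eq_mul, mul_zero, Real.sin_zero, zero_add, Real.sin_pi_div_three] at h2
  have h3 : x / (Real.pi / 3) * (Real.pi / 3) = x := by field_simp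
  rw [h3] at h2
  have h4 : x / (Real.pi / 3) * (√3 / 2) = 3 * (√3 / 2) * x / Real.pi := by field_simp
  rw [h4, div_le_iff₀ hpi] at h2
  linarith

/-- key inequality for wide sectors -/
theorem wide {α : ℝ} (h0 : Real.pi / 3 ≤ α) (h1 : α ≤ Real.pi / 2) :
    3 * α * Real.cos (α - Real.pi / 6) ≤ Real.pi * Real.sin α := by
  have hpi := Real.pi_pos
  set x := α - Real.pi / 3 with hx
  have hα : α = Real.pi / 3 + x := by rw [hx]; ring
  have hx0 : 0 ≤ x := by linarith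
  have hx1 : x ≤ Real.pi / 6 := by linarith
  clear_value x
  have h2 := sin_ge hx0 hx1
  have e1 : Real.cos (α - Real.pi / 6) = Real.sin (Real.pi / 3 - x) := by
    rw [← Real.cos_pi_div_two_sub]
    congr 1
    rw [hα]; ring
  have e2 : Real.sin (Real.pi / 3 + x) - Real.sin (Real.pi / 3 - x) = Real.sin x := by
    rw [Real.sin_add, Real.sin_sub, Real.cos_pi_div_three]
    ring
  have hs1 : Real.sin (Real.pi / 3 - x) ≤ 1 := Real.sin_le_one _
  have hs0 : 0 ≤ Real.sin (Real.pi / 3 - x) :=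
    Real.sin_nonneg_of_nonneg_of_le_pi (by linarith) (by linarith)
  rw [e1, hα]
  have e3 : 3 * (Real.pi / 3 + x) * Real.sin (Real.pi / 3 - x) =
      Real.pi * Real.sin (Real.pi / 3 - x) + 3 * x * Real.sin (Real.pi / 3 - x) := by ring
  have e4 : Real.pi * Real.sin (Real.pi / 3 + x) =
      Real.pi * Real.sin (Real.pi / 3 - x) + Real.pi * Real.sin x := by
    rw [← e2]; ring
  rw [e3, e4]
  nlinarith

end Pool.Agent.Helper405.Conv
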