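import Pool.Agent.Helper405.ConvE

set_option autoImplicit false
open Complex Set Filter Metric Topology MeasureTheory Measure

namespace Pool.Agent.Helper405.Conv
open Pool.Agent.Helper405.Riemann Pool.Agent.Helper405.Koebe

theorem arg_exp' {ρ θ : ℝ} (hρ : 0 < ρ) (h1 : -Real.pi < θ) (h2 : θ ≤ Real.pi) :
    ((ρ : ℂ) * exp (θ * I)).arg = θ := by
  rw [Complex.arg_real_mul _ hρ, Complex.exp_mul_I]
  exact Complex.arg_cos_add_sin_mul_I ⟨h1, h2⟩

/-- (ii) -/
theorem bound_sector {f : ℂ → ℂ} (hf : Sc f) (h : IsSymSector (f '' ball 0 1)) :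
    L f (3 / 4) ≤ ENNReal.ofReal (Real.pi / 2) := by
  obtain ⟨p, θ₀, α, hα, hα2, ⟨t, ht⟩, hΩ⟩ := h
  have hpi := Real.pi_pos
  have h0 := hf.zero_mem
  rw [hΩ] at h0
  obtain ⟨ρ₀, θ₁, hρ₀, hθ₁, h01⟩ := h0
  have hexp : exp (θ₀ * I) ≠ 0 := Complex.exp_ne_zero _
  have hp : p = -(t * exp (θ₀ * I)) := by linear_combination ht
  have ht1 : (t : ℂ) = ρ₀ * exp (((θ₁ - θ₀ : ℝ) : ℂ) * I) := by
    have h2 : (t : ℂ) * exp (θ₀ * I) = ρ₀ * exp (θ₁ * I) := by
      linear_combination ht - h01.symm
    have h3 : exp (((θ₁ - θ₀ : ℝ) : ℂ) * I) * exp (θ₀ * I) = exp (θ₁ * I) := by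
      rw [← Complex.exp_add]; congr 1; push_cast; ring
    apply mul_right_cancel₀ hexp
    rw [h2, mul_assoc, h3]
  have htpos : 0 < t := by
    have h2 := congrArg Complex.re ht1
    rw [Complex.ofReal_re, Complex.re_ofReal_mul, Complex.exp_ofReal_mul_I_re] at h2
    rw [h2]
    apply mul_pos hρ₀
    have := abs_lt.1 hθ₁
    apply Real.cos_pos_of_mem_Ioo
    constructor <;> linarith
  have htne : (t : ℂ) ≠ 0 := by exact_mod_cast htpos.ne'
  have hpne : p ≠ 0 := by
    rw [hp]; exact neg_ne_zero.2 (mul_ne_zero htne hexp)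
  have hpn : ‖p‖ = t := by
    rw [hp, norm_neg, norm_mul, Complex.norm_exp_ofReal_mul_I, mul_one, Complex.norm_real,
      Real.norm_of_nonneg htpos.le]
  set c : ℂ := -exp (-(θ₀ * I)) with hc
  have hcn : ‖c‖ = 1 := by
    rw [hc, norm_neg]
    have : -(θ₀ * I : ℂ) = ((-θ₀ : ℝ) : ℂ) * I := by push_cast; ring
    rw [this, Complex.norm_exp_ofReal_mul_I]
  have hee : exp (-(θ₀ * I)) * exp (θ₀ * I) = 1 := by
    rw [← Complex.exp_add]; simp
  have hpc : ∀ w : ℂ, w / p = w * c / t := by
    intro w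
    rw [div_eq_div_iff hpne htne, hp, hc]
    linear_combination (-w * t) * hee
  -- vertex estimate
  have hv : Real.pi / (4 * α) ≤ t := by
    rw [← hpn]
    apply hf.sector hpne hα hα2
    intro w hw
    rw [hΩ] at hw
    obtain ⟨ρ, θ, hρ, hθ, hw⟩ := hw
    have e1 : 1 - w / p = ((ρ / t : ℝ) : ℂ) * exp (((θ - θ₀ : ℝ) : ℂ) * I) := by
      rw [hpc, hw, hp, hc]
      have e2 : exp (((θ - θ₀ : ℝ) : ℂ) * I) = exp (θ * I) * exp (-(θ₀ * I)) := by
        rw [← Complex.exp_add]; congr 1; push_cast; ring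
      rw [e2]
      push_cast
      field_simp
      linear_combination (-(t : ℂ)) * hee
    have h3 := abs_lt.1 hθ
    have h4 : (1 - w / p).arg = θ - θ₀ := by
      rw [e1]
      exact arg_exp' (by positivity) (by linarith) (by linarith)
    refine ⟨?_, by rw [h4]; exact hθ⟩
    rw [e1]
    apply mul_ne_zero _ (Complex.exp_ne_zero _)
    exact_mod_cast (by positivity : ρ / t ≠ 0)
  set β : ℝ := Real.pi / 2 - α with hβ
  have hβ0 : 0 ≤ β := by linarith
  have hβ1 : β < Real.pi / 2 := by linarith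
  have hcosβ : Real.cos β = Real.sin α := by rw [hβ, Real.cos_pi_div_two_sub]
  have hsin : 0 < Real.sin α := Real.sin_pos_of_pos_of_lt_pi hα (by linarith)
  set x : ℝ := t * Real.sin α / (3 / 4) with hx
  have hx0 : 0 < x := by positivity
  set hh : ℝ := Real.arccos x with hhh
  have hx1 : Real.pi * Real.sin α / (3 * α) ≤ x := by
    rw [hx, div_le_div_iff₀ (by positivity) (by positivity)]
    rw [div_le_iff₀ (by positivity)] at hv
    nlinarith
  -- location of omitted points
  have key : ∀ w ∈ (ball (0 : ℂ) 1 \ f '' ball 0 1) ∩ {w : ℂ | ‖w‖ = 3 / 4},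
      ∃ φ : ℝ, w * c = E (3 / 4) φ ∧ (|φ - β| ≤ hh ∨ |φ + β| ≤ hh) := by
    rintro w ⟨⟨_, hw2⟩, hw3⟩
    have hw3' : ‖w‖ = 3 / 4 := hw3
    have hpol := polar_mem hcn hw3'
    set φ := (w * c).arg with hφ
    refine ⟨φ, hpol, ?_⟩
    by_contra hcon
    push Not at hcon
    apply hw2
    rw [hΩ]
    have hφ1 : -Real.pi ≤ φ := (Complex.neg_pi_lt_arg _).le
    have hφ2 : φ ≤ Real.pi := Complex.arg_le_pi _
    have c1 : Real.cos (φ - β) < x := by
      by_contra hc1
      push Not at hc1
      exact absurd (cap hφ1 hφ2 hβ0 hβ1.le hx0 hc1) (not_le.2 hcon.1)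
    have c2 : Real.cos (φ + β) < x := by
      by_contra hc1
      push Not at hc1
      have e3 : Real.cos (φ + β) = Real.cos (-φ - β) := by
        rw [← Real.cos_neg]; congr 1; ring
      rw [e3] at hc1
      have h5 := cap (by linarith) (by linarith) hβ0 hβ1.le hx0 hc1
      have e4 : |-φ - β| = |φ + β| := by rw [← abs_neg]; congr 1; ring
      rw [e4] at h5
      exact absurd h5 (not_le.2 hcon.2)
    have hZ := arg_lt (Z := 1 - w / p) hβ0 hβ1
      (by
        rw [hpc, hpol, sub_mul, one_mul, sub_re, div_mul_eq_mul_div, Complex.div_ofReal_re, E_re]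
        have e5 : (exp (-(β * I))).re = Real.cos β := by
          have : -(β * I : ℂ) = ((-β : ℝ) : ℂ) * I := by push_cast; ring
          rw [this, Complex.exp_ofReal_mul_I_re, Real.cos_neg]
        rw [e5, hcosβ, sub_pos, div_lt_iff₀ htpos]
        rw [hx, lt_div_iff₀ (by norm_num)] at c1
        linarith)
      (by
        rw [hpc, hpol, sub_mul, one_mul, sub_re, div_mul_eq_mul_div, Complex.div_ofReal_re, E_re']
        rw [Complex.exp_ofReal_mul_I_re, hcosβ, sub_pos, div_lt_iff₀ htpos]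
        rw [hx, lt_div_iff₀ (by norm_num)] at c2
        linarith)
    have e6 : Real.pi / 2 - β = α := by rw [hβ]; ring
    rw [e6] at hZ
    refine ⟨t * ‖1 - w / p‖, θ₀ + (1 - w / p).arg, mul_pos htpos (norm_pos_iff.2 hZ.1), ?_, ?_⟩
    · rw [add_sub_cancel_left]; exact hZ.2
    · have e7 := Complex.norm_mul_exp_arg_mul_I (1 - w / p)
      have e8 : exp (((θ₀ + (1 - w / p).arg : ℝ) : ℂ) * I) = exp (θ₀ * I) * exp ((1 - w / p).arg * I) := by
        rw [← Complex.exp_add]; congr 1; push_cast; ring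
      rw [e8]
      push_cast
      have e9 : p + (t : ℂ) * ‖1 - w / p‖ * (exp (θ₀ * I) * exp ((1 - w / p).arg * I))
          = p + t * exp (θ₀ * I) * (‖1 - w / p‖ * exp ((1 - w / p).arg * I)) := by ring
      rw [e9, e7]
      have e10 : (t : ℂ) * exp (θ₀ * I) = -p := by rw [hp]; ring
      rw [e10]
      field_simp
      ring
  rcases le_total α (Real.pi / 3) with hcase | hcase
  · have h6 : hh ≤ Real.pi / 6 := by
      have h7 := sin_ge_third hα.le hcase
      have h8 : √3 / 2 ≤ x := by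
        refine le_trans ?_ hx1
        rw [le_div_iff₀ (by positivity)]
        linarith
      have h9 : Real.arccos (√3 / 2) = Real.pi / 6 := by
        rw [← Real.cos_pi_div_six]
        exact Real.arccos_cos (by positivity) (by linarith)
      rw [← h9]
      exact Real.arccos_le_arccos h8
    have h10 := meas_le_of_rot (r := 3 / 4) hcn (by norm_num) (a := β - hh) (b := β + hh) (a' := -β - hh)
      (b' := -β + hh) (S := (ball (0 : ℂ) 1 \ f '' ball 0 1) ∩ {w : ℂ | ‖w‖ = 3 / 4}) (by
        intro w hw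
        obtain ⟨φ, h11, h12⟩ := key w hw
        rw [h11]
        rcases h12 with h12 | h12
        · left
          rw [abs_le] at h12
          exact ⟨φ, ⟨by linarith, by linarith⟩, rfl⟩
        · right
          rw [abs_le] at h12
          exact ⟨φ, ⟨by linarith, by linarith⟩, rfl⟩)
    refine le_trans h10 ?_
    have hh0 : 0 ≤ hh := Real.arccos_nonneg _
    rw [← ENNReal.ofReal_add (by nlinarith) (by nlinarith)]
    apply ENNReal.ofReal_le_ofReal
    linarith
  · have h6 : hh ≤ α - Real.pi / 6 := by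
      have h7 := wide hcase hα2
      have h8 : Real.cos (α - Real.pi / 6) ≤ x := by
        refine le_trans ?_ hx1
        rw [le_div_iff₀ (by positivity)]
        linarith
      have h9 : Real.arccos (Real.cos (α - Real.pi / 6)) = α - Real.pi / 6 :=
        Real.arccos_cos (by linarith) (by linarith)
      rw [← h9]
      exact Real.arccos_le_arccos h8
    have h10 := meas_le_of_rot1 (r := 3 / 4) hcn (by norm_num) (a := -(Real.pi / 3)) (b := Real.pi / 3)
      (S := (ball (0 : ℂ) 1 \ f '' ball 0 1) ∩ {w : ℂ | ‖w‖ = 3 / 4}) (by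
        intro w hw
        obtain ⟨φ, h11, h12⟩ := key w hw
        rw [h11]
        refine ⟨φ, ?_, rfl⟩
        rcases h12 with h12 | h12
        · rw [abs_le] at h12
          constructor <;> linarith
        · rw [abs_le] at h12
          constructor <;> linarith)
    refine le_trans h10 (le_of_eq ?_)
    congr 1; ring

end Pool.Agent.Helper405.Conv
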