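import Pool.Agent.Helper405.ConvF

set_option autoImplicit false
open Complex Set Filter Metric Topology MeasureTheory Measure

namespace Pool.Agent.Helper405.Conv
open Pool.Agent.Helper405.Riemann Pool.Agent.Helper405.Koebe

theorem inter_frontier {Ω S : Set ℂ} (hS : IsPreconnected S) (hΩ : IsOpen Ω)
    (h1 : (S ∩ Ω).Nonempty) (h2 : (S ∩ Ωᶜ).Nonempty) : (S ∩ frontier Ω).Nonempty := by
  by_contra hcon
  rw [not_nonempty_iff_eq_empty] at hcon
  have hsub : S ⊆ Ω ∪ (closure Ω)ᶜ := by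
    intro x hx
    by_cases h : x ∈ Ω
    · exact Or.inl h
    · right
      intro hc
      have : x ∈ S ∩ frontier Ω := ⟨hx, by rw [hΩ.frontier_eq]; exact ⟨hc, h⟩⟩
      rw [hcon] at this
      exact this
  have h3 : (S ∩ (closure Ω)ᶜ).Nonempty := by
    obtain ⟨x, hx, hxΩ⟩ := h2
    rcases hsub hx with h | h
    · exact absurd h hxΩ
    · exact ⟨x, hx, h⟩
  obtain ⟨x, _, hx1, hx2⟩ := hS Ω (closure Ω)ᶜ hΩ isClosed_closure.isOpen_compl hsub h1 h3
  exact hx2 (subset_closure hx1)

/-- supporting line at an interior point of a boundary arc -/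
theorem support {Ω : Set ℂ} (hΩo : IsOpen Ω) (hΩc : Convex ℝ Ω) (h0 : (0 : ℂ) ∈ Ω) {r : ℝ} (hr : 0 < r)
    {θ₀ lam : ℝ} (harc : {w | ∃ φ : ℝ, |φ - θ₀| ≤ lam ∧ w = r * exp (φ * I)} ⊆ frontier Ω)
    {φ : ℝ} (hφ : |φ - θ₀| < lam) {w : ℂ} (hw : w ∈ Ω) : (w * exp (-(φ * I))).re < r := by
  by_contra hcon
  push Not at hcon
  have hr' : (r : ℂ) ≠ 0 := by exact_mod_cast hr.ne'
  set e : ℂ := exp (φ * I) with he
  have hene : e ≠ 0 := Complex.exp_ne_zero _
  have hee : exp (-(φ * I)) * e = 1 := by rw [he, ← Complex.exp_add]; simp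
  set p : ℂ := r * e with hp
  have hpne : p ≠ 0 := mul_ne_zero hr' hene
  have hpfr : p ∈ frontier Ω := harc ⟨φ, hφ.le, rfl⟩
  have hpn : p ∉ Ω := by
    intro h
    rw [hΩo.frontier_eq] at hpfr
    exact hpfr.2 h
  -- a point strictly beyond the tangent line
  obtain ⟨ε, hε, hball⟩ := Metric.isOpen_iff.1 hΩo w hw
  set w' : ℂ := w + ((ε / 2 : ℝ) : ℂ) * e with hw'
  have hen : ‖e‖ = 1 := by rw [he, Complex.norm_exp_ofReal_mul_I]
  have hw'Ω : w' ∈ Ω := by
    apply hball
    rw [mem_ball, dist_eq_norm, hw', add_sub_cancel_left, norm_mul, hen, mul_one, Complex.norm_real,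
      Real.norm_of_nonneg (by positivity)]
    linarith
  have hw're : r < (w' * exp (-(φ * I))).re := by
    have e1 : w' * exp (-(φ * I)) = w * exp (-(φ * I)) + ((ε / 2 : ℝ) : ℂ) := by
      rw [hw']; linear_combination ((ε / 2 : ℝ) : ℂ) * hee
    rw [e1, add_re, Complex.ofReal_re]
    linarith
  -- direction
  set k : ℂ := 1 - w' / p with hk
  have hkre : k.re < 0 := by
    have e1 : w' / p = w' * exp (-(φ * I)) / r := by
      rw [div_eq_div_iff hpne hr', hp]
      linear_combination (-w' * r) * hee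
    rw [hk, sub_re, one_re, e1, Complex.div_ofReal_re]
    have : 1 < (w' * exp (-(φ * I))).re / r := by rw [lt_div_iff₀ hr]; linarith
    linarith
  -- choose small step
  have hcont : ContinuousAt (fun s : ℝ => (1 + (s : ℂ) * k).arg) 0 := by
    have h1 : ContinuousAt Complex.arg ((fun s : ℝ => 1 + (s : ℂ) * k) 0) := by
      apply Complex.continuousAt_arg
      simp [Complex.slitPlane]
    have h2 : ContinuousAt (fun s : ℝ => 1 + (s : ℂ) * k) 0 := by fun_prop
    exact ContinuousAt.comp (g := Complex.arg) h1 h2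
  have hlim : ∀ᶠ s : ℝ in 𝓝 0, |(1 + (s : ℂ) * k).arg| < lam - |φ - θ₀| := by
    have h3 : Tendsto (fun s : ℝ => |(1 + (s : ℂ) * k).arg|) (𝓝 0) (𝓝 0) := by
      have h4 := hcont.tendsto.abs
      simpa using h4
    exact h3.eventually_lt_const (by linarith)
  have hlim2 : ∀ᶠ s : ℝ in 𝓝[>] 0, s * ‖k‖ ^ 2 < -2 * k.re := by
    have h3 : Tendsto (fun s : ℝ => s * ‖k‖ ^ 2) (𝓝 0) (𝓝 (0 * ‖k‖ ^ 2)) :=
      tendsto_id.mul_const _
    rw [zero_mul] at h3
    exact (h3.eventually_lt_const (by linarith)).filter_mono nhdsWithin_le_nhds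
  obtain ⟨s, ⟨hs1, hs2⟩, hs0⟩ := (((hlim.filter_mono nhdsWithin_le_nhds).and hlim2).and
    (self_mem_nhdsWithin : ∀ᶠ s : ℝ in 𝓝[>] 0, s ∈ Ioi (0 : ℝ))).exists
  have hs0' : 0 < s := hs0
  set γ : ℂ := 1 + (s : ℂ) * k with hγ
  have hγn : ‖γ‖ < 1 := by
    have h5 : ‖γ‖ ^ 2 = 1 + s * (2 * k.re + s * ‖k‖ ^ 2) := by
      rw [← Complex.normSq_eq_norm_sq, ← Complex.normSq_eq_norm_sq, Complex.normSq_apply,
        Complex.normSq_apply, hγ]
      simp
      ring
    have h6 : ‖γ‖ ^ 2 < 1 := by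
      rw [h5]
      have : 2 * k.re + s * ‖k‖ ^ 2 < 0 := by linarith
      nlinarith
    nlinarith [norm_nonneg γ]
  -- x in Ω
  have hxΩ : p * γ ∈ Ω := by
    have h7 : (r : ℂ) * exp (((φ + γ.arg : ℝ) : ℂ) * I) ∈ closure Ω := by
      apply frontier_subset_closure
      apply harc
      refine ⟨φ + γ.arg, ?_, rfl⟩
      have := abs_add_le (φ - θ₀) γ.arg
      have e2 : φ + γ.arg - θ₀ = (φ - θ₀) + γ.arg := by ring
      rw [e2]
      linarith
    have h8 : (0 : ℂ) ∈ interior Ω := by rw [hΩo.interior_eq]; exact h0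
    have h9 := hΩc.combo_interior_closure_mem_interior h8 h7 (a := 1 - ‖γ‖) (b := ‖γ‖)
      (by linarith) (norm_nonneg _) (by ring)
    rw [hΩo.interior_eq, smul_zero, zero_add, Complex.real_smul] at h9
    have h10 : (‖γ‖ : ℂ) * (r * exp (((φ + γ.arg : ℝ) : ℂ) * I)) = p * γ := by
      have e3 : exp (((φ + γ.arg : ℝ) : ℂ) * I) = e * exp (γ.arg * I) := by
        rw [he, ← Complex.exp_add]; congr 1; push_cast; ring
      rw [e3, hp]
      have e4 := Complex.norm_mul_exp_arg_mul_I γ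
      conv_rhs => rw [← e4]
      ring
    rw [h10] at h9
    exact h9
  -- p is between
  apply hpn
  have h11 := hΩc hxΩ hw'Ω (a := 1 / (1 + s)) (b := s / (1 + s)) (by positivity) (by positivity)
    (by field_simp)
  rw [Complex.real_smul, Complex.real_smul] at h11
  have h12 : ((1 / (1 + s) : ℝ) : ℂ) * (p * γ) + ((s / (1 + s) : ℝ) : ℂ) * w' = p := by
    have hs1' : (1 : ℂ) + s ≠ 0 := by
      have : (1 + s : ℝ) ≠ 0 := by positivity
      exact_mod_cast this
    rw [hγ, hk]
    push_cast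
    field_simp
    ring
  rw [h12] at h11
  exact h11

/-- (iii) -/
theorem bound_arc {f : ℂ → ℂ} (hf : Sc f) (h : IsArcTangent (3 / 4) (f '' ball 0 1)) :
    L f (3 / 4) ≤ ENNReal.ofReal (Real.pi / 2) := by
  obtain ⟨hΩo, hΩc, θ₀, lam, hl0, hlpi, harc, hfr⟩ := h
  have hpi := Real.pi_pos
  set Ω := f '' ball 0 1 with hΩ
  have h0 : (0 : ℂ) ∈ Ω := hf.zero_mem
  have h34 : ((3 / 4 : ℝ) : ℂ) = 3 / 4 := by push_cast; rfl
  -- opening is at most pi / 3
  have hlam : lam ≤ Real.pi / 3 := by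
    by_contra hcon
    push Not at hcon
    set lam' : ℝ := (Real.pi / 3 + min lam (Real.pi / 2)) / 2 with hlam'
    have hm1 : Real.pi / 3 < min lam (Real.pi / 2) := lt_min hcon (by linarith)
    have hm2 := min_le_left lam (Real.pi / 2)
    have hm3 := min_le_right lam (Real.pi / 2)
    have a1 : Real.pi / 3 < lam' := by linarith
    have a2 : lam' < lam := by linarith
    have a3 : lam' < Real.pi / 2 := by linarith
    have s1 : ∀ w ∈ Ω, (w * exp (-(((θ₀ + lam' : ℝ) : ℂ) * I))).re < 3 / 4 := by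
      intro w hw
      exact support hΩo hΩc h0 (by norm_num) harc (φ := θ₀ + lam')
        (by rw [add_sub_cancel_left, abs_of_pos (by linarith)]; exact a2) hw
    have s2 : ∀ w ∈ Ω, (w * exp (-(((θ₀ - lam' : ℝ) : ℂ) * I))).re < 3 / 4 := by
      intro w hw
      exact support hΩo hΩc h0 (by norm_num) harc (φ := θ₀ - lam')
        (by rw [sub_sub_cancel_left, abs_neg, abs_of_pos (by linarith)]; exact a2) hw
    have hcos : 0 < Real.cos lam' := Real.cos_pos_of_mem_Ioo ⟨by linarith, by linarith⟩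
    set v : ℝ := (3 / 4) / Real.cos lam' with hv
    have hv0 : 0 < v := by positivity
    have hvne : (v : ℂ) ≠ 0 := by exact_mod_cast hv0.ne'
    set p : ℂ := v * exp (θ₀ * I) with hp
    have hpne : p ≠ 0 := mul_ne_zero hvne (Complex.exp_ne_zero _)
    have hpn : ‖p‖ = v := by
      rw [hp, norm_mul, Complex.norm_exp_ofReal_mul_I, mul_one, Complex.norm_real,
        Real.norm_of_nonneg hv0.le]
    have hee : exp (-(θ₀ * I)) * exp (θ₀ * I) = 1 := by
      rw [← Complex.exp_add]; simp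
    have hpc : ∀ w : ℂ, w / p = w * exp (-(θ₀ * I)) / v := by
      intro w
      rw [div_eq_div_iff hpne hvne, hp]
      linear_combination (-w * v) * hee
    have hvc : v * Real.cos lam' = 3 / 4 := by rw [hv]; field_simp
    have hs := hf.sector hpne (α := Real.pi / 2 - lam') (by linarith) (by linarith) (by
      intro w hw
      apply arg_lt (by linarith) a3
      · have e1 : (exp (-(lam' * I))).re = Real.cos lam' := by
          have : -(lam' * I : ℂ) = ((-lam' : ℝ) : ℂ) * I := by push_cast; ring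
          rw [this, Complex.exp_ofReal_mul_I_re, Real.cos_neg]
        rw [sub_mul, one_mul, sub_re, hpc, div_mul_eq_mul_div, Complex.div_ofReal_re, e1, sub_pos,
          div_lt_iff₀ hv0]
        have e2 : w * exp (-(θ₀ * I)) * exp (-(lam' * I)) = w * exp (-(((θ₀ + lam' : ℝ) : ℂ) * I)) := by
          rw [mul_assoc, ← Complex.exp_add]; congr 2; push_cast; ring
        rw [e2]
        have := s1 w hw
        linarith
      · rw [sub_mul, one_mul, sub_re, hpc, div_mul_eq_mul_div, Complex.div_ofReal_re,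
          Complex.exp_ofReal_mul_I_re, sub_pos, div_lt_iff₀ hv0]
        have e2 : w * exp (-(θ₀ * I)) * exp (lam' * I) = w * exp (-(((θ₀ - lam' : ℝ) : ℂ) * I)) := by
          rw [mul_assoc, ← Complex.exp_add]; congr 2; push_cast; ring
        rw [e2]
        have := s2 w hw
        linarith)
    rw [hpn] at hs
    have hss := sin_ge_strict (x := Real.pi / 2 - lam') (by linarith) (by linarith)
    rw [Real.sin_pi_div_two_sub] at hss
    rw [hv, div_le_div_iff₀ (by linarith) hcos] at hs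
    linarith
  -- omitted set is in the arc
  have key : ∀ w ∈ (ball (0 : ℂ) 1 \ Ω) ∩ {w : ℂ | ‖w‖ = 3 / 4},
      w * 1 ∈ E (3 / 4) '' Icc (θ₀ - lam) (θ₀ + lam) := by
    rintro w ⟨⟨_, hw2⟩, hw3⟩
    have hw3' : ‖w‖ = 3 / 4 := hw3
    rw [mul_one]
    by_contra hna
    apply hw2
    -- the segment from 0 to w avoids the frontier
    by_contra hwΩ
    have hpre : IsPreconnected (segment ℝ 0 w) := (convex_segment (0 : ℂ) w).isPreconnected
    obtain ⟨y, hy1, hy2⟩ := inter_frontier hpre hΩo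
      ⟨0, left_mem_segment ℝ 0 w, h0⟩ ⟨w, right_mem_segment ℝ 0 w, hwΩ⟩
    obtain ⟨a, b, ha, hb, hab, hyw⟩ := hy1
    rw [smul_zero, zero_add, Complex.real_smul] at hyw
    have hb1 : b ≤ 1 := by linarith
    -- strict inequality
    have hstrict : ∀ φ' : ℝ, |φ' - θ₀| ≤ lam → (w * exp (-(φ' * I))).re < 3 / 4 := by
      intro φ' hφ'
      by_contra hge
      push Not at hge
      have hn1 : ‖w * exp (-(φ' * I))‖ = 3 / 4 := by
        have : -(φ' * I : ℂ) = ((-φ' : ℝ) : ℂ) * I := by push_cast; ring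
        rw [norm_mul, this, Complex.norm_exp_ofReal_mul_I, mul_one, hw3']
      have h1 : (w * exp (-(φ' * I))).re = 3 / 4 := le_antisymm (by rw [← hn1]; exact Complex.re_le_norm _) hge
      have h2 : (w * exp (-(φ' * I))).im = 0 := by
        have h3 := Complex.normSq_apply (w * exp (-(φ' * I)))
        rw [Complex.normSq_eq_norm_sq, hn1, h1] at h3
        have : (w * exp (-(φ' * I))).im * (w * exp (-(φ' * I))).im = 0 := by linarith
        exact mul_self_eq_zero.1 this
      have h4 : w * exp (-(φ' * I)) = ((3 / 4 : ℝ) : ℂ) := by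
        apply Complex.ext
        · rw [h1, Complex.ofReal_re]
        · rw [h2, Complex.ofReal_im]
      apply hna
      rw [abs_le] at hφ'
      refine ⟨φ', ⟨by linarith, by linarith⟩, ?_⟩
      rw [E, ← h4, mul_assoc, ← Complex.exp_add]
      simp
    have hstrict' : ∀ φ' : ℝ, |φ' - θ₀| ≤ lam → (y * exp (-(φ' * I))).re < 3 / 4 := by
      intro φ' hφ'
      rw [← hyw, mul_assoc, Complex.re_ofReal_mul]
      have h5 := hstrict φ' hφ'
      rcases le_or_gt (w * exp (-(φ' * I))).re 0 with h6 | h6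
      · nlinarith
      · nlinarith
    rcases hfr hy2 with (⟨φ', hφ', hy3⟩ | hy3) | hy3
    · have h7 := hstrict' φ' hφ'
      rw [hy3, mul_assoc, ← Complex.exp_add] at h7
      simp at h7
    · have h7 := hstrict' (θ₀ + lam) (by rw [add_sub_cancel_left, abs_of_pos hl0])
      rw [mem_ofPred_eq] at hy3
      linarith
    · have h7 := hstrict' (θ₀ - lam) (by rw [sub_sub_cancel_left, abs_neg, abs_of_pos hl0])
      rw [mem_ofPred_eq] at hy3
      linarith
  have h8 := meas_le_of_rot1 (r := 3 / 4) (c := 1) (by simp) (by norm_num) key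
  refine h8.trans (ENNReal.ofReal_le_ofReal ?_)
  nlinarith

end Pool.Agent.Helper405.Conv
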