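import Pool.Agent.Helper405.ConvG

set_option autoImplicit false
open Complex Set Filter Metric Topology MeasureTheory Measure

namespace Pool.Agent.Helper405.Conv
open Pool.Agent.Helper405.Riemann Pool.Agent.Helper405.Koebe

theorem E_cont (r : ℝ) : Continuous (E r) := by
  unfold E; fun_prop

theorem E_inj {r : ℝ} (hr : 0 < r) (a : ℝ) : InjOn (E r) (Ico a (a + 2 * Real.pi)) := by
  intro x hx y hy h
  have hpi := Real.pi_pos
  have hr' : (r : ℂ) ≠ 0 := by exact_mod_cast hr.ne'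
  have h1 : exp (x * I) = exp (y * I) := mul_left_cancel₀ hr' h
  rw [Complex.exp_eq_exp_iff_exists_int] at h1
  obtain ⟨n, hn⟩ := h1
  have h2 := congrArg Complex.im hn
  simp at h2
  have h3 : x - y = n * (2 * Real.pi) := by linarith
  have hn0 : n = 0 := by
    have a1 : (n : ℝ) * (2 * Real.pi) < 1 * (2 * Real.pi) := by rw [← h3]; linarith [hx.2, hy.1]
    have a2 : (-1 : ℝ) * (2 * Real.pi) < n * (2 * Real.pi) := by rw [← h3]; linarith [hy.2, hx.1]
    have a3 : (n : ℝ) < 1 := lt_of_mul_lt_mul_right a1 (by positivity)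
    have a4 : (-1 : ℝ) < n := lt_of_mul_lt_mul_right a2 (by positivity)
    have a5 : n < 1 := by exact_mod_cast a3
    have a6 : -1 < n := by exact_mod_cast a4
    omega
  rw [hn0] at h3
  simp at h3
  linarith

theorem E_dist {r : ℝ} (hr : 0 < r) (b δ : ℝ) : dist (E r (b + δ)) (E r b) = 2 * r * |Real.sin (δ / 2)| := by
  have h1 : E r (b + δ) - E r b = r * exp (b * I) * (exp (I * δ) - 1) := by
    rw [E, E, mul_sub, mul_one, mul_assoc, ← Complex.exp_add]
    congr 3
    push_cast; ring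
  rw [dist_eq_norm, h1, norm_mul, norm_mul, Complex.norm_exp_ofReal_mul_I, mul_one,
    Complex.norm_real, Real.norm_of_nonneg hr.le, Complex.norm_exp_I_mul_ofReal_sub_one,
    norm_mul, Real.norm_eq_abs, Real.norm_eq_abs]
  norm_num
  ring

theorem piece {r : ℝ} (hr : 0 < r) (b : ℝ) {δ : ℝ} (hδ0 : 0 ≤ δ) (hδ : δ ≤ Real.pi) :
    ENNReal.ofReal (2 * r * Real.sin (δ / 2)) ≤ μH[1] (E r '' Ico b (b + δ)) := by
  have hlip : LipschitzWith 1 (fun w : ℂ => dist w (E r b)) := LipschitzWith.dist_left _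
  have h1 := hlip.hausdorffMeasure_image_le (d := 1) zero_le_one (E r '' Ico b (b + δ))
  rw [hausdorffMeasure_real] at h1
  have h2 : Ico 0 (2 * r * Real.sin (δ / 2)) ⊆ (fun w : ℂ => dist w (E r b)) '' (E r '' Ico b (b + δ)) := by
    have hcont : ContinuousOn (fun φ : ℝ => dist (E r φ) (E r b)) (Icc b (b + δ)) :=
      ((E_cont r).dist continuous_const).continuousOn
    have h3 := intermediate_value_Ico (by linarith : b ≤ b + δ) hcont
    simp only [dist_self] at h3
    rw [E_dist hr, abs_of_nonneg (Real.sin_nonneg_of_nonneg_of_le_pi (by linarith) (by linarith))] at h3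
    rw [image_image]
    exact h3
  have h4 := measure_mono (μ := volume) h2
  rw [Real.volume_Ico, sub_zero] at h4
  refine h4.trans (h1.trans ?_)
  simp

theorem pieces {r : ℝ} (hr : 0 < r) (a : ℝ) {δ : ℝ} (hδ0 : 0 ≤ δ) (hδ : δ ≤ Real.pi) (n : ℕ)
    (hn : n * δ ≤ 2 * Real.pi) :
    (n : ENNReal) * ENNReal.ofReal (2 * r * Real.sin (δ / 2)) ≤ μH[1] (E r '' Ico a (a + n * δ)) := by
  induction n with
  | zero => simp
  | succ n ih =>
    have hn' : (n : ℝ) * δ ≤ 2 * Real.pi := by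
      push_cast at hn
      nlinarith
    have ih' := ih hn'
    have hsplit : Ico a (a + ((n + 1 : ℕ) : ℝ) * δ) =
        Ico a (a + n * δ) ∪ Ico (a + n * δ) (a + n * δ + δ) := by
      rw [Ico_union_Ico_eq_Ico]
      · congr 1; push_cast; ring
      · have : 0 ≤ (n : ℝ) * δ := by positivity
        linarith
      · linarith
    have hsub : Ico a (a + n * δ) ∪ Ico (a + n * δ) (a + n * δ + δ) ⊆ Ico a (a + 2 * Real.pi) := by
      rw [← hsplit]
      exact Ico_subset_Ico_right (by linarith)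
    have hinj := (E_inj hr a).mono hsub
    have hdisj : Disjoint (E r '' Ico a (a + n * δ)) (E r '' Ico (a + n * δ) (a + n * δ + δ)) := by
      rw [Set.disjoint_left]
      rintro _ ⟨x, hx, rfl⟩ ⟨y, hy, hxy⟩
      have := hinj (Or.inr hy) (Or.inl hx) hxy
      rw [this] at hy
      exact absurd hx.2 (not_lt.2 hy.1)
    have hmeas : MeasurableSet (E r '' Ico (a + n * δ) (a + n * δ + δ)) :=
      measurableSet_Ico.image_of_continuousOn_injOn (E_cont r).continuousOn
        (hinj.mono subset_union_right)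
    rw [hsplit, image_union, measure_union hdisj hmeas]
    push_cast
    rw [add_mul, one_mul]
    exact add_le_add ih' (piece hr _ hδ0 hδ)

/-- sine and cosine of `3π/10` -/
noncomputable def sa : ℝ := Real.sin (3 * Real.pi / 10)
noncomputable def ca : ℝ := Real.cos (3 * Real.pi / 10)

theorem sa_eq : sa = (1 + √5) / 4 := by
  rw [sa, ← Real.cos_pi_div_five, ← Real.cos_pi_div_two_sub]
  congr 1; ring

theorem sa_pos : 0 < sa := by rw [sa_eq]; positivity

theorem ca_pos : 0 < ca := by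
  have hpi := Real.pi_pos
  exact Real.cos_pos_of_mem_Ioo ⟨by linarith, by linarith⟩

theorem ca_sq : ca ^ 2 = 1 - sa ^ 2 := by
  rw [ca, sa]; linarith [Real.sin_sq_add_cos_sq (3 * Real.pi / 10)]

theorem sqrt5_le : √5 ≤ 2.23607 := by
  rw [Real.sqrt_le_left (by norm_num)]; norm_num

theorem ca_sq_ge : 0.34549 ≤ ca ^ 2 := by
  rw [ca_sq, sa_eq]
  have h := sqrt5_le
  have h0 := Real.sqrt_nonneg 5
  nlinarith

theorem k_ge : 0.5277 ≤ (ca / sa) ^ 2 := by
  rw [div_pow, le_div_iff₀ (by have := sa_pos; positivity)]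
  have h := ca_sq_ge
  have h2 := ca_sq
  nlinarith

theorem ca_lt : ca < 1 := by
  have h1 := ca_sq
  have h2 := sa_pos
  have h3 := ca_pos
  nlinarith

/-- the interior of a branch of a hyperbola -/
def K : Set ℂ := {w | ‖(⟨ca, w.im * (16 / 3) * (ca / sa)⟩ : ℂ)‖ < (41 / 48 - w.re) * (16 / 3)}

theorem mem_K_iff (w : ℂ) : w ∈ K ↔ 0 < (41 / 48 - w.re) * (16 / 3) ∧
    ca ^ 2 + (w.im * (16 / 3) * (ca / sa)) ^ 2 < ((41 / 48 - w.re) * (16 / 3)) ^ 2 := by
  have hn : ‖(⟨ca, w.im * (16 / 3) * (ca / sa)⟩ : ℂ)‖ ^ 2 = ca ^ 2 + (w.im * (16 / 3) * (ca / sa)) ^ 2 := by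
    rw [← Complex.normSq_eq_norm_sq, Complex.normSq_mk]; ring
  rw [← hn]
  simp only [K, mem_ofPred_eq]
  constructor
  · intro h
    have h0 := norm_nonneg (⟨ca, w.im * (16 / 3) * (ca / sa)⟩ : ℂ)
    exact ⟨lt_of_le_of_lt h0 h, by gcongr⟩
  · rintro ⟨h1, h2⟩
    exact lt_of_pow_lt_pow_left₀ 2 h1.le h2

theorem zero_mem_K : (0 : ℂ) ∈ K := by
  rw [mem_K_iff]
  have h1 := ca_lt
  have h2 := ca_pos
  constructor
  · norm_num
  · norm_num
    nlinarith

theorem K_ne : K ≠ univ := by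
  intro h
  have : (1 : ℂ) ∈ K := h ▸ mem_univ _
  rw [mem_K_iff] at this
  norm_num at this

theorem isOpen_K : IsOpen K := by
  apply isOpen_lt
  · have h : Continuous (fun w : ℂ => (⟨ca, w.im * (16 / 3) * (ca / sa)⟩ : ℂ)) := by
      have : (fun w : ℂ => (⟨ca, w.im * (16 / 3) * (ca / sa)⟩ : ℂ)) =
          fun w : ℂ => (ca : ℂ) + ((w.im * (16 / 3) * (ca / sa) : ℝ) : ℂ) * I := by
        funext w
        apply Complex.ext <;> simp
      rw [this]
      fun_prop
    exact h.norm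
  · fun_prop

theorem convex_K : Convex ℝ K := by
  intro w₁ h₁ w₂ h₂ a b ha hb hab
  simp only [K, mem_ofPred_eq] at h₁ h₂ ⊢
  have e1 : (⟨ca, (a • w₁ + b • w₂).im * (16 / 3) * (ca / sa)⟩ : ℂ) =
      (a : ℂ) * ⟨ca, w₁.im * (16 / 3) * (ca / sa)⟩ + (b : ℂ) * ⟨ca, w₂.im * (16 / 3) * (ca / sa)⟩ := by
    apply Complex.ext
    · simp
      linear_combination (-ca) * hab
    · simp
      ring
  rw [e1]
  have h3 : ‖(a : ℂ) * ⟨ca, w₁.im * (16 / 3) * (ca / sa)⟩ + (b : ℂ) * ⟨ca, w₂.im * (16 / 3) * (ca / sa)⟩‖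
      ≤ a * ‖(⟨ca, w₁.im * (16 / 3) * (ca / sa)⟩ : ℂ)‖ + b * ‖(⟨ca, w₂.im * (16 / 3) * (ca / sa)⟩ : ℂ)‖ := by
    refine (norm_add_le _ _).trans ?_
    rw [norm_mul, norm_mul, Complex.norm_real, Complex.norm_real, Real.norm_of_nonneg ha,
      Real.norm_of_nonneg hb]
  have h4 : (41 / 48 - (a • w₁ + b • w₂).re) * (16 / 3) =
      a * ((41 / 48 - w₁.re) * (16 / 3)) + b * ((41 / 48 - w₂.re) * (16 / 3)) := by
    simp
    linear_combination (-(41 / 48) * (16 / 3)) * hab
  rw [h4]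
  refine lt_of_le_of_lt h3 ?_
  rcases ha.eq_or_lt with h | h
  · have hb1 : b = 1 := by linarith
    rw [← h, hb1]
    linarith
  · nlinarith

theorem isSimplyConnected_K : IsSimplyConnected K := by
  have : ContractibleSpace K := convex_K.contractibleSpace ⟨0, zero_mem_K⟩
  unfold IsSimplyConnected
  infer_instance

/-- points of the circle outside `K` -/
theorem circle_notMem {φ : ℝ} (hφ : |φ| ≤ Real.pi / 3 + 1 / 100) : E (3 / 4) φ ∉ K := by
  rw [mem_K_iff]
  rintro ⟨h1, h2⟩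
  have hpi := Real.pi_pos
  have hpi3 := Real.pi_gt_three
  have hpi4 := Real.pi_le_four
  set c := Real.cos φ with hc
  have hre : (E (3 / 4) φ).re = 3 / 4 * c := by
    rw [E, Complex.re_ofReal_mul, Complex.exp_ofReal_mul_I_re]
  have him : (E (3 / 4) φ).im = 3 / 4 * Real.sin φ := by
    rw [E, Complex.im_ofReal_mul, Complex.exp_ofReal_mul_I_im]
  have hs : Real.sin φ ^ 2 = 1 - c ^ 2 := by rw [hc]; linarith [Real.sin_sq_add_cos_sq φ]
  have hc1 : c ≤ 1 := Real.cos_le_one _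
  have hcge : 0.49 ≤ c := by
    have h3 : Real.cos (Real.pi / 3 + 1 / 100) ≤ c := by
      rw [hc, ← Real.cos_abs φ]
      exact Real.cos_le_cos_of_nonneg_of_le_pi (abs_nonneg _) (by linarith) hφ
    refine le_trans ?_ h3
    rw [Real.cos_add, Real.cos_pi_div_three, Real.sin_pi_div_three]
    have h4 := Real.one_sub_sq_div_two_le_cos (x := (1 / 100 : ℝ))
    have h5 : Real.sin (1 / 100 : ℝ) ≤ 1 / 100 := Real.sin_le (by norm_num)
    have h6 : √3 ≤ 1.8 := by rw [Real.sqrt_le_left (by norm_num)]; norm_num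
    have h7 := Real.sqrt_nonneg 3
    have h8 : √3 / 2 * Real.sin (1 / 100) ≤ 0.9 * (1 / 100) := by
      have : 0 ≤ Real.sin (1 / 100 : ℝ) := Real.sin_nonneg_of_nonneg_of_le_pi (by norm_num) (by linarith)
      nlinarith
    norm_num at h4 ⊢
    linarith
  rw [hre, him] at h2
  have e1 : (3 / 4 * Real.sin φ * (16 / 3) * (ca / sa)) ^ 2 = 16 * (1 - c ^ 2) * (ca / sa) ^ 2 := by
    rw [← hs]; ring
  rw [e1] at h2
  have h9 := ca_sq_ge
  have h10 := k_ge
  have h11 : 16 * (1 - c ^ 2) * 0.5277 ≤ 16 * (1 - c ^ 2) * (ca / sa) ^ 2 := by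
    have : 0 ≤ 16 * (1 - c ^ 2) := by nlinarith
    gcongr
  nlinarith

end Pool.Agent.Helper405.Conv
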