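import Pool.Agent.Helper405.ConvH

set_option autoImplicit false
open Complex Set Filter Metric Topology MeasureTheory Measure

namespace Pool.Agent.Helper405.Conv
open Pool.Agent.Helper405.Riemann Pool.Agent.Helper405.Koebe

/-- Cayley transform -/
theorem cayley_re {z : ℂ} (hz : ‖z‖ < 1) : 0 < ((1 - z) / (1 + z)).re := by
  have hne : 1 + z ≠ 0 := by
    intro h
    have : z = -1 := by linear_combination h
    rw [this, norm_neg, norm_one] at hz
    linarith
  have hn : 0 < Complex.normSq (1 + z) := Complex.normSq_pos.2 hne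
  rw [Complex.div_re]
  have e1 : (1 - z).re * (1 + z).re / normSq (1 + z) + (1 - z).im * (1 + z).im / normSq (1 + z)
      = (1 - normSq z) / normSq (1 + z) := by
    rw [← add_div]
    congr 1
    rw [Complex.normSq_apply]
    simp
    ring
  rw [e1]
  apply div_pos _ hn
  rw [Complex.normSq_eq_norm_sq]
  nlinarith [norm_nonneg z]

/-- the comparison function -/
noncomputable def FF (z : ℂ) : ℂ :=
  41 / 48 - 3 / 16 * Complex.cosh ((Real.log 9 : ℝ) + 3 / 5 * Complex.log ((1 - z) / (1 + z)))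

theorem FF_zero : FF 0 = 0 := by
  have h : Complex.cosh ((Real.log 9 : ℝ) : ℂ) = 41 / 9 := by
    rw [← Complex.ofReal_cosh, Real.cosh_log (by norm_num)]
    push_cast; norm_num
  simp only [FF, sub_zero, add_zero, div_one, Complex.log_one, mul_zero]
  rw [h]; norm_num

theorem FF_hasDerivAt {z : ℂ} (hz : ‖z‖ < 1) :
    HasDerivAt FF (-(3 / 16 * (Complex.sinh ((Real.log 9 : ℝ) + 3 / 5 * Complex.log ((1 - z) / (1 + z))) *
      (3 / 5 * ((((-1) * (1 + z) - (1 - z) * 1) / (1 + z) ^ 2) / ((1 - z) / (1 + z))))))) z := by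
  have hne : 1 + z ≠ 0 := by
    intro h
    have : z = -1 := by linear_combination h
    rw [this, norm_neg, norm_one] at hz
    linarith
  have h1 : HasDerivAt (fun z : ℂ => 1 - z) (-1) z := (hasDerivAt_id z).const_sub 1
  have h2 : HasDerivAt (fun z : ℂ => 1 + z) 1 z := (hasDerivAt_id z).const_add 1
  have h3 := h1.div h2 hne
  have hslit : (1 - z) / (1 + z) ∈ slitPlane := Or.inl (cayley_re hz)
  have h4 := (h3.clog hslit).const_mul (3 / 5 : ℂ)
  have h5 := h4.const_add ((Real.log 9 : ℝ) : ℂ)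
  have h6 := (h5.ccosh.const_mul (3 / 16 : ℂ)).const_sub (41 / 48)
  exact h6

theorem FF_deriv_zero : deriv FF 0 = 1 := by
  have h := FF_hasDerivAt (z := 0) (by simp)
  rw [h.deriv]
  have hs : Complex.sinh ((Real.log 9 : ℝ) : ℂ) = 40 / 9 := by
    rw [← Complex.ofReal_sinh, Real.sinh_log (by norm_num)]
    push_cast; norm_num
  simp only [sub_zero, add_zero, div_one, Complex.log_one, mul_zero, hs]
  norm_num

theorem FF_mem {z : ℂ} (hz : ‖z‖ < 1) : FF z ∈ K := by
  have hpi := Real.pi_pos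
  set t : ℂ := (1 - z) / (1 + z) with ht
  have htre : 0 < t.re := cayley_re hz
  have harg : |t.arg| < Real.pi / 2 := Complex.abs_arg_lt_pi_div_two_iff.2 (Or.inl htre)
  set x : ℝ := Real.log 9 + 3 / 5 * (Complex.log t).re with hx
  set y : ℝ := 3 / 5 * t.arg with hy
  have hu : ((Real.log 9 : ℝ) : ℂ) + 3 / 5 * Complex.log t = (x : ℂ) + (y : ℂ) * I := by
    apply Complex.ext
    · simp [hx]
    · simp [hy, Complex.log_im]
  have hcosh : Complex.cosh ((x : ℂ) + (y : ℂ) * I) =
      ((Real.cosh x * Real.cos y : ℝ) : ℂ) + ((Real.sinh x * Real.sin y : ℝ) : ℂ) * I := by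
    rw [Complex.cosh_add, Complex.cosh_mul_I, Complex.sinh_mul_I]
    push_cast; ring
  have hF : FF z = 41 / 48 - 3 / 16 * (((Real.cosh x * Real.cos y : ℝ) : ℂ) +
      ((Real.sinh x * Real.sin y : ℝ) : ℂ) * I) := by
    rw [FF, ← ht, hu, hcosh]
  have hre : (FF z).re = 41 / 48 - 3 / 16 * (Real.cosh x * Real.cos y) := by
    rw [hF]
    have : (41 / 48 - 3 / 16 * (((Real.cosh x * Real.cos y : ℝ) : ℂ) +
      ((Real.sinh x * Real.sin y : ℝ) : ℂ) * I) : ℂ) = ((41 / 48 - 3 / 16 * (Real.cosh x * Real.cos y) : ℝ) : ℂ)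
        + ((-(3 / 16) * (Real.sinh x * Real.sin y) : ℝ) : ℂ) * I := by
      push_cast; ring
    rw [this, Complex.add_re, Complex.ofReal_re, Complex.re_ofReal_mul, Complex.I_re]
    ring
  have him : (FF z).im = -(3 / 16) * (Real.sinh x * Real.sin y) := by
    rw [hF]
    have : (41 / 48 - 3 / 16 * (((Real.cosh x * Real.cos y : ℝ) : ℂ) +
      ((Real.sinh x * Real.sin y : ℝ) : ℂ) * I) : ℂ) = ((41 / 48 - 3 / 16 * (Real.cosh x * Real.cos y) : ℝ) : ℂ)
        + ((-(3 / 16) * (Real.sinh x * Real.sin y) : ℝ) : ℂ) * I := by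
      push_cast; ring
    rw [this, Complex.add_im, Complex.ofReal_im, Complex.im_ofReal_mul, Complex.I_im]
    ring
  have hyabs : |y| < 3 * Real.pi / 10 := by
    rw [hy, abs_mul, abs_of_pos (by norm_num : (0 : ℝ) < 3 / 5)]
    linarith
  have hcos : ca < Real.cos y := by
    rw [ca, ← Real.cos_abs y]
    exact Real.cos_lt_cos_of_nonneg_of_le_pi (abs_nonneg _) (by linarith) hyabs
  have hsin : Real.sin y ^ 2 ≤ sa ^ 2 := by
    have h1 := Real.sin_sq_add_cos_sq y
    have h2 := ca_sq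
    have h3 := ca_pos
    nlinarith
  have hsa := sa_pos
  have hca := ca_pos
  have hch := Real.one_le_cosh x
  have hcs := Real.cosh_sq x
  rw [mem_K_iff, hre, him]
  have e1 : (41 / 48 - (41 / 48 - 3 / 16 * (Real.cosh x * Real.cos y))) * (16 / 3) = Real.cosh x * Real.cos y := by
    ring
  rw [e1]
  constructor
  · have : 0 < Real.cos y := by linarith
    positivity
  · have e2 : (-(3 / 16) * (Real.sinh x * Real.sin y) * (16 / 3) * (ca / sa)) ^ 2 =
        Real.sinh x ^ 2 * ca ^ 2 * (Real.sin y ^ 2 / sa ^ 2) := by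
      field_simp
    rw [e2]
    have e3 : Real.sin y ^ 2 / sa ^ 2 ≤ 1 := by
      rw [div_le_one (by positivity)]; exact hsin
    have e4 : Real.sinh x ^ 2 * ca ^ 2 * (Real.sin y ^ 2 / sa ^ 2) ≤ Real.sinh x ^ 2 * ca ^ 2 * 1 := by
      gcongr
    have e5 : ca ^ 2 < Real.cos y ^ 2 := by nlinarith
    have e6 : ca ^ 2 + Real.sinh x ^ 2 * ca ^ 2 * 1 = Real.cosh x ^ 2 * ca ^ 2 := by rw [hcs]; ring
    have e7 : Real.cosh x ^ 2 * ca ^ 2 < Real.cosh x ^ 2 * Real.cos y ^ 2 := by
      have : 0 < Real.cosh x ^ 2 := by positivity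
      gcongr
    calc ca ^ 2 + Real.sinh x ^ 2 * ca ^ 2 * (Real.sin y ^ 2 / sa ^ 2)
        ≤ ca ^ 2 + Real.sinh x ^ 2 * ca ^ 2 * 1 := by linarith
      _ < (Real.cosh x * Real.cos y) ^ 2 := by rw [e6, mul_pow]; exact e7

open scoped Pointwise in
/-- a member of the class omitting more than `π/2` -/
theorem exists_better : ∃ f, Sc f ∧ ENNReal.ofReal (Real.pi / 2) < L f (3 / 4) := by
  obtain ⟨g, φ, hg, hbij, hgd, hg0, hφ, hφm, hgφ, hφg⟩ :=
    riemann_inv isOpen_K isSimplyConnected_K K_ne zero_mem_K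
  have h0b : (0 : ℂ) ∈ ball (0 : ℂ) 1 := by simp
  -- derivative of g at 0 has modulus at least 1
  have hφd : HasDerivAt φ (deriv φ 0) 0 := by
    exact (hφ.differentiableAt (isOpen_K.mem_nhds zero_mem_K)).hasDerivAt
  have hgd0 : HasDerivAt g (deriv g 0) 0 := (hg.differentiableAt (isOpen_ball.mem_nhds h0b)).hasDerivAt
  have hφ0 : φ 0 = 0 := by
    have := hφg 0 h0b
    rwa [hg0] at this
  have hprod : deriv φ 0 * deriv g 0 = 1 := by
    have h1 : HasDerivAt (fun z => φ (g z)) (deriv φ 0 * deriv g 0) 0 := by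
      rw [← hg0] at hφd
      have := hφd.comp (0 : ℂ) hgd0
      rw [hg0] at this
      exact this
    have h2 : HasDerivAt (fun z => φ (g z)) 1 0 := by
      apply (hasDerivAt_id (0 : ℂ)).congr_of_eventuallyEq
      filter_upwards [isOpen_ball.mem_nhds h0b] with x hx
      exact hφg x hx
    exact h1.unique h2
  have hω : DifferentiableOn ℂ (fun z => φ (FF z)) (ball 0 1) := by
    intro z hz
    have hz' : ‖z‖ < 1 := by simpa using hz
    exact ((hφ.differentiableAt (isOpen_K.mem_nhds (FF_mem hz'))).comp z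
      (FF_hasDerivAt hz').differentiableAt).differentiableWithinAt
  have hωm : MapsTo (fun z => φ (FF z)) (ball 0 1) (closedBall (φ (FF 0)) 1) := by
    intro z hz
    have hz' : ‖z‖ < 1 := by simpa using hz
    rw [FF_zero, hφ0]
    exact ball_subset_closedBall (hφm (FF_mem hz'))
  have hle := Complex.norm_deriv_le_div_of_mapsTo_ball hω hωm one_pos
  have hωd : HasDerivAt (fun z => φ (FF z)) (deriv φ 0 * 1) 0 := by
    have h1 : HasDerivAt FF 1 0 := by
      rw [← FF_deriv_zero]
      exact (FF_hasDerivAt (z := 0) (by simp)).differentiableAt.hasDerivAt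
    rw [← FF_zero] at hφd
    have := hφd.comp (0 : ℂ) h1
    rw [FF_zero] at this
    exact this
  rw [hωd.deriv, mul_one, div_one] at hle
  set G : ℝ := ‖deriv g 0‖ with hG
  have hGpos : 0 < G := norm_pos_iff.2 (hgd 0 h0b)
  have hG1 : 1 ≤ G := by
    have h1 : ‖deriv φ 0‖ * G = 1 := by rw [hG, ← norm_mul, hprod, norm_one]
    nlinarith [norm_nonneg (deriv φ 0)]
  have hGne : (G : ℂ) ≠ 0 := by exact_mod_cast hGpos.ne'
  set η : ℂ := (starRingEnd ℂ) (deriv g 0) / G with hη
  have hηn : ‖η‖ = 1 := by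
    rw [hη, norm_div, RCLike.norm_conj, Complex.norm_real, Real.norm_of_nonneg hGpos.le]
    exact div_self hGpos.ne'
  have hηne : η ≠ 0 := by
    intro h; rw [h, norm_zero] at hηn; norm_num at hηn
  have hηmem : ∀ z ∈ ball (0 : ℂ) 1, η * z ∈ ball (0 : ℂ) 1 := by
    intro z hz
    rw [mem_ball_zero_iff] at hz ⊢
    rw [norm_mul, hηn, one_mul]; exact hz
  have himg : (fun z => g (η * z) / G) '' ball 0 1 = (fun w => w / (G : ℂ)) '' K := by
    ext w
    constructor
    · rintro ⟨z, hz, rfl⟩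
      exact ⟨g (η * z), hbij.mapsTo (hηmem z hz), rfl⟩
    · rintro ⟨k, hk, rfl⟩
      obtain ⟨y, hy, rfl⟩ := hbij.surjOn hk
      refine ⟨y / η, ?_, ?_⟩
      · rw [mem_ball_zero_iff] at hy ⊢
        rw [norm_div, hηn, div_one]; exact hy
      · simp only
        rw [mul_div_cancel₀ y hηne]
  refine ⟨fun z => g (η * z) / G, ⟨?_, ?_, ?_, ?_, ?_⟩, ?_⟩
  · exact (hg.comp ((differentiableOn_const _).mul differentiableOn_id) (fun z hz => hηmem z hz)).div_const _
  · intro z hz w hw h
    have h1 : g (η * z) = g (η * w) := by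
      have h2 : g (η * z) / G = g (η * w) / G := h
      field_simp at h2
      exact h2
    exact mul_left_cancel₀ hηne (hbij.injOn (hηmem z hz) (hηmem w hw) h1)
  · rw [himg]
    have : (fun w : ℂ => w / (G : ℂ)) '' K = (G⁻¹ : ℝ) • K := by
      ext w
      rw [Set.mem_smul_set]
      constructor
      · rintro ⟨k, hk, rfl⟩
        refine ⟨k, hk, ?_⟩
        rw [Complex.real_smul]
        push_cast
        field_simp
      · rintro ⟨k, hk, rfl⟩
        refine ⟨k, hk, ?_⟩
        simp only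
        rw [Complex.real_smul]
        push_cast
        field_simp
    rw [this]
    exact convex_K.smul _
  · simp [hg0]
  · have h1 : HasDerivAt (fun z : ℂ => η * z) η 0 := by
      simpa using (hasDerivAt_id (0 : ℂ)).const_mul η
    have h2 : HasDerivAt (fun z : ℂ => g (η * z) / G) (deriv g 0 * η / G) 0 := by
      have h3 : HasDerivAt g (deriv g 0) (η * 0) := by rw [mul_zero]; exact hgd0
      exact (h3.comp (0 : ℂ) h1).div_const _
    rw [h2.deriv, hη]
    have h4 : deriv g 0 * (starRingEnd ℂ) (deriv g 0) = (G : ℂ) ^ 2 := by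
      rw [Complex.mul_conj, Complex.normSq_eq_norm_sq, hG]
      push_cast; rfl
    rw [← mul_div_assoc, h4]
    field_simp
  · -- the omitted arc
    have hpi := Real.pi_pos
    have hpi3 := Real.pi_gt_three
    have hpi4 := Real.pi_lt_d2
    set h : ℝ := Real.pi / 3 + 1 / 100 with hh
    have hsub : E (3 / 4) '' Ico (-h) (-h + (16 : ℕ) * (h / 8)) ⊆
        (ball (0 : ℂ) 1 \ (fun z => g (η * z) / G) '' ball 0 1) ∩ {w : ℂ | ‖w‖ = 3 / 4} := by
      rintro _ ⟨θ, hθ, rfl⟩
      have hn : ‖E (3 / 4) θ‖ = 3 / 4 := E_norm (by norm_num) θ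
      refine ⟨⟨?_, ?_⟩, hn⟩
      · rw [mem_ball_zero_iff, hn]; norm_num
      · intro hmem
        rw [himg] at hmem
        obtain ⟨k, hk, hkE⟩ := hmem
        apply circle_notMem (φ := θ)
        · rw [abs_le]
          push_cast at hθ
          constructor
          · exact hθ.1
          · linarith [hθ.2]
        · rw [← hkE]
          have h5 := convex_K zero_mem_K hk (a := 1 - G⁻¹) (b := G⁻¹)
            (by rw [sub_nonneg]; exact inv_le_one_of_one_le₀ hG1) (by positivity) (by ring)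
          rw [smul_zero, zero_add, Complex.real_smul] at h5
          have h6 : ((G⁻¹ : ℝ) : ℂ) * k = k / G := by push_cast; field_simp
          rw [h6] at h5
          exact h5
    have h7 := pieces (r := 3 / 4) (by norm_num) (-h) (δ := h / 8) (by positivity) (by linarith) 16
      (by push_cast; linarith)
    refine lt_of_lt_of_le ?_ (h7.trans (measure_mono hsub))
    have h8 : ((16 : ℕ) : ENNReal) = ENNReal.ofReal 16 := by
      rw [ENNReal.ofReal_ofNat]; norm_num
    rw [h8, ← ENNReal.ofReal_mul (by norm_num)]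
    rw [ENNReal.ofReal_lt_ofReal_iff_of_nonneg (by positivity)]
    have h9 := Real.sin_gt_sub_cube (x := h / 8 / 2) (by positivity)
    have h10 : h / 8 / 2 ≤ 0.067 := by rw [hh]; linarith
    have h11 : (h / 8 / 2) ^ 3 ≤ 0.067 ^ 2 * (h / 8 / 2) := by
      have h12 : 0 ≤ h / 8 / 2 := by positivity
      calc (h / 8 / 2) ^ 3 = (h / 8 / 2) ^ 2 * (h / 8 / 2) := by ring
        _ ≤ 0.067 ^ 2 * (h / 8 / 2) := by gcongr
    have h13 : (1 - 0.067 ^ 2 / 6) * (h / 8 / 2) < Real.sin (h / 8 / 2) := by linarith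
    have h14 : Real.pi / 2 < 24 * ((1 - 0.067 ^ 2 / 6) * (h / 8 / 2)) := by
      rw [hh]; norm_num; linarith
    linarith

end Pool.Agent.Helper405.Conv
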