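import Pool.Agent.Helper405.GeoA

set_option autoImplicit false
open Complex Set Filter Metric Topology

namespace Pool.Agent.Helper405.Geo

theorem t_pow_le {t : ℝ} (h0 : 0 < t) (h1 : t ≤ 1 / 1024) (n : ℕ) : t ^ (n + 1) ≤ t ^ n / 1024 := by
  rw [pow_succ]
  have : 0 < t ^ n := by positivity
  nlinarith

theorem XX_norm_ge {j : ℕ} {v : ℂ} (hv : v ∈ U) (hv0 : v ≠ 0) :
    (tt j) ^ 7 ≤ ‖XX (tt j) v‖ := by
  have ht := tt_pos j
  have ht1 := tt_le j
  by_cases h : v ∈ T (tt j)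
  · have h1 := (XX_a ht ht1 h).1
    have h2 := Complex.re_le_norm (XX (tt j) v)
    have : 0 < (tt j) ^ 7 := by positivity
    linarith
  · have h1 := XX_b hv hv0 (Or.inr h)
    have h2 := norm_lt_of_mem hv
    have h3 : (tt j) ^ 2 ≤ ‖XX (tt j) v‖ * 3 := by
      refine h1.trans ?_
      gcongr
    have p3 := t_pow_le ht ht1 2
    have p4 := t_pow_le ht ht1 3
    have p5 := t_pow_le ht ht1 4
    have p6 := t_pow_le ht ht1 5
    have p7 := t_pow_le ht ht1 6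
    have q7 : 0 < (tt j) ^ 7 := by positivity
    norm_num at p3 p4 p5 p6 p7
    linarith

theorem XX_ne {j : ℕ} {v : ℂ} (hv : v ∈ U) (hv0 : v ≠ 0) : XX (tt j) v ≠ 0 := by
  intro h
  have h1 := XX_norm_ge (j := j) hv hv0
  rw [h, norm_zero] at h1
  have := tt_pos j
  have : 0 < (tt j) ^ 7 := by positivity
  linarith

theorem XX_prod_aux {j : ℕ} {v w : ℂ} (hv : v ∈ U) (hv0 : v ≠ 0) (hw : w ∈ U) (hw0 : w ≠ 0)
    (h : v ∉ T (tt j)) : (tt j) ^ 10 < ‖XX (tt j) v * XX (tt j) w‖ := by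
  have ht := tt_pos j
  have ht1 := tt_le j
  have h1 := XX_b hv hv0 (Or.inr h)
  have h2 := norm_lt_of_mem hv
  have h3 : (tt j) ^ 2 ≤ ‖XX (tt j) v‖ * 3 := by
    refine h1.trans ?_
    gcongr
  have h4 := XX_norm_ge (j := j) hw hw0
  rw [norm_mul]
  have h5 : (tt j) ^ 2 / 3 * (tt j) ^ 7 ≤ ‖XX (tt j) v‖ * ‖XX (tt j) w‖ := by
    have : (tt j) ^ 2 / 3 ≤ ‖XX (tt j) v‖ := by linarith
    gcongr
  have h6 : (tt j) ^ 2 / 3 * (tt j) ^ 7 = (tt j) ^ 9 / 3 := by ring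
  have h7 := t_pow_le ht ht1 9
  norm_num at h7
  have h8 : 0 < (tt j) ^ 9 := by positivity
  linarith

theorem XX_prod {j : ℕ} {v w : ℂ} (hv : v ∈ U) (hv0 : v ≠ 0) (hw : w ∈ U) (hw0 : w ≠ 0) :
    XX (tt j) v * XX (tt j) w + ((tt j ^ 10 : ℝ) : ℂ) ≠ 0 := by
  have ht := tt_pos j
  have ht1 := tt_le j
  have hb : 0 < (tt j) ^ 10 := by positivity
  intro h
  have hn : ‖XX (tt j) v * XX (tt j) w‖ = (tt j) ^ 10 := by
    have : XX (tt j) v * XX (tt j) w = -((tt j ^ 10 : ℝ) : ℂ) := by linear_combination h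
    rw [this, norm_neg, Complex.norm_real, Real.norm_of_nonneg hb.le]
  by_cases h1 : v ∈ T (tt j)
  · by_cases h2 : w ∈ T (tt j)
    · obtain ⟨a1, a2⟩ := XX_a ht ht1 h1
      obtain ⟨b1, b2⟩ := XX_a ht ht1 h2
      have hre := congrArg Complex.re h
      rw [add_re, mul_re, Complex.ofReal_re, zero_re] at hre
      have hp : 0 < tt j ^ 7 := by positivity
      set X := XX (tt j) v
      set Y := XX (tt j) w
      have hX : 0 < X.re := by linarith
      have hY : 0 < Y.re := by linarith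
      have h3 : |X.im * Y.im| ≤ X.re / 2 * (Y.re / 2) := by
        rw [abs_mul]; gcongr
      have h4 := (abs_le.1 h3).2
      have h5 : 0 < X.re * Y.re := mul_pos hX hY
      nlinarith
    · have := XX_prod_aux hw hw0 hv hv0 h2
      rw [mul_comm] at this
      linarith
  · have := XX_prod_aux hv hv0 hw hw0 h1
    linarith

theorem XX_sq_a {t : ℝ} (ht : 0 < t) (ht1 : t ≤ 1 / 1024) {v : ℂ} (hv : v ∈ T t) :
    t ^ 10 ≤ ‖XX t v ^ 2 + ((t ^ 10 : ℝ) : ℂ)‖ := by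
  obtain ⟨a1, a2⟩ := XX_a ht ht1 hv
  have hp : 0 < t ^ 7 := by positivity
  set X := XX t v
  have hX : 0 < X.re := by linarith
  refine le_trans ?_ (Complex.re_le_norm _)
  rw [add_re, Complex.ofReal_re, pow_two, mul_re]
  have h3 := abs_le.1 a2
  nlinarith

theorem XX_sq_b {j : ℕ} {v : ℂ} (hv : v ∈ U) (h : (tt j) ^ 2 ≤ ‖XX (tt j) v‖ * ‖v‖) :
    ‖XX (tt j) v‖ ^ 2 / 2 ≤ ‖XX (tt j) v ^ 2 + ((tt j ^ 10 : ℝ) : ℂ)‖ := by
  have ht := tt_pos j
  have ht1 := tt_le j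
  have hb : 0 < (tt j) ^ 10 := by positivity
  have h2 := norm_lt_of_mem hv
  have h3 : (tt j) ^ 2 ≤ ‖XX (tt j) v‖ * 3 := by
    refine h.trans ?_
    gcongr
  have h4 : (tt j) ^ 4 ≤ ‖XX (tt j) v‖ ^ 2 * 9 := by
    calc (tt j) ^ 4 = ((tt j) ^ 2) ^ 2 := by ring
      _ ≤ (‖XX (tt j) v‖ * 3) ^ 2 := by gcongr
      _ = _ := by ring
  have h5 : (tt j) ^ 10 ≤ (tt j) ^ 4 / 18 := by
    have p3 := t_pow_le ht ht1 4
    have p4 := t_pow_le ht ht1 5
    have p5 := t_pow_le ht ht1 6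
    have p6 := t_pow_le ht ht1 7
    have p7 := t_pow_le ht ht1 8
    have p8 := t_pow_le ht ht1 9
    norm_num at p3 p4 p5 p6 p7 p8
    have : 0 < (tt j) ^ 4 := by positivity
    linarith
  have h6 : ‖XX (tt j) v ^ 2‖ - ‖((tt j ^ 10 : ℝ) : ℂ)‖ ≤ ‖XX (tt j) v ^ 2 + ((tt j ^ 10 : ℝ) : ℂ)‖ := by
    have := norm_sub_norm_le (XX (tt j) v ^ 2) (-((tt j ^ 10 : ℝ) : ℂ))
    rwa [norm_neg, sub_neg_eq_add] at this
  rw [norm_pow, Complex.norm_real, Real.norm_of_nonneg hb.le] at h6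
  linarith

/-- near boundary point -/
theorem near {j : ℕ} {v : ℂ} (hv : v ∈ T (tt j)) (h1 : 1 ≤ ‖v‖) :
    ∃ v0, v0 ∉ U ∧ ‖v - v0‖ ≤ 2 * (tt j) ^ 7 * ‖v‖ := by
  have ht := tt_pos j
  have ht1 := tt_le j
  obtain ⟨a1, a2, a3, a4⟩ := T_est ht ht1 hv
  obtain ⟨b1, b2⟩ := hv
  set t := tt j with htd
  set x := v.re with hx
  have h7 := pow7_le ht ht1
  have h7p : 0 < t ^ 7 := by positivity
  have hb := abs_lt.1 b1
  refine ⟨⟨x, -(t + t ^ 7) * x⟩, ?_, ?_⟩
  · intro h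
    rcases h with h | h
    · rw [mem_ball_zero_iff] at h
      have e1 : ‖(⟨x, -(t + t ^ 7) * x⟩ : ℂ)‖ ^ 2 = x ^ 2 * (1 + (t + t ^ 7) ^ 2) := by
        rw [← Complex.normSq_eq_norm_sq, Complex.normSq_mk]; ring
      have e2 : ‖v‖ ^ 2 = x ^ 2 + v.im ^ 2 := by
        rw [← Complex.normSq_eq_norm_sq, Complex.normSq_apply]; ring
      have e3 : v.im ^ 2 ≤ (t + t ^ 7) ^ 2 * x ^ 2 := by
        have h3 : |v.im| ≤ (t + t ^ 7) * x := by
          rw [abs_le]
          constructor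
          · nlinarith
          · nlinarith
        calc v.im ^ 2 = |v.im| ^ 2 := (sq_abs _).symm
          _ ≤ ((t + t ^ 7) * x) ^ 2 := by gcongr
          _ = _ := by ring
      have e4 : 1 ≤ ‖v‖ ^ 2 := by nlinarith
      have e5 : ‖(⟨x, -(t + t ^ 7) * x⟩ : ℂ)‖ ^ 2 < 1 := by
        nlinarith [norm_nonneg (⟨x, -(t + t ^ 7) * x⟩ : ℂ)]
      nlinarith
    · rw [mem_iUnion] at h
      obtain ⟨k, hk, -⟩ := h
      simp only at hk
      by_cases hjk : j = k
      · subst hjk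
        rw [← htd] at hk
        have e1 : -(t + t ^ 7) * x + t * x = -(t ^ 7 * x) := by ring
        rw [e1, abs_neg, abs_of_pos (by positivity)] at hk
        exact lt_irrefl _ hk
      · obtain ⟨s1, s2⟩ := tt_sep hjk
        have hkp := tt_pos k
        have hk7 := pow7_le hkp (tt_le k)
        rw [← htd] at s1 s2
        have e1 : -(t + t ^ 7) * x + tt k * x = (-(t - tt k) - t ^ 7) * x := by ring
        rw [e1, abs_mul, abs_of_pos a1] at hk
        have h3 : |(-(t - tt k) - t ^ 7)| < tt k ^ 7 := by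
          by_contra hcon
          push Not at hcon
          have : tt k ^ 7 * x ≤ |(-(t - tt k) - t ^ 7)| * x := by gcongr
          linarith
        have h4 : |t - tt k| - |t ^ 7| ≤ |(-(t - tt k) - t ^ 7)| := by
          have := abs_sub_abs_le_abs_sub (-(t - tt k)) (t ^ 7)
          rw [abs_neg] at this
          exact this
        rw [abs_of_pos h7p] at h4
        linarith
  · have e1 : v - ⟨x, -(t + t ^ 7) * x⟩ = ⟨0, v.im + (t + t ^ 7) * x⟩ := by
      apply Complex.ext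
      · simp [hx]
      · simp; ring
    have e2 : ‖(⟨0, v.im + (t + t ^ 7) * x⟩ : ℂ)‖ = |v.im + (t + t ^ 7) * x| := by
      have gen : ∀ y : ℝ, ‖(⟨0, y⟩ : ℂ)‖ = |y| := by
        intro y
        have : (⟨0, y⟩ : ℂ) = (y : ℂ) * I := by
          apply Complex.ext <;> simp
        rw [this, norm_mul, Complex.norm_I, mul_one, Complex.norm_real, Real.norm_eq_abs]
      exact gen _
    rw [e1, e2]
    have e3 : |v.im + (t + t ^ 7) * x| ≤ 2 * t ^ 7 * x := by
      rw [abs_le]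
      constructor
      · nlinarith
      · nlinarith
    have e4 : x ≤ ‖v‖ := Complex.re_le_norm v
    calc |v.im + (t + t ^ 7) * x| ≤ 2 * t ^ 7 * x := e3
      _ ≤ 2 * t ^ 7 * ‖v‖ := by gcongr

/-- The test point. -/
noncomputable def vp (t : ℝ) : ℂ := ((2 - t ^ 7 : ℝ) : ℂ) / ee t

theorem vp_ball {t : ℝ} (ht : 0 < t) (ht1 : t ≤ 1 / 1024) : ball (vp t) (t ^ 7 / 4) ⊆ T t := by
  intro v hv
  rw [mem_ball, dist_eq_norm] at hv
  have h7 := pow7_le ht ht1
  have h7p : 0 < t ^ 7 := by positivity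
  set d := v - vp t with hd
  have hv' : v = vp t + d := by rw [hd]; ring
  have hee := ee_ne t
  have e1 : ee t * v = ((2 - t ^ 7 : ℝ) : ℂ) + ee t * d := by
    rw [hv', vp]; field_simp
  have hre := congrArg Complex.re e1
  have him := congrArg Complex.im e1
  rw [ev_re, add_re, Complex.ofReal_re] at hre
  rw [ev_im, add_im, Complex.ofReal_im, zero_add] at him
  have hn : ‖ee t * d‖ < t ^ 7 / 2 := by
    rw [norm_mul]
    have := ee_le ht ht1
    have h0 := norm_nonneg d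
    have h1 := one_le_ee t
    nlinarith
  have hr2 := lt_of_le_of_lt (Complex.abs_re_le_norm (ee t * d)) hn
  have hi2 := lt_of_le_of_lt (Complex.abs_im_le_norm (ee t * d)) hn
  have hr3 := abs_lt.1 hr2
  have hi3 := abs_lt.1 hi2
  have hx : 1 ≤ v.re := by
    -- (1+t²) x = A + t B
    have e2 : (1 + t ^ 2) * v.re = (v.re - t * v.im) + t * (v.im + t * v.re) := by ring
    rw [hre, him] at e2
    have h8 : -(t ^ 7) ≤ t * (ee t * d).im := by nlinarith
    have h9 : t ^ 2 ≤ 1 / 1024 := by nlinarith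
    by_contra hcon
    push Not at hcon
    nlinarith
  constructor
  · rw [him]
    have : t ^ 7 * 1 ≤ t ^ 7 * v.re := by gcongr
    linarith
  · rw [hre]; linarith

theorem vp_XX {t : ℝ} (ht : 0 < t) (ht1 : t ≤ 1 / 1024) :
    ‖XX t (vp t)‖ ≤ 5 * t ^ 7 ∧ ‖vp t‖ ≤ 2 := by
  have h7 := pow7_le ht ht1
  have h7p : 0 < t ^ 7 := by positivity
  have hee := ee_ne t
  constructor
  · have e1 : ee t * vp t = ((2 - t ^ 7 : ℝ) : ℂ) := by rw [vp]; field_simp
    rw [XX, e1, ← Complex.ofReal_inv, ← Complex.ofReal_sub, Complex.norm_real, Real.norm_eq_abs]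
    have h2 : (2 - t ^ 7)⁻¹ = 1 / 2 + t ^ 7 / (2 * (2 - t ^ 7)) := by
      have : (2 - t ^ 7) ≠ 0 := by linarith
      field_simp
      ring
    rw [h2]
    have h3 : t ^ 7 / (2 * (2 - t ^ 7)) ≤ t ^ 7 / 1 := by
      gcongr
      linarith
    have h4 : 0 ≤ t ^ 7 / (2 * (2 - t ^ 7)) := by
      apply div_nonneg h7p.le; linarith
    rw [abs_of_nonneg (by linarith)]
    linarith
  · rw [vp, norm_div, Complex.norm_real, Real.norm_of_nonneg (by linarith)]
    rw [div_le_iff₀ (norm_pos_iff.2 hee)]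
    have := one_le_ee t
    linarith

end Pool.Agent.Helper405.Geo
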