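import Mathlib

set_option autoImplicit false
open Complex Set Filter Metric Topology

namespace Pool.Agent.Helper405.Schw

theorem schwarz_diff {E : Set ℂ} (hE : IsOpen E) {X : ℂ → ℂ} {A B b : ℂ} (hA : A ≠ 0)
    (hX : DifferentiableOn ℂ X E) (hX0 : ∀ z ∈ E, X z ≠ 0) (hXb : ∀ z ∈ E, X z ^ 2 + b ≠ 0)
    (hX1 : ∀ z ∈ E, deriv X z ≠ 0) {f F : ℂ → ℂ} (hf : f = fun z => A * X z + B)
    (hF : F = fun z => A * (X z - b / X z) + B) {z : ℂ} (hz : z ∈ E) :
    (deriv (deriv F) z / deriv F z - deriv (deriv f) z / deriv f z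
      = - (2 * b * deriv X z / (X z * (X z ^ 2 + b)))) ∧
    ((deriv (fun w => deriv (deriv F) w / deriv F w) z
              - (1 / 2 : ℂ) * (deriv (deriv F) z / deriv F z) ^ 2)
            - (deriv (fun w => deriv (deriv f) w / deriv f w) z
              - (1 / 2 : ℂ) * (deriv (deriv f) z / deriv f z) ^ 2)
      = 6 * b * deriv X z ^ 2 / (X z ^ 2 + b) ^ 2) := by
  have d0 : ∀ w ∈ E, HasDerivAt X (deriv X w) w := fun w hw =>
    (hX.differentiableAt (hE.mem_nhds hw)).hasDerivAt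
  have hX' : DifferentiableOn ℂ (deriv X) E := hX.deriv hE
  have d1 : ∀ w ∈ E, HasDerivAt (deriv X) (deriv (deriv X) w) w := fun w hw =>
    (hX'.differentiableAt (hE.mem_nhds hw)).hasDerivAt
  have hX'' : DifferentiableOn ℂ (deriv (deriv X)) E := hX'.deriv hE
  have d2 : ∀ w ∈ E, HasDerivAt (deriv (deriv X)) (deriv (deriv (deriv X)) w) w := fun w hw =>
    (hX''.differentiableAt (hE.mem_nhds hw)).hasDerivAt
  set X1 := deriv X with hX1d
  set X2 := deriv X1 with hX2d
  set X3 := deriv X2 with hX3d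
  have hf1 : ∀ w ∈ E, HasDerivAt f (A * X1 w) w := by
    intro w hw
    rw [hf]
    exact ((d0 w hw).const_mul A).add_const B
  have hf2 : ∀ w ∈ E, HasDerivAt (deriv f) (A * X2 w) w := by
    intro w hw
    apply ((d1 w hw).const_mul A).congr_of_eventuallyEq
    filter_upwards [hE.mem_nhds hw] with y hy
    exact (hf1 y hy).deriv
  have hPf : ∀ w ∈ E, deriv (deriv f) w / deriv f w = X2 w / X1 w := by
    intro w hw
    have := hX1 w hw
    rw [(hf2 w hw).deriv, (hf1 w hw).deriv]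
    field_simp
  have hPf' : HasDerivAt (fun w => deriv (deriv f) w / deriv f w)
      ((X3 z * X1 z - X2 z * X2 z) / X1 z ^ 2) z := by
    apply ((d2 z hz).div (d1 z hz) (hX1 z hz)).congr_of_eventuallyEq
    filter_upwards [hE.mem_nhds hz] with y hy
    exact hPf y hy
  have hF1 : ∀ w ∈ E, HasDerivAt F (A * (X1 w + b * X1 w / X w ^ 2)) w := by
    intro w hw
    rw [hF]
    have h1 : HasDerivAt (fun z => b / X z) ((0 * X w - b * X1 w) / X w ^ 2) w :=
      (hasDerivAt_const w b).div (d0 w hw) (hX0 w hw)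
    have h2 := (((d0 w hw).sub h1).const_mul A).add_const B
    refine h2.congr_deriv ?_
    ring
  have hF2 : ∀ w ∈ E, HasDerivAt (deriv F)
      (A * (X2 w + b * (X2 w * X w ^ 2 - X1 w * (2 * X w * X1 w)) / (X w ^ 2) ^ 2)) w := by
    intro w hw
    have h0 : HasDerivAt (fun z => X z ^ 2) (2 * X w * X1 w) w := by
      have := (d0 w hw).fun_pow 2
      simpa using this
    have h1 : HasDerivAt (fun z => X1 z / X z ^ 2)
        ((X2 w * X w ^ 2 - X1 w * (2 * X w * X1 w)) / (X w ^ 2) ^ 2) w :=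
      (d1 w hw).div h0 (pow_ne_zero 2 (hX0 w hw))
    have h2 := ((d1 w hw).add (h1.const_mul b)).const_mul A
    refine (h2.congr_deriv ?_).congr_of_eventuallyEq ?_
    · ring
    · filter_upwards [hE.mem_nhds hw] with y hy
      rw [(hF1 y hy).deriv]
      simp only [Pi.add_apply]
      ring
  have hPF : ∀ w ∈ E, deriv (deriv F) w / deriv F w
      = X2 w / X1 w - 2 * b * X1 w / (X w * (X w ^ 2 + b)) := by
    intro w hw
    have a1 := hX1 w hw
    have a2 := hX0 w hw
    have a3 := hXb w hw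
    rw [(hF2 w hw).deriv, (hF1 w hw).deriv]
    have e1 : A * (X1 w + b * X1 w / X w ^ 2) = A * X1 w * (X w ^ 2 + b) / X w ^ 2 := by
      field_simp
    rw [e1]
    field_simp
    ring
  have hPF' : HasDerivAt (fun w => deriv (deriv F) w / deriv F w)
      ((X3 z * X1 z - X2 z * X2 z) / X1 z ^ 2 -
        2 * b * ((X2 z * (X z * (X z ^ 2 + b)) - X1 z * (X1 z * (X z ^ 2 + b) + X z * (2 * X z * X1 z)))
          / (X z * (X z ^ 2 + b)) ^ 2)) z := by
    have h0 : HasDerivAt (fun z => X z ^ 2 + b) (2 * X z * X1 z) z := by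
      have := ((d0 z hz).fun_pow 2).add_const b
      simpa using this
    have h1 : HasDerivAt (fun z => X z * (X z ^ 2 + b)) (X1 z * (X z ^ 2 + b) + X z * (2 * X z * X1 z)) z :=
      (d0 z hz).mul h0
    have h2 : HasDerivAt (fun z => X1 z / (X z * (X z ^ 2 + b)))
        ((X2 z * (X z * (X z ^ 2 + b)) - X1 z * (X1 z * (X z ^ 2 + b) + X z * (2 * X z * X1 z)))
          / (X z * (X z ^ 2 + b)) ^ 2) z :=
      (d1 z hz).div h1 (mul_ne_zero (hX0 z hz) (hXb z hz))
    have h3 : HasDerivAt (fun z => X2 z / X1 z) ((X3 z * X1 z - X2 z * X2 z) / X1 z ^ 2) z :=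
      (d2 z hz).div (d1 z hz) (hX1 z hz)
    apply (h3.sub (h2.const_mul (2 * b))).congr_of_eventuallyEq
    filter_upwards [hE.mem_nhds hz] with y hy
    rw [hPF y hy]
    simp only [Pi.sub_apply]
    ring
  have a1 := hX1 z hz
  have a2 := hX0 z hz
  have a3 := hXb z hz
  constructor
  · rw [hPF z hz, hPf z hz]; ring
  · rw [hPF'.deriv, hPf'.deriv, hPF z hz, hPf z hz]
    field_simp
    ring

end Pool.Agent.Helper405.Schw
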