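import Pool.Agent.Helper405.KoebeA
import Pool.Agent.Helper405.GeoB
import Pool.Agent.Helper405.Schw

set_option autoImplicit false
open Complex Set Filter Metric Topology

namespace Pool.Agent.Helper405.Fin
open Pool.Agent.Helper405.Geo Pool.Agent.Helper405.Koebe Pool.Agent.Helper405.Schw

theorem S_bound {j : ℕ} {v : ℂ} (hv : v ∈ U) (hv0 : v ≠ 0) {D : ℝ} (hD0 : 0 ≤ D)
    (hD : ∀ v0, v0 ∉ U → D ≤ 4 * ‖v - v0‖) :
    6 * (tt j) ^ 10 * (D / ‖v‖ ^ 2) ^ 2 / ‖XX (tt j) v ^ 2 + ((tt j ^ 10 : ℝ) : ℂ)‖ ^ 2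
      ≤ 6144 * (tt j) ^ 2 := by
  have ht := tt_pos j
  have ht1 := tt_le j
  set t := tt j with htd
  have hvn : 0 < ‖v‖ := norm_pos_iff.2 hv0
  have hb : 0 < t ^ 10 := by positivity
  by_cases hcase : v ∈ T t ∧ 1 ≤ ‖v‖
  · obtain ⟨h1, h2⟩ := hcase
    obtain ⟨v0, hv0U, hv0n⟩ := near h1 h2
    rw [← htd] at hv0n
    have h3 := hD v0 hv0U
    have h4 := XX_sq_a ht ht1 h1
    have h5 : D / ‖v‖ ^ 2 ≤ 8 * t ^ 7 := by
      rw [div_le_iff₀ (by positivity)]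
      have h7 : 0 < t ^ 7 := by positivity
      have h6 : t ^ 7 * ‖v‖ ≤ t ^ 7 * ‖v‖ ^ 2 := by
        apply mul_le_mul_of_nonneg_left _ h7.le
        nlinarith
      linarith
    have h8 : 0 ≤ D / ‖v‖ ^ 2 := by positivity
    calc 6 * t ^ 10 * (D / ‖v‖ ^ 2) ^ 2 / ‖XX t v ^ 2 + ((t ^ 10 : ℝ) : ℂ)‖ ^ 2
        ≤ 6 * t ^ 10 * (8 * t ^ 7) ^ 2 / (t ^ 10) ^ 2 := by gcongr
      _ = 384 * t ^ 2 * t ^ 2 := by field_simp; ring
      _ ≤ 384 * t ^ 2 * 1 := by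
          have : t ^ 2 ≤ 1 := by nlinarith
          gcongr
      _ ≤ 6144 * t ^ 2 := by nlinarith [sq_nonneg t]
  · have hcase' : ‖v‖ < 1 ∨ v ∉ T t := by
      by_contra hcon
      push Not at hcon
      exact hcase ⟨hcon.2, hcon.1⟩
    have h1 := XX_b hv hv0 hcase'
    have h2 := XX_sq_b hv h1
    rw [← htd] at h1 h2
    have h3 := norm_lt_of_mem hv
    have h4 : D ≤ 16 := by
      have h5 := hD (-1) neg_one_notMem
      have h6 : ‖v - (-1)‖ ≤ ‖v‖ + 1 := by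
        have := norm_sub_le v (-1)
        rwa [norm_neg, norm_one] at this
      linarith
    have hX : 0 < ‖XX t v‖ := by
      by_contra hcon
      push Not at hcon
      have : ‖XX t v‖ = 0 := le_antisymm hcon (norm_nonneg _)
      rw [this, zero_mul] at h1
      have : 0 < t ^ 2 := by positivity
      linarith
    calc 6 * t ^ 10 * (D / ‖v‖ ^ 2) ^ 2 / ‖XX t v ^ 2 + ((t ^ 10 : ℝ) : ℂ)‖ ^ 2
        ≤ 6 * t ^ 10 * (16 / ‖v‖ ^ 2) ^ 2 / (‖XX t v‖ ^ 2 / 2) ^ 2 := by gcongr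
      _ = 6144 * t ^ 10 / (‖XX t v‖ * ‖v‖) ^ 4 := by field_simp; ring
      _ ≤ 6144 * t ^ 10 / (t ^ 2) ^ 4 := by gcongr
      _ = 6144 * t ^ 2 := by field_simp

theorem P_bound {t : ℝ} (ht : 0 < t) (ht1 : t ≤ 1 / 1024) {D : ℝ} (hD : t ^ 7 / 4 ≤ D)
    (hX0 : XX t (vp t) ≠ 0) (hXb : XX t (vp t) ^ 2 + ((t ^ 10 : ℝ) : ℂ) ≠ 0) :
    1 / 200 < 2 * t ^ 10 * (D / (‖ee t‖ * ‖vp t‖ ^ 2)) / (‖XX t (vp t)‖ *
      ‖XX t (vp t) ^ 2 + ((t ^ 10 : ℝ) : ℂ)‖) := by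
  obtain ⟨h1, h2⟩ := vp_XX ht ht1
  have hb : 0 < t ^ 10 := by positivity
  have h7 : 0 < t ^ 7 := by positivity
  have hee := ee_le ht ht1
  have hee1 := one_le_ee t
  have hX0' : 0 < ‖XX t (vp t)‖ := norm_pos_iff.2 hX0
  have hXb' : 0 < ‖XX t (vp t) ^ 2 + ((t ^ 10 : ℝ) : ℂ)‖ := norm_pos_iff.2 hXb
  have hv0 : 0 < ‖vp t‖ := by
    rw [norm_pos_iff, vp]
    apply div_ne_zero _ (ee_ne t)
    rw [Ne, Complex.ofReal_eq_zero]
    have := pow7_le ht ht1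
    linarith
  have h3 : ‖XX t (vp t) ^ 2 + ((t ^ 10 : ℝ) : ℂ)‖ ≤ 2 * t ^ 10 := by
    have h4 := norm_add_le (XX t (vp t) ^ 2) ((t ^ 10 : ℝ) : ℂ)
    rw [norm_pow, Complex.norm_real, Real.norm_of_nonneg hb.le] at h4
    have h5 : ‖XX t (vp t)‖ ^ 2 ≤ (5 * t ^ 7) ^ 2 := by gcongr
    have h6 : (5 * t ^ 7) ^ 2 ≤ t ^ 10 := by
      have : t ^ 4 ≤ 1 / 25 := by
        calc t ^ 4 ≤ (1 / 1024) ^ 4 := by gcongr
          _ ≤ 1 / 25 := by norm_num
      calc (5 * t ^ 7) ^ 2 = 25 * t ^ 10 * t ^ 4 := by ring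
        _ ≤ 25 * t ^ 10 * (1 / 25) := by gcongr
        _ = t ^ 10 := by ring
    linarith
  have hD0 : 0 < D := by
    have : 0 < t ^ 7 / 4 := by positivity
    linarith
  have h8 : 3 / 320 ≤ 2 * t ^ 10 * (D / (‖ee t‖ * ‖vp t‖ ^ 2)) / (‖XX t (vp t)‖ *
      ‖XX t (vp t) ^ 2 + ((t ^ 10 : ℝ) : ℂ)‖) := by
    calc (3 : ℝ) / 320 = 2 * t ^ 10 * ((t ^ 7 / 4) / (4 / 3 * 2 ^ 2)) / (5 * t ^ 7 * (2 * t ^ 10)) := by
          field_simp; norm_num
      _ ≤ _ := by gcongr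
  linarith

/-- normalisation at infinity -/
theorem infinity {g : ℂ → ℂ} (hg : DifferentiableOn ℂ g (ball 0 1)) (hg0 : g 0 = 0)
    (hne : ∀ z ∈ ball (0 : ℂ) 1, z ≠ 0 → g z ≠ 0) (hd : deriv g 0 ≠ 0) :
    ∃ C : ℝ, ∀ z : ℂ, 2 < ‖z‖ → ‖deriv g 0 / g z⁻¹ - z‖ ≤ C := by
  have hnb : ball (0 : ℂ) 1 ∈ 𝓝 (0 : ℂ) := ball_mem_nhds _ one_pos
  have hq : DifferentiableOn ℂ (dslope g 0) (ball 0 1) :=
    (Complex.differentiableOn_dslope hnb).2 hg
  have hq0 : dslope g 0 0 = deriv g 0 := dslope_same _ _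
  have hqne : ∀ z ∈ ball (0 : ℂ) 1, z ≠ 0 → dslope g 0 z = g z / z := by
    intro z _ hz0
    rw [dslope_of_ne _ hz0, slope_def_field, hg0, sub_zero, sub_zero]
  have hqnz : ∀ z ∈ ball (0 : ℂ) 1, dslope g 0 z ≠ 0 := by
    intro z hz
    by_cases hz0 : z = 0
    · rw [hz0, hq0]; exact hd
    · rw [hqne z hz hz0]
      exact div_ne_zero (hne z hz hz0) hz0
  set r : ℂ → ℂ := fun z => deriv g 0 / dslope g 0 z with hr
  have hrd : DifferentiableOn ℂ r (ball 0 1) := (differentiableOn_const _).div hq hqnz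
  have hr0 : r 0 = 1 := by simp only [hr, hq0]; exact div_self hd
  have hp : DifferentiableOn ℂ (dslope r 0) (ball 0 1) :=
    (Complex.differentiableOn_dslope hnb).2 hrd
  have hsub : closedBall (0 : ℂ) (1 / 2) ⊆ ball 0 1 := closedBall_subset_ball (by norm_num)
  obtain ⟨C, hC⟩ := (isCompact_closedBall (0 : ℂ) (1 / 2)).exists_bound_of_continuousOn
    (hp.continuousOn.mono hsub)
  refine ⟨C, fun z hz => ?_⟩
  have hz0 : z ≠ 0 := by
    intro h; rw [h, norm_zero] at hz; linarith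
  have hzi0 : z⁻¹ ≠ 0 := inv_ne_zero hz0
  have hmem : z⁻¹ ∈ closedBall (0 : ℂ) (1 / 2) := by
    rw [mem_closedBall_zero_iff, norm_inv, one_div]
    exact inv_anti₀ (by norm_num) hz.le
  have h1 := hC _ hmem
  have h2 := hne _ (hsub hmem) hzi0
  have h3 : dslope r 0 z⁻¹ = deriv g 0 / g z⁻¹ - z := by
    rw [dslope_of_ne _ hzi0, slope_def_field, hr0, sub_zero]
    simp only [hr]
    rw [hqne _ (hsub hmem) hzi0]
    field_simp
  rw [h3] at h1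
  exact h1


/-- the statement -/
theorem main :
    ∃ (f : ℂ → ℂ) (F : ℕ → ℂ → ℂ),
      (DifferentiableOn ℂ f {z : ℂ | 1 < ‖z‖} ∧ Set.InjOn f {z : ℂ | 1 < ‖z‖} ∧
        ∃ C : ℝ, ∀ z : ℂ, 2 < ‖z‖ → ‖f z - z‖ ≤ C) ∧
      (∀ n : ℕ, DifferentiableOn ℂ (F n) {z : ℂ | 1 < ‖z‖} ∧
        Set.InjOn (F n) {z : ℂ | 1 < ‖z‖} ∧
        ∃ C : ℝ, ∀ z : ℂ, 2 < ‖z‖ → ‖F n z - z‖ ≤ C) ∧
      (∀ n : ℕ, ∀ z : ℂ, 1 < ‖z‖ →
        (‖z‖ ^ 2 - 1) ^ 2 *
          ‖(deriv (fun w => deriv (deriv (F n)) w / deriv (F n) w) z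
              - (1 / 2 : ℂ) * (deriv (deriv (F n)) z / deriv (F n) z) ^ 2)
            - (deriv (fun w => deriv (deriv f) w / deriv f w) z
              - (1 / 2 : ℂ) * (deriv (deriv f) z / deriv f z) ^ 2)‖ ≤ 6144 * (tt n) ^ 2) ∧
      (∀ n : ℕ, ∃ z : ℂ, 1 < ‖z‖ ∧
        1 / 200 < (‖z‖ ^ 2 - 1) *
          ‖deriv (deriv (F n)) z / deriv (F n) z - deriv (deriv f) z / deriv f z‖) := by
  obtain ⟨g, φ, hg, hbij, hgd, hg0, hφ, hφm, hgφ, hφg⟩ :=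
    Pool.Agent.Helper405.Riemann.riemann_inv isOpen_U isSimplyConnected_U U_ne_univ zero_mem_U
  have hgne : ∀ z ∈ ball (0 : ℂ) 1, z ≠ 0 → g z ≠ 0 := by
    intro z hz hz0 h
    apply hz0
    apply hbij.injOn hz (by simp)
    rw [h, hg0]
  have hγ : deriv g 0 ≠ 0 := hgd 0 (by simp)
  set γ := deriv g 0 with hγd
  obtain ⟨C, hC⟩ := infinity hg hg0 hgne hγ
  set E : Set ℂ := {z : ℂ | 1 < ‖z‖} with hEd
  have hE : IsOpen E := isOpen_lt continuous_const continuous_norm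
  have hinv : ∀ z ∈ E, z⁻¹ ∈ ball (0 : ℂ) 1 := by
    intro z hz
    rw [mem_ball_zero_iff, norm_inv]
    exact inv_lt_one_of_one_lt₀ hz
  have hz0 : ∀ z ∈ E, z ≠ 0 := by
    intro z hz h
    have : (1 : ℝ) < ‖z‖ := hz
    rw [h, norm_zero] at this; linarith
  have hv : ∀ z ∈ E, g z⁻¹ ∈ U := fun z hz => hbij.mapsTo (hinv z hz)
  have hv0 : ∀ z ∈ E, g z⁻¹ ≠ 0 := fun z hz => hgne _ (hinv z hz) (inv_ne_zero (hz0 z hz))
  -- the functions
  set b : ℕ → ℂ := fun n => ((tt n ^ 10 : ℝ) : ℂ) with hb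
  set X : ℕ → ℂ → ℂ := fun n z => XX (tt n) (g z⁻¹) with hX
  set A : ℕ → ℂ := fun n => γ * ee (tt n) with hA
  set B : ℕ → ℂ := fun n => γ * ee (tt n) * ((1 / 2 - 4 * tt n ^ 7 : ℝ) : ℂ) with hB
  set f : ℂ → ℂ := fun z => γ / g z⁻¹ with hf
  set F : ℕ → ℂ → ℂ := fun n z => A n * (X n z - b n / X n z) + B n with hF
  have hAne : ∀ n, A n ≠ 0 := fun n => mul_ne_zero hγ (ee_ne _)
  have hfX : ∀ n, f = fun z => A n * X n z + B n := by
    intro n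
    funext z
    simp only [hf, hA, hX, hB, XX]
    have := ee_ne (tt n)
    rw [mul_inv]
    field_simp
    ring
  have hXd : ∀ n, ∀ z ∈ E, HasDerivAt (X n)
      (deriv g z⁻¹ * (z⁻¹) ^ 2 / (ee (tt n) * (g z⁻¹) ^ 2)) z := by
    intro n z hz
    have h1 : HasDerivAt g (deriv g z⁻¹) z⁻¹ :=
      (hg.differentiableAt (isOpen_ball.mem_nhds (hinv z hz))).hasDerivAt
    have h2 : HasDerivAt (fun z => g z⁻¹) (deriv g z⁻¹ * (-(z ^ 2)⁻¹)) z :=
      h1.comp z (hasDerivAt_inv (hz0 z hz))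
    have hne : ee (tt n) * g z⁻¹ ≠ 0 := mul_ne_zero (ee_ne _) (hv0 z hz)
    have h3 := ((h2.const_mul (ee (tt n))).fun_inv hne).sub_const ((1 / 2 - 4 * tt n ^ 7 : ℝ) : ℂ)
    refine h3.congr_deriv ?_
    have := ee_ne (tt n)
    have := hv0 z hz
    have := hz0 z hz
    field_simp
  have hXdiff : ∀ n, DifferentiableOn ℂ (X n) E := fun n z hz =>
    (hXd n z hz).differentiableAt.differentiableWithinAt
  have hXne : ∀ n, ∀ z ∈ E, X n z ≠ 0 := fun n z hz => XX_ne (hv z hz) (hv0 z hz)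
  have hXb : ∀ n, ∀ z ∈ E, X n z ^ 2 + b n ≠ 0 := by
    intro n z hz
    rw [pow_two]
    exact XX_prod (hv z hz) (hv0 z hz) (hv z hz) (hv0 z hz)
  have hX1 : ∀ n, ∀ z ∈ E, deriv (X n) z ≠ 0 := by
    intro n z hz
    rw [(hXd n z hz).deriv]
    exact div_ne_zero (mul_ne_zero (hgd _ (hinv z hz)) (pow_ne_zero _ (inv_ne_zero (hz0 z hz))))
      (mul_ne_zero (ee_ne _) (pow_ne_zero _ (hv0 z hz)))
  have hschw := fun n z (hz : z ∈ E) =>
    schwarz_diff (b := b n) hE (hAne n) (hXdiff n) (hXne n) (hXb n) (hX1 n) (hfX n) (rfl : F n = _) hz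
  -- X determines g
  have hXinj : ∀ n, ∀ z ∈ E, ∀ w ∈ E, X n z = X n w → z = w := by
    intro n z hz w hw h
    simp only [hX, XX] at h
    have h1 : (ee (tt n) * g z⁻¹)⁻¹ = (ee (tt n) * g w⁻¹)⁻¹ := by linear_combination h
    have h2 := inv_injective h1
    have h3 := mul_left_cancel₀ (ee_ne (tt n)) h2
    exact inv_injective (hbij.injOn (hinv z hz) (hinv w hw) h3)
  -- weights
  have hweight : ∀ n, ∀ z ∈ E, (‖z‖ ^ 2 - 1) * ‖deriv (X n) z‖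
      = ((1 - ‖z⁻¹‖ ^ 2) * ‖deriv g z⁻¹‖) / (‖ee (tt n)‖ * ‖g z⁻¹‖ ^ 2) := by
    intro n z hz
    rw [(hXd n z hz).deriv, norm_div, norm_mul, norm_mul, norm_pow, norm_pow, norm_inv]
    have h1 : 0 < ‖z‖ := norm_pos_iff.2 (hz0 z hz)
    have h2 : 0 < ‖g z⁻¹‖ := norm_pos_iff.2 (hv0 z hz)
    have h3 : 0 < ‖ee (tt n)‖ := norm_pos_iff.2 (ee_ne _)
    field_simp
  refine ⟨f, F, ⟨?_, ?_, ?_⟩, ?_, ?_, ?_⟩
  · rw [hfX 0]
    exact ((hXdiff 0).const_mul _).add_const _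
  · intro z hz w hw h
    rw [hfX 0] at h
    simp only at h
    apply hXinj 0 z hz w hw
    have : A 0 * X 0 z = A 0 * X 0 w := by linear_combination h
    exact mul_left_cancel₀ (hAne 0) this
  · exact ⟨C, hC⟩
  · intro n
    refine ⟨?_, ?_, ?_⟩
    · exact (((hXdiff n).sub ((differentiableOn_const _).div (hXdiff n) (hXne n))).const_mul _).add_const _
    · intro z hz w hw h
      apply hXinj n z hz w hw
      simp only [hF] at h
      have h1 : A n * (X n z - b n / X n z) = A n * (X n w - b n / X n w) := by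
        linear_combination h
      have h2 := mul_left_cancel₀ (hAne n) h1
      have h3 := hXne n z hz
      have h4 := hXne n w hw
      have h5 : (X n z - X n w) * (X n z * X n w + b n) = 0 := by
        field_simp at h2
        linear_combination h2
      rcases mul_eq_zero.1 h5 with h6 | h6
      · linear_combination h6
      · exact absurd h6 (XX_prod (hv z hz) (hv0 z hz) (hv w hw) (hv0 w hw))
    · refine ⟨C + ‖A n‖ * (‖b n‖ / (tt n) ^ 7), fun z hz => ?_⟩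
      have hzE : z ∈ E := by
        show 1 < ‖z‖
        linarith
      have h1 := hC z hz
      have h2 : F n z - z = (γ / g z⁻¹ - z) - A n * (b n / X n z) := by
        have h3 := congrFun (hfX n) z
        simp only [hf] at h3
        rw [h3]
        simp only [hF]
        ring
      rw [h2]
      have h4 : ‖A n * (b n / X n z)‖ ≤ ‖A n‖ * (‖b n‖ / (tt n) ^ 7) := by
        rw [norm_mul, norm_div]
        have h5 := XX_norm_ge (j := n) (hv z hzE) (hv0 z hzE)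
        have h6 : 0 < tt n ^ 7 := by have := tt_pos n; positivity
        gcongr
      exact (norm_sub_le _ _).trans (add_le_add h1 h4)
  · intro n z hz
    have hzE : z ∈ E := hz
    rw [(hschw n z hzE).2]
    have hD0 : 0 ≤ (1 - ‖z⁻¹‖ ^ 2) * ‖deriv g z⁻¹‖ := by
      have h1 := hinv z hzE
      rw [mem_ball_zero_iff] at h1
      have : 0 ≤ 1 - ‖z⁻¹‖ ^ 2 := by nlinarith [norm_nonneg z⁻¹]
      positivity
    have hSb := S_bound (j := n) (hv z hzE) (hv0 z hzE) hD0 (fun v0 hv0 =>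
      koebe_star star_U zero_mem_U hg hbij.mapsTo hv0 (hinv z hzE))
    refine le_trans ?_ hSb
    have hw := hweight n z hzE
    rw [norm_div, norm_mul, norm_mul, norm_pow, norm_pow]
    have e6 : ‖(6 : ℂ)‖ = 6 := by simp
    have hbn : ‖b n‖ = tt n ^ 10 := by
      have : 0 < tt n ^ 10 := by have := tt_pos n; positivity
      simp only [hb]
      rw [Complex.norm_real, Real.norm_of_nonneg this.le]
    rw [e6, hbn]
    have hee1 := one_le_ee (tt n)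
    have hgn : 0 < ‖g z⁻¹‖ := norm_pos_iff.2 (hv0 z hzE)
    have hXbn : 0 < ‖X n z ^ 2 + b n‖ := norm_pos_iff.2 (hXb n z hzE)
    have e1 : (‖z‖ ^ 2 - 1) ^ 2 * (6 * tt n ^ 10 * ‖deriv (X n) z‖ ^ 2 / ‖X n z ^ 2 + b n‖ ^ 2)
        = 6 * tt n ^ 10 * ((‖z‖ ^ 2 - 1) * ‖deriv (X n) z‖) ^ 2 / ‖X n z ^ 2 + b n‖ ^ 2 := by
      ring
    rw [e1, hw]
    have ht := tt_pos n
    have e2 : ((1 - ‖z⁻¹‖ ^ 2) * ‖deriv g z⁻¹‖) / (‖ee (tt n)‖ * ‖g z⁻¹‖ ^ 2)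
        ≤ ((1 - ‖z⁻¹‖ ^ 2) * ‖deriv g z⁻¹‖) / ‖g z⁻¹‖ ^ 2 := by
      apply div_le_div_of_nonneg_left hD0 (by positivity)
      have : 0 < ‖g z⁻¹‖ ^ 2 := by positivity
      nlinarith
    have e3 : 0 ≤ ((1 - ‖z⁻¹‖ ^ 2) * ‖deriv g z⁻¹‖) / (‖ee (tt n)‖ * ‖g z⁻¹‖ ^ 2) := by positivity
    apply div_le_div_of_nonneg_right _ (by positivity)
    apply mul_le_mul_of_nonneg_left _ (by positivity)
    exact pow_le_pow_left₀ e3 e2 2
  · intro n
    have ht := tt_pos n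
    have ht1 := tt_le n
    have h7 : 0 < tt n ^ 7 := by positivity
    have hball := vp_ball ht ht1
    have hTU : T (tt n) ⊆ U := fun x hx => Or.inr (mem_iUnion.2 ⟨n, hx⟩)
    have hvpU : vp (tt n) ∈ U := hTU (hball (mem_ball_self (by positivity)))
    have hvp0 : vp (tt n) ≠ 0 := by
      intro h
      have := re_pos_of_mem ht (hball (mem_ball_self (by positivity)))
      rw [h] at this
      simp at this
    have hζ : φ (vp (tt n)) ∈ ball (0 : ℂ) 1 := hφm hvpU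
    have hgζ : g (φ (vp (tt n))) = vp (tt n) := hgφ _ hvpU
    have hζ0 : φ (vp (tt n)) ≠ 0 := by
      intro h
      rw [h, hg0] at hgζ
      exact hvp0 hgζ.symm
    set z : ℂ := (φ (vp (tt n)))⁻¹ with hzd
    have hzi : z⁻¹ = φ (vp (tt n)) := inv_inv _
    have hzE : z ∈ E := by
      show 1 < ‖z‖
      rw [hzd, norm_inv]
      rw [mem_ball_zero_iff] at hζ
      exact (one_lt_inv₀ (norm_pos_iff.2 hζ0)).2 hζ
    refine ⟨z, hzE, ?_⟩
    rw [(hschw n z hzE).1, norm_neg, norm_div, norm_mul, norm_mul, norm_mul]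
    have hgz : g z⁻¹ = vp (tt n) := by rw [hzi, hgζ]
    have hD := lower_bound isOpen_U hg hbij.mapsTo hφ hφm hφg (hinv z hzE) (ρ := tt n ^ 7 / 4)
      (by positivity) (by rw [hgz]; exact hball.trans hTU)
    have hPb := P_bound ht ht1 hD
      (by have := hXne n z hzE; simp only [hX, hgz] at this; exact this)
      (by have := hXb n z hzE; simp only [hX, hgz] at this; exact this)
    have hw := hweight n z hzE
    rw [hgz] at hw
    have e2 : ‖(2 : ℂ)‖ = 2 := by simp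
    have hbn : ‖b n‖ = tt n ^ 10 := by
      have : 0 < tt n ^ 10 := by positivity
      simp only [hb]
      rw [Complex.norm_real, Real.norm_of_nonneg this.le]
    have hXz : X n z = XX (tt n) (vp (tt n)) := by simp only [hX, hgz]
    rw [e2, hbn, hXz]
    have e3 : (‖z‖ ^ 2 - 1) * (2 * tt n ^ 10 * ‖deriv (X n) z‖ / (‖XX (tt n) (vp (tt n))‖ *
        ‖XX (tt n) (vp (tt n)) ^ 2 + b n‖)) = 2 * tt n ^ 10 * ((‖z‖ ^ 2 - 1) * ‖deriv (X n) z‖) /
        (‖XX (tt n) (vp (tt n))‖ * ‖XX (tt n) (vp (tt n)) ^ 2 + b n‖) := by ring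
    rw [e3, hw]
    exact hPb

end Pool.Agent.Helper405.Fin
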