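import Mathlib

set_option autoImplicit false
open Complex Set Filter Metric Topology

namespace Pool.Agent.Helper405.Geo

noncomputable def tt (j : ℕ) : ℝ := (1 / 2) ^ (j + 10)

theorem tt_pos (j : ℕ) : 0 < tt j := by unfold tt; positivity

theorem tt_le (j : ℕ) : tt j ≤ 1 / 1024 := by
  unfold tt
  rw [pow_add]
  have : ((1 : ℝ) / 2) ^ j ≤ 1 := pow_le_one₀ (by norm_num) (by norm_num)
  have h2 : ((1 : ℝ) / 2) ^ 10 = 1 / 1024 := by norm_num
  rw [h2]
  linarith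

theorem tt_sep_lt {j k : ℕ} (h : j < k) : tt k ≤ tt j / 2 := by
  unfold tt
  have h1 : ((1 : ℝ) / 2) ^ (k + 10) ≤ (1 / 2) ^ (j + 1 + 10) :=
    pow_le_pow_of_le_one (by norm_num) (by norm_num) (by omega)
  have h2 : ((1 : ℝ) / 2) ^ (j + 1 + 10) = (1 / 2) ^ (j + 10) / 2 := by ring
  linarith

theorem tt_sep {j k : ℕ} (h : j ≠ k) : tt j / 2 ≤ |tt j - tt k| ∧ tt k / 2 ≤ |tt j - tt k| := by
  have hj := tt_pos j
  have hk := tt_pos k
  rcases lt_or_gt_of_ne h with h1 | h1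
  · have := tt_sep_lt h1
    rw [abs_of_nonneg (by linarith)]
    constructor <;> linarith
  · have := tt_sep_lt h1
    rw [abs_of_nonpos (by linarith)]
    constructor <;> linarith

theorem pow7_le {t : ℝ} (h0 : 0 < t) (h1 : t ≤ 1 / 1024) : t ^ 7 ≤ t / 16 := by
  have h2 : t ^ 6 ≤ 1 / 16 := by
    calc t ^ 6 ≤ (1 / 1024) ^ 6 := by gcongr
      _ ≤ 1 / 16 := by norm_num
  calc t ^ 7 = t * t ^ 6 := by ring
    _ ≤ t * (1 / 16) := by gcongr
    _ = t / 16 := by ring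

/-- the spike with slope parameter `t` -/
def T (t : ℝ) : Set ℂ := {v | |v.im + t * v.re| < t ^ 7 * v.re ∧ v.re - t * v.im < 2}

/-- the domain -/
def U : Set ℂ := ball 0 1 ∪ ⋃ j, T (tt j)

theorem isOpen_T (t : ℝ) : IsOpen (T t) := by
  have h : T t = {v : ℂ | |v.im + t * v.re| < t ^ 7 * v.re} ∩ {v : ℂ | v.re - t * v.im < 2} := rfl
  rw [h]
  exact (isOpen_lt (by fun_prop) (by fun_prop)).inter (isOpen_lt (by fun_prop) (by fun_prop))

theorem isOpen_U : IsOpen U := isOpen_ball.union (isOpen_iUnion fun _ => isOpen_T _)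

theorem zero_mem_U : (0 : ℂ) ∈ U := Or.inl (by simp)

theorem re_pos_of_mem {t : ℝ} (ht : 0 < t) {v : ℂ} (hv : v ∈ T t) : 0 < v.re := by
  have h1 := lt_of_le_of_lt (abs_nonneg _) hv.1
  exact (mul_pos_iff_of_pos_left (by positivity)).1 h1

theorem smul_mem_T {t : ℝ} {v : ℂ} (hv : v ∈ T t) {c : ℝ} (hc : 0 < c) (hc1 : c ≤ 1) :
    c • v ∈ T t := by
  obtain ⟨h1, h2⟩ := hv
  simp only [T, mem_ofPred_eq]
  have e1 : (c • v).re = c * v.re := by simp
  have e2 : (c • v).im = c * v.im := by simp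
  rw [e1, e2]
  constructor
  · have : c * v.im + t * (c * v.re) = c * (v.im + t * v.re) := by ring
    rw [this, abs_mul, abs_of_pos hc]
    nlinarith
  · have : c * v.re - t * (c * v.im) = c * (v.re - t * v.im) := by ring
    rw [this]
    rcases le_or_gt 0 (v.re - t * v.im) with h3 | h3
    · nlinarith
    · nlinarith

theorem star_U : StarConvex ℝ 0 U := by
  rw [starConvex_zero_iff]
  intro v hv c hc0 hc1
  rcases hv with hv | hv
  · left
    rw [mem_ball_zero_iff] at hv ⊢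
    rw [norm_smul, Real.norm_of_nonneg hc0]
    nlinarith [norm_nonneg v]
  · rw [mem_iUnion] at hv
    obtain ⟨j, hj⟩ := hv
    rcases hc0.eq_or_lt with h | h
    · left; rw [← h]; simp
    · right
      exact mem_iUnion.2 ⟨j, smul_mem_T hj h hc1⟩

theorem neg_one_notMem : (-1 : ℂ) ∉ U := by
  intro h
  rcases h with h | h
  · simp at h
  · rw [mem_iUnion] at h
    obtain ⟨j, hj⟩ := h
    have := re_pos_of_mem (tt_pos j) hj
    simp at this
    linarith

theorem isSimplyConnected_U : IsSimplyConnected U := by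
  have : ContractibleSpace U := star_U.contractibleSpace ⟨0, zero_mem_U⟩
  unfold IsSimplyConnected
  infer_instance

theorem U_ne_univ : U ≠ univ := by
  intro h
  exact neg_one_notMem (h ▸ mem_univ _)

/-- basic estimates in a spike, `A = Re (v e)`, `B = Im (v e)`, `e = 1 + i t` -/
theorem T_est {t : ℝ} (ht : 0 < t) (ht1 : t ≤ 1 / 1024) {v : ℂ} (hv : v ∈ T t) :
    0 < v.re ∧ v.re ≤ v.re - t * v.im ∧ v.re - t * v.im < 2 ∧
      |v.im + t * v.re| ≤ t ^ 7 * (v.re - t * v.im) := by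
  have hx := re_pos_of_mem ht hv
  obtain ⟨h1, h2⟩ := hv
  have h3 : v.re ≤ v.re - t * v.im := by
    have h4 : v.im ≤ t ^ 7 * v.re - t * v.re := by
      have := (abs_lt.1 h1).2
      linarith
    have h5 := pow7_le ht ht1
    have h6 : v.im ≤ 0 := by nlinarith
    nlinarith
  refine ⟨hx, h3, h2, ?_⟩
  have : t ^ 7 * v.re ≤ t ^ 7 * (v.re - t * v.im) := by gcongr
  linarith

theorem norm_lt_of_mem {v : ℂ} (hv : v ∈ U) : ‖v‖ < 3 := by
  rcases hv with h | h
  · rw [mem_ball_zero_iff] at h; linarith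
  · rw [mem_iUnion] at h
    obtain ⟨j, hj⟩ := h
    obtain ⟨h1, h2, h3, h4⟩ := T_est (tt_pos j) (tt_le j) hj
    have h5 := Complex.norm_le_abs_re_add_abs_im v
    have h6 := abs_lt.1 hj.1
    have h7 := pow7_le (tt_pos j) (tt_le j)
    have h8 := tt_le j
    have h9 := tt_pos j
    have h10 : |v.im| ≤ 1 / 2 * v.re := by
      rw [abs_le]
      constructor <;> nlinarith
    rw [abs_of_pos h1] at h5
    linarith

/-- the direction -/
noncomputable def ee (t : ℝ) : ℂ := 1 + t * I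

theorem ee_norm_sq (t : ℝ) : ‖ee t‖ ^ 2 = 1 + t ^ 2 := by
  rw [← Complex.normSq_eq_norm_sq, Complex.normSq_apply]
  simp [ee]; ring

theorem one_le_ee (t : ℝ) : 1 ≤ ‖ee t‖ := by
  have h := ee_norm_sq t
  nlinarith [norm_nonneg (ee t), sq_nonneg t]

theorem ee_le {t : ℝ} (h0 : 0 < t) (h1 : t ≤ 1 / 1024) : ‖ee t‖ ≤ 4 / 3 := by
  have h := ee_norm_sq t
  by_contra hcon
  push Not at hcon
  nlinarith [norm_nonneg (ee t)]

theorem ee_ne (t : ℝ) : ee t ≠ 0 := by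
  intro h
  have := one_le_ee t
  rw [h, norm_zero] at this
  linarith

noncomputable def XX (t : ℝ) (v : ℂ) : ℂ := (ee t * v)⁻¹ - ((1 / 2 - 4 * t ^ 7 : ℝ) : ℂ)

theorem ev_re (t : ℝ) (v : ℂ) : (ee t * v).re = v.re - t * v.im := by
  simp [ee]

theorem ev_im (t : ℝ) (v : ℂ) : (ee t * v).im = v.im + t * v.re := by
  simp [ee]

theorem XX_a {t : ℝ} (ht : 0 < t) (ht1 : t ≤ 1 / 1024) {v : ℂ} (hv : v ∈ T t) :
    2 * t ^ 7 ≤ (XX t v).re ∧ |(XX t v).im| ≤ (XX t v).re / 2 := by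
  obtain ⟨h1, h2, h3, h4⟩ := T_est ht ht1 hv
  set A := v.re - t * v.im with hA
  set B := v.im + t * v.re with hB
  set ε := t ^ 7 with hε
  have hε0 : 0 < ε := by positivity
  have hε1 : ε ≤ 1 / 1024 := by
    have := pow7_le ht ht1
    linarith
  have hA0 : 0 < A := lt_of_lt_of_le h1 h2
  have hN : 0 < A ^ 2 + B ^ 2 := by positivity
  have hre : (XX t v).re = A / (A ^ 2 + B ^ 2) - (1 / 2 - 4 * ε) := by
    rw [XX, sub_re, Complex.inv_re, Complex.ofReal_re, Complex.normSq_apply, ev_re, ev_im]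
    rw [← hA, ← hB, ← hε]
    ring_nf
  have him : (XX t v).im = - B / (A ^ 2 + B ^ 2) := by
    rw [XX, sub_im, Complex.inv_im, Complex.ofReal_im, Complex.normSq_apply, ev_re, ev_im]
    rw [← hA, ← hB]
    ring_nf
  have hB2 : B ^ 2 ≤ ε ^ 2 * A ^ 2 := by
    rw [← sq_abs B]
    calc |B| ^ 2 ≤ (ε * A) ^ 2 := by gcongr
      _ = ε ^ 2 * A ^ 2 := by ring
  have hlow : (1 - ε ^ 2) / 2 ≤ A / (A ^ 2 + B ^ 2) := by
    rw [le_div_iff₀ hN]
    have hε2 : 0 ≤ 1 - ε ^ 2 := by nlinarith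
    calc (1 - ε ^ 2) / 2 * (A ^ 2 + B ^ 2) ≤ (1 - ε ^ 2) / 2 * (A ^ 2 + ε ^ 2 * A ^ 2) := by
          gcongr
      _ = (1 - ε ^ 4) / 2 * (A * A) := by ring
      _ ≤ 1 / 2 * (2 * A) := by
          have : 0 ≤ ε ^ 4 := by positivity
          have h5 : (1 - ε ^ 4) / 2 ≤ 1 / 2 := by linarith
          have h6 : A * A ≤ 2 * A := by nlinarith
          have h7 : 0 ≤ A * A := by positivity
          nlinarith
      _ = A := by ring
  have hr2 : 2 * ε ≤ (XX t v).re := by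
    rw [hre]; nlinarith
  refine ⟨hr2, ?_⟩
  have h5 : |(XX t v).im| ≤ ε * (A / (A ^ 2 + B ^ 2)) := by
    rw [him, abs_div, abs_neg, abs_of_pos hN, ← mul_div_assoc]
    gcongr
  have h6 : A / (A ^ 2 + B ^ 2) = (XX t v).re + (1 / 2 - 4 * ε) := by rw [hre]; ring
  rw [h6] at h5
  nlinarith

/-- `1 - π V` with `V = e v` -/
theorem XX_mul {t : ℝ} {v : ℂ} (hv : v ≠ 0) :
    XX t v * v * ee t = 1 - ((1 / 2 - 4 * t ^ 7 : ℝ) : ℂ) * (ee t * v) := by
  have := ee_ne t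
  rw [XX]
  field_simp

theorem XX_b {j : ℕ} {v : ℂ} (hv : v ∈ U) (hv0 : v ≠ 0) (h : ‖v‖ < 1 ∨ v ∉ T (tt j)) :
    (tt j) ^ 2 ≤ ‖XX (tt j) v‖ * ‖v‖ := by
  have ht := tt_pos j
  have ht1 := tt_le j
  set t := tt j with htd
  have hm := XX_mul (t := t) hv0
  have he := ee_le ht ht1
  have he1 := one_le_ee t
  have h7 := pow7_le ht ht1
  have h7p : 0 < t ^ 7 := by positivity
  have hnm : ‖XX t v‖ * ‖v‖ * ‖ee t‖ = ‖1 - ((1 / 2 - 4 * t ^ 7 : ℝ) : ℂ) * (ee t * v)‖ := by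
    rw [← hm, norm_mul, norm_mul]
  have key : ∀ c : ℝ, 0 ≤ c → 2 * c ≤ ‖XX t v‖ * ‖v‖ * ‖ee t‖ → c ≤ ‖XX t v‖ * ‖v‖ := by
    intro c hc h2
    have h3 : ‖XX t v‖ * ‖v‖ * ‖ee t‖ ≤ ‖XX t v‖ * ‖v‖ * 2 := by
      have : 0 ≤ ‖XX t v‖ * ‖v‖ := by positivity
      apply mul_le_mul_of_nonneg_left _ this
      linarith
    linarith
  apply key _ (by positivity)
  rw [hnm]
  by_cases hlt : ‖v‖ < 1
  · have h1 : ‖((1 / 2 - 4 * t ^ 7 : ℝ) : ℂ) * (ee t * v)‖ ≤ 2 / 3 := by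
      rw [norm_mul, norm_mul, Complex.norm_real, Real.norm_of_nonneg (by linarith)]
      have h3 : ‖ee t‖ * ‖v‖ ≤ 4 / 3 * 1 := by gcongr
      have h4 : 0 ≤ ‖ee t‖ * ‖v‖ := by positivity
      nlinarith
    have h2 := norm_sub_norm_le (1 : ℂ) (((1 / 2 - 4 * t ^ 7 : ℝ) : ℂ) * (ee t * v))
    rw [norm_one] at h2
    nlinarith
  · push Not at hlt
    have hnT : v ∉ T t := by
      rcases h with h | h
      · exact absurd h (not_lt.2 hlt)
      · exact h
    rcases hv with hv | hv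
    · rw [mem_ball_zero_iff] at hv; linarith
    rw [mem_iUnion] at hv
    obtain ⟨k, hk⟩ := hv
    have hkj : j ≠ k := by
      rintro rfl; exact hnT hk
    obtain ⟨s1, s2⟩ := tt_sep hkj
    rw [← htd] at s1 s2
    have hkp := tt_pos k
    have hkle := tt_le k
    have hk7 := pow7_le hkp hkle
    obtain ⟨a1, a2, a3, a4⟩ := T_est hkp hkle hk
    obtain ⟨b1, b2⟩ := hk
    -- size of x
    have hx : 1 / 2 ≤ v.re := by
      have h5 := Complex.norm_le_abs_re_add_abs_im v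
      have h6 := abs_lt.1 b1
      have h10 : |v.im| ≤ 1 / 2 * v.re := by
        rw [abs_le]
        constructor <;> nlinarith
      rw [abs_of_pos a1] at h5
      linarith
    have hB : (tt j) / 4 * v.re ≤ |v.im + t * v.re| := by
      have e1 : v.im + t * v.re = (t - tt k) * v.re + (v.im + tt k * v.re) := by ring
      have e2 : |(t - tt k) * v.re| - |v.im + tt k * v.re| ≤ |v.im + t * v.re| := by
        rw [e1]
        have := abs_sub_abs_le_abs_sub ((t - tt k) * v.re) (-(v.im + tt k * v.re))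
        rw [abs_neg, sub_neg_eq_add] at this
        exact this
      rw [abs_mul, abs_of_pos a1] at e2
      have e3 : (t / 4 + tt k / 4) * v.re ≤ |t - tt k| * v.re := by
        gcongr
        linarith
      rw [← htd]
      nlinarith
    have him : |(1 - ((1 / 2 - 4 * t ^ 7 : ℝ) : ℂ) * (ee t * v)).im| = (1 / 2 - 4 * t ^ 7) * |v.im + t * v.re| := by
      rw [sub_im, one_im, Complex.im_ofReal_mul, ev_im, zero_sub, abs_neg, abs_mul,
        abs_of_nonneg (by linarith : (0 : ℝ) ≤ 1 / 2 - 4 * t ^ 7)]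
    have hle := Complex.abs_im_le_norm (1 - ((1 / 2 - 4 * t ^ 7 : ℝ) : ℂ) * (ee t * v))
    rw [him] at hle
    rw [← htd] at hB
    have hB' : t / 8 ≤ |v.im + t * v.re| := by nlinarith
    have h9 : (1 / 4) * (t / 8) ≤ (1 / 2 - 4 * t ^ 7) * |v.im + t * v.re| := by
      have : (1 : ℝ) / 4 ≤ 1 / 2 - 4 * t ^ 7 := by linarith
      gcongr
    nlinarith

end Pool.Agent.Helper405.Geo
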